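import Mathlib

/-!
# Module BogNF (MP_187c26_nt, real radical towers)

Positive lower bound for heights of non-torsion elements of a number field; value `log 2` for `ℚ`.

Proof. (Kronecker) If `a ≠ 0` and `logHeight₁ a = 0` then all powers of `a` have height `0`
(`Height.logHeight₁_pow`), so by Northcott (`NumberField.finite_setOfPred_logHeight₁_le`) two powers
coincide and `a^n = 1` for some `n ≥ 1`. The set of `a` with `logHeight₁ a ≤ 1` is finite; the
minimum of `1` and of the positive heights in that finite set works (divide by `finrank ℚ K`).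
For `ℚ`: `NumberField.logHeight₁_eq_log_max`/`Rat` lemmas: the height is `log max(|num|, den)`, and
`max(|num|,den) ≥ 2` unless `a ∈ {0, 1, -1}`.
-/

set_option autoImplicit false

open NumberField

namespace Pool.Agent.H4.RR

theorem logHeight_pos (K : Type) [Field K] [NumberField K] (a : K) (ha : a ≠ 0)
    (h : ∀ n : ℕ, 1 ≤ n → a ^ n ≠ 1) : 0 < Height.logHeight₁ a := by
  rcases eq_or_lt_of_le (Height.zero_le_logHeight₁ a) with h0 | h0
  · exfalso
    have hfin := NumberField.finite_setOfPred_logHeight₁_le (K := K) 0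
    have hmaps : ∀ n : ℕ, a ^ n ∈ {x : K | Height.logHeight₁ x ≤ 0} := by
      intro n
      change Height.logHeight₁ (a ^ n) ≤ 0
      rw [Height.logHeight₁_pow, ← h0, mul_zero]
    have hninj : ¬ Function.Injective fun n : ℕ => a ^ n := by
      intro hinj
      exact Set.infinite_of_injective_forall_mem hinj hmaps hfin
    rw [Function.Injective] at hninj
    push Not at hninj
    obtain ⟨i, j, hij, hne⟩ := hninj
    have key : ∀ i j : ℕ, i < j → a ^ i = a ^ j → False := by
      intro i j hlt he
      apply h (j - i) (by omega)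
      have h1 : a ^ i * a ^ (j - i) = a ^ i * 1 := by
        rw [← pow_add, mul_one, he]
        congr 1
        omega
      exact mul_left_cancel₀ (pow_ne_zero i ha) h1
    rcases lt_or_gt_of_ne hne with h1 | h1
    · exact key i j h1 hij
    · exact key j i h1 hij.symm
  · exact h0

theorem bogNF (K : Type) [Field K] [NumberField K] :
    ∃ κ : ℝ, 0 < κ ∧ ∀ a : K, a ≠ 0 → (∀ n : ℕ, 1 ≤ n → a ^ n ≠ 1) →
      κ * Module.finrank ℚ K ≤ Height.logHeight₁ a := by
  classical
  have hfin := NumberField.finite_setOfPred_logHeight₁_le (K := K) 1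
  set T : Finset K := hfin.toFinset.filter fun a => a ≠ 0 ∧ ∀ n : ℕ, 1 ≤ n → a ^ n ≠ 1 with hT
  have hc : ∃ c : ℝ, 0 < c ∧ ∀ a ∈ T, c ≤ Height.logHeight₁ a := by
    rcases T.eq_empty_or_nonempty with h | h
    · exact ⟨1, one_pos, by rw [h]; simp⟩
    · obtain ⟨a, haT, ha⟩ := T.exists_min_image (fun a => Height.logHeight₁ a) h
      refine ⟨Height.logHeight₁ a, ?_, ha⟩
      rw [hT, Finset.mem_filter] at haT
      exact logHeight_pos K a haT.2.1 haT.2.2
  obtain ⟨c, hc0, hc⟩ := hc
  have hd : (0 : ℝ) < Module.finrank ℚ K := by exact_mod_cast Module.finrank_pos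
  refine ⟨min c 1 / Module.finrank ℚ K, by positivity, fun a ha hn => ?_⟩
  rw [div_mul_cancel₀ _ hd.ne']
  by_cases h1 : Height.logHeight₁ a ≤ 1
  · refine (min_le_left _ _).trans (hc a ?_)
    rw [hT, Finset.mem_filter]
    exact ⟨hfin.mem_toFinset.2 h1, ha, hn⟩
  · push Not at h1
    exact (min_le_right _ _).trans h1.le

theorem bogRat (a : ℚ) (ha : a ≠ 0) (h : ∀ n : ℕ, 1 ≤ n → a ^ n ≠ 1) :
    Real.log 2 ≤ Height.logHeight₁ a := by
  rw [Rat.logHeight₁_eq_log_max]
  apply Real.log_le_log (by norm_num)
  have h2 : 2 ≤ max a.num.natAbs a.den := by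
    by_contra hcon
    push Not at hcon
    have h3 : a.num.natAbs ≤ 1 := by
      have := le_max_left a.num.natAbs a.den
      omega
    have h4 : a.den ≤ 1 := by
      have := le_max_right a.num.natAbs a.den
      omega
    have h5 : a.den = 1 := le_antisymm h4 a.den_pos
    have h6 : (a.num : ℚ) = a := (Rat.den_eq_one_iff a).1 h5
    have h7 : a.num ≠ 0 := Rat.num_ne_zero.2 ha
    have h8 : a.num ^ 2 = 1 := by
      have h9 : a.num.natAbs = 1 := by omega
      rw [← Int.natAbs_sq, h9]
      norm_num
    apply h 2 (by norm_num)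
    rw [← h6]
    exact_mod_cast h8
  exact_mod_cast h2

end Pool.Agent.H4.RR
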