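import Pool.Agent.H4.RR.HeightIdeal
import Pool.Agent.H4.RR.BogNF

/-!
# Module BogCyc (MP_187c26_nt, real radical towers)

Uniform height bound for cyclotomic fields `E = ℚ(ζ_M)` with `p ∤ M`:
`h(a) ≥ log(p^2/2)/(p^2+p)` for `a ≠ 0` not a root of unity.

Proof. `𝓞 E = ℤ[ζ]`. Let `σ : E ≃ₐ[ℚ] E` be the automorphism with `σ ζ = ζ^p` (`p` prime to `M`;
`IsCyclotomicExtension.autEquivPow` or `IsPrimitiveRoot.autToPow`, also on integers
`NumberField.RingOfIntegers.mapAlgEquiv`). For `y ∈ 𝓞 E`: `y^p ≡ σ y mod p` (both `y ↦ y^p` and `σ`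
induce ring homs of `𝓞 E / p`, equal on the generator `ζ`; or write `y = ∑ c_i ζ^i` and use
`add_pow_char`), hence `y^(p^2) ≡ (σ y)^p mod p^2` (`dvd_sub_pow_of_dvd_sub` or similar).
Write `a = v/u` with `u, v ∈ 𝓞 E` nonzero and the ideal `I = (u,v)` prime to `p`: start from any
`a = v₀/u₀`, `I₀ = (u₀,v₀)`, `I₀ J = (g)` (`0 ≠ g ∈ I₀`); by `IsDedekindDomain.exists_sup_span_eq`
(for `p J ≤ J`) there is `h ∈ J` with `pJ + (h) = J`; then `h u₀ = g u`, `h v₀ = g v`, `(u,v)(g) = (h) I₀`,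
i.e. `(u,v) J = (h)`; as `pJ + (h) = J` also `(p) + (u,v) = 1`.
Let `δ = v^(p^2) σ(u)^p - σ(v)^p u^(p^2)`; `p^2 ∣ δ` and `δ ∈ I' := I^(p^2) * (σ I)^p`
(`σ I = I.map σ`, same norm), which is prime to `p`, so `δ ∈ p^2 I'`
(`Ideal.mul_eq_inf_of_coprime`/`IsCoprime`).
If `δ ≠ 0`: `∏_τ |τ δ| ≥ N(p^2 I') = p^(2n) N(I)^(p^2+p)`, `n = [E:ℚ]` (`absNorm_le_prod`), and
`|τ δ| ≤ 2 max(|τu|,|τv|)^(p^2) max(|τσu|,|τσv|)^p`; the product over `τ` (the `τσ` run over all
embeddings) is `≤ 2^n (∏ max)^(p^2+p)`. With `H(a) N(I) = ∏ max` (`height_mul_absNorm`):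
`p^(2n) ≤ 2^n H(a)^(p^2+p)`, i.e. `n log(p^2/2) ≤ (p^2+p) logHeight₁ a`.
If `δ = 0`: `a^(p^2) = σ(a)^p`, and `logHeight₁ (σ a) = logHeight₁ a`, so `p^2 h = p h`, `h = 0` and
`a` is a root of unity (Kronecker, see module BogNF; or use `Height.logHeight₁` Northcott directly).
The invariance `logHeight₁ (σ a) = logHeight₁ a` also follows from `height_mul_absNorm`.
-/

set_option autoImplicit false

open NumberField

namespace Pool.Agent.H4.RR

/-- Frobenius at `p` on the ring of integers of a cyclotomic field. -/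
theorem bogCyc_frob (E : Type) [Field E] [NumberField E] (M p : ℕ) (hM : 1 ≤ M) (hp : p.Prime)
    (hpM : ¬ p ∣ M) [IsCyclotomicExtension {M} ℚ E] :
    ∃ s : E ≃+* E, ∀ y : 𝓞 E, (p : 𝓞 E) ∣ y ^ p - RingOfIntegers.mapRingEquiv s y := by
  have : NeZero M := ⟨by omega⟩
  have hζ := IsCyclotomicExtension.zeta_spec M ℚ E
  have hcop : p.Coprime M := (Nat.Prime.coprime_iff_not_dvd hp).2 hpM
  have hμ : IsPrimitiveRoot (IsCyclotomicExtension.zeta M ℚ E ^ p) M := hζ.pow_of_coprime p hcop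
  have hirr : Irreducible (Polynomial.cyclotomic M ℚ) :=
    Polynomial.cyclotomic.irreducible_rat (by omega)
  have hs := IsCyclotomicExtension.fromZetaAut_spec hμ hirr
  refine ⟨(IsCyclotomicExtension.fromZetaAut hμ hirr).toRingEquiv, fun y => ?_⟩
  set σ : 𝓞 E ≃+* 𝓞 E :=
    RingOfIntegers.mapRingEquiv (IsCyclotomicExtension.fromZetaAut hμ hirr).toRingEquiv with hσ
  have hy : y ∈ Algebra.adjoin ℤ {hζ.toInteger} := by
    rw [IsCyclotomicExtension.Rat.adjoin_singleton_eq_top hζ]; trivial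
  induction hy using Algebra.adjoin_induction with
  | mem x hx =>
    rw [Set.mem_singleton_iff] at hx
    have : x ^ p - σ x = 0 := by
      rw [sub_eq_zero]
      apply RingOfIntegers.ext
      rw [hx, hσ, RingOfIntegers.mapRingEquiv_apply]
      exact hs.symm
    rw [this]
    exact dvd_zero _
  | algebraMap n =>
    have h1 : ((p : ℤ) ∣ n ^ p - n) := by
      have : Fact p.Prime := ⟨hp⟩
      have h2 : ((n ^ p - n : ℤ) : ZMod p) = 0 := by
        push_cast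
        rw [ZMod.pow_card, sub_self]
      exact (ZMod.intCast_zmod_eq_zero_iff_dvd _ _).1 h2
    obtain ⟨c, hc⟩ := h1
    refine ⟨(c : 𝓞 E), ?_⟩
    have h3 : σ (algebraMap ℤ (𝓞 E) n) = (n : 𝓞 E) := by simp
    rw [h3]
    have h4 : (algebraMap ℤ (𝓞 E) n) = (n : 𝓞 E) := by simp
    rw [h4]
    exact_mod_cast congrArg (fun z : ℤ => (z : 𝓞 E)) hc
  | add x y _ _ ihx ihy =>
    obtain ⟨r, hr⟩ := exists_add_pow_prime_eq hp x y
    obtain ⟨a, ha⟩ := ihx
    obtain ⟨b, hb⟩ := ihy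
    refine ⟨a + b + x * y * r, ?_⟩
    rw [hr, map_add]
    linear_combination ha + hb
  | mul x y _ _ ihx ihy =>
    obtain ⟨a, ha⟩ := ihx
    obtain ⟨b, hb⟩ := ihy
    refine ⟨a * y ^ p + σ x * b, ?_⟩
    rw [mul_pow, map_mul]
    linear_combination y ^ p * ha + σ x * hb

/-- Every nonzero element of a number field is a quotient of two integers generating an ideal
prime to `p`. -/
theorem bogCyc_rep (E : Type) [Field E] [NumberField E] (p : ℕ) (hp : p.Prime) (a : E) (ha : a ≠ 0) :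
    ∃ u v : 𝓞 E, u ≠ 0 ∧ v ≠ 0 ∧ a = (v : E) / (u : E) ∧
      IsCoprime (Ideal.span {u, v}) (Ideal.span {(p : 𝓞 E)}) := by
  obtain ⟨v₀, u₀, hu₀, hav⟩ := IsFractionRing.div_surjective (A := 𝓞 E) a
  have hu0 : u₀ ≠ 0 := nonZeroDivisors.ne_zero hu₀
  have hv0 : v₀ ≠ 0 := by
    rintro rfl
    rw [map_zero, zero_div] at hav
    exact ha hav.symm
  set I₀ : Ideal (𝓞 E) := Ideal.span {u₀, v₀} with hI₀
  have hu₀I : u₀ ∈ I₀ := Ideal.subset_span (by simp)
  have hv₀I : v₀ ∈ I₀ := Ideal.subset_span (by simp)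
  have hdvd : I₀ ∣ Ideal.span {u₀} := by
    rw [Ideal.dvd_iff_le, Ideal.span_singleton_le_iff_mem]
    exact hu₀I
  obtain ⟨J, hJ⟩ := hdvd
  have hJ0 : J ≠ ⊥ := by
    rintro rfl
    rw [Ideal.mul_bot, Ideal.span_singleton_eq_bot] at hJ
    exact hu0 hJ
  have hp0 : (p : 𝓞 E) ≠ 0 := by exact_mod_cast hp.ne_zero
  have hpJ0 : Ideal.span {(p : 𝓞 E)} * J ≠ 0 := by
    refine mul_ne_zero ?_ hJ0
    intro h
    exact hp0 (Ideal.span_singleton_eq_bot.1 h)
  obtain ⟨h, hh⟩ := IsDedekindDomain.exists_sup_span_eq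
    (Ideal.mul_le_right : Ideal.span {(p : 𝓞 E)} * J ≤ J) hpJ0
  have hhJ : h ∈ J := by
    rw [← hh]
    exact Ideal.mem_sup_right (Ideal.mem_span_singleton_self h)
  have hdiv : ∀ x ∈ I₀, ∃ y, h * x = u₀ * y := by
    intro x hx
    have h2 : x * h ∈ I₀ * J := Ideal.mul_mem_mul hx hhJ
    rw [← hJ, Ideal.mem_span_singleton] at h2
    obtain ⟨y, hy⟩ := h2
    exact ⟨y, by rw [mul_comm, hy]⟩
  obtain ⟨u, hu⟩ := hdiv u₀ hu₀I
  obtain ⟨v, hv⟩ := hdiv v₀ hv₀I
  have hh0 : h ≠ 0 := by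
    rintro rfl
    have h3 : Ideal.span {(p : 𝓞 E)} * J = J := by
      simpa using hh
    have h4 : Ideal.span {(p : 𝓞 E)} = 1 := by
      have h5 : Ideal.span {(p : 𝓞 E)} * J = 1 * J := by rw [h3, one_mul]
      exact mul_right_cancel₀ hJ0 h5
    rw [Ideal.one_eq_top, Ideal.span_singleton_eq_top] at h4
    have h6 := congrArg Ideal.absNorm ((Ideal.span_singleton_eq_top.2 h4))
    rw [Ideal.absNorm_span_natCast, Ideal.absNorm_top] at h6
    have h7 : Module.finrank ℤ (𝓞 E) ≠ 0 := by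
      rw [RingOfIntegers.rank]
      exact Module.finrank_pos.ne'
    rcases Nat.pow_eq_one.1 h6 with h8 | h8
    · exact hp.one_lt.ne' h8
    · exact h7 h8
  have huh : u = h := by
    have : u₀ * u = u₀ * h := by rw [← hu, mul_comm]
    exact mul_left_cancel₀ hu0 this
  have hv0' : v ≠ 0 := by
    rintro rfl
    rw [mul_zero] at hv
    exact (mul_ne_zero hh0 hv0) hv
  refine ⟨u, v, by rw [huh]; exact hh0, hv0', ?_, ?_⟩
  · rw [← hav]
    have h8 : (u₀ : E) ≠ 0 := by exact_mod_cast hu0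
    have h9 : (u : E) ≠ 0 := by rw [huh]; exact_mod_cast hh0
    show (v₀ : E) / (u₀ : E) = (v : E) / (u : E)
    rw [div_eq_div_iff h8 h9, huh]
    have h10 : (h : E) * (v₀ : E) = (u₀ : E) * (v : E) := by exact_mod_cast congrArg (fun z : 𝓞 E => (z : E)) hv
    linear_combination h10
  · -- `(u, v) J = (h)`
    have e1 : Ideal.span {u₀} * (Ideal.span {u, v} * J) = Ideal.span {u₀} * Ideal.span {h} := by
      rw [← mul_assoc]
      have e2 : Ideal.span {u₀} * Ideal.span {u, v} = Ideal.span {h} * I₀ := by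
        rw [hI₀, Ideal.span_insert u, Ideal.span_insert u₀, Ideal.mul_sup, Ideal.mul_sup,
          Ideal.span_singleton_mul_span_singleton, Ideal.span_singleton_mul_span_singleton,
          Ideal.span_singleton_mul_span_singleton, Ideal.span_singleton_mul_span_singleton,
          hu, hv]
      rw [e2, mul_assoc, ← hJ, mul_comm]
    have e3 : Ideal.span {u, v} * J = Ideal.span {h} := by
      refine mul_left_cancel₀ (?_ : Ideal.span {u₀} ≠ 0) e1
      intro h0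
      exact hu0 (Ideal.span_singleton_eq_bot.1 h0)
    rw [Ideal.isCoprime_iff_add]
    refine mul_right_cancel₀ (b := J) hJ0 ?_
    rw [add_mul, one_mul, e3, Ideal.add_eq_sup, sup_comm]
    exact hh

theorem bogCyc_absNorm_map (E : Type) [Field E] [NumberField E] (σ : 𝓞 E ≃+* 𝓞 E)
    (I : Ideal (𝓞 E)) : Ideal.absNorm (I.map σ) = Ideal.absNorm I := by
  have h := Ideal.relNorm_map_algEquiv (R := ℤ) σ.toIntAlgEquiv I
  rw [Ideal.relNorm_int, Ideal.relNorm_int, Ideal.span_singleton_eq_span_singleton] at h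
  have h2 := Int.associated_iff_natAbs.1 h
  rw [Int.natAbs_natCast, Int.natAbs_natCast] at h2
  exact h2

theorem bogCyc_prod_comp (E : Type) [Field E] [NumberField E] (s : E ≃+* E)
    (f : (E →+* ℂ) → ℝ) : ∏ τ : E →+* ℂ, f (τ.comp (s : E →+* E)) = ∏ τ : E →+* ℂ, f τ := by
  refine Fintype.prod_equiv ⟨fun τ => τ.comp (s : E →+* E), fun τ => τ.comp (s.symm : E →+* E),
    fun τ => ?_, fun τ => ?_⟩ _ _ (fun τ => rfl)
  · ext x; simp
  · ext x; simp

/-- The main estimate. -/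
theorem bogCyc_main (E : Type) [Field E] [NumberField E] (p : ℕ) (_hp : p.Prime) (s : E ≃+* E)
    (hs : ∀ y : 𝓞 E, (p : 𝓞 E) ∣ y ^ p - RingOfIntegers.mapRingEquiv s y)
    (u v : 𝓞 E) (hu : u ≠ 0)
    (hcop : IsCoprime (Ideal.span {u, v}) (Ideal.span {(p : 𝓞 E)}))
    (hδ : v ^ (p ^ 2) * (RingOfIntegers.mapRingEquiv s u) ^ p
      - (RingOfIntegers.mapRingEquiv s v) ^ p * u ^ (p ^ 2) ≠ 0) :
    ((p : ℝ) ^ 2) ^ Module.finrank ℚ E ≤
      2 ^ Module.finrank ℚ E * Height.mulHeight₁ ((v : E) / (u : E)) ^ (p ^ 2 + p) := by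
  set σ : 𝓞 E ≃+* 𝓞 E := RingOfIntegers.mapRingEquiv s with hσ
  set n := Module.finrank ℚ E with hn
  set I : Ideal (𝓞 E) := Ideal.span {u, v} with hI
  have huI : u ∈ I := Ideal.subset_span (by simp)
  have hvI : v ∈ I := Ideal.subset_span (by simp)
  set δ : 𝓞 E := v ^ (p ^ 2) * (σ u) ^ p - (σ v) ^ p * u ^ (p ^ 2) with hδdef
  have hI0 : I ≠ ⊥ := by
    intro h0
    rw [h0] at huI
    exact hu (by simpa using huI)
  -- divisibility by `p ^ 2`
  have hp2 : ∀ y : 𝓞 E, ((p : 𝓞 E) ^ 2) ∣ y ^ (p ^ 2) - (σ y) ^ p := by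
    intro y
    have h1 := dvd_sub_pow_of_dvd_sub (hs y) 1
    rw [pow_one, ← pow_mul, ← pow_two] at h1
    exact h1
  have hδ2 : ((p : 𝓞 E) ^ 2) ∣ δ := by
    obtain ⟨c, hc⟩ := hp2 v
    obtain ⟨d, hd⟩ := hp2 u
    refine ⟨c * (σ u) ^ p - (σ v) ^ p * d, ?_⟩
    rw [hδdef]
    linear_combination (σ u) ^ p * hc - (σ v) ^ p * hd
  -- membership in the ideal
  set I' : Ideal (𝓞 E) := I ^ (p ^ 2) * (I.map σ) ^ p with hI'
  have hδI : δ ∈ I' := by
    rw [hδdef]
    refine Ideal.sub_mem _ ?_ ?_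
    · exact Ideal.mul_mem_mul (Ideal.pow_mem_pow hvI _)
        (Ideal.pow_mem_pow (Ideal.mem_map_of_mem σ huI) _)
    · rw [mul_comm]
      exact Ideal.mul_mem_mul (Ideal.pow_mem_pow huI _)
        (Ideal.pow_mem_pow (Ideal.mem_map_of_mem σ hvI) _)
  have hcopσ : IsCoprime (I.map σ) (Ideal.span {(p : 𝓞 E)}) := by
    rw [Ideal.isCoprime_iff_sup_eq] at hcop ⊢
    have h1 := congrArg (Ideal.map σ) hcop
    have h2 : (Ideal.span {(p : 𝓞 E)}).map σ = Ideal.span {(p : 𝓞 E)} := by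
      rw [Ideal.map_span, Set.image_singleton, map_natCast]
    rw [Ideal.map_sup, h2, Ideal.map_top] at h1
    exact h1
  have hcop' : IsCoprime (Ideal.span {(p : 𝓞 E)} ^ 2) I' := by
    rw [hI']
    exact (IsCoprime.mul_left (hcop.pow_left) (hcopσ.pow_left)).symm.pow_left
  have hmem : δ ∈ Ideal.span {(p : 𝓞 E)} ^ 2 * I' := by
    rw [Ideal.mul_eq_inf_of_isCoprime hcop']
    refine ⟨?_, hδI⟩
    rw [Ideal.span_singleton_pow]
    exact Ideal.mem_span_singleton.2 hδ2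
  have hlow := absNorm_le_prod E _ δ hmem hδ
  have hN : (Ideal.absNorm (Ideal.span {(p : 𝓞 E)} ^ 2 * I') : ℝ) =
      ((p : ℝ) ^ 2) ^ n * (Ideal.absNorm I : ℝ) ^ (p ^ 2 + p) := by
    rw [map_mul, map_pow, Ideal.absNorm_span_natCast, hI', map_mul, map_pow, map_pow,
      bogCyc_absNorm_map, RingOfIntegers.rank]
    push_cast
    rw [← pow_add, ← pow_mul, ← pow_mul, mul_comm 2]
  rw [hN] at hlow
  -- the upper bound
  set m : (E →+* ℂ) → ℝ := fun τ => max ‖τ (u : E)‖ ‖τ (v : E)‖ with hm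
  have hH : Height.mulHeight₁ ((v : E) / (u : E)) * (Ideal.absNorm I : ℝ) = ∏ τ, m τ :=
    height_mul_absNorm E u v hu
  have hm0 : ∀ τ, 0 ≤ m τ := fun τ => le_max_of_le_left (norm_nonneg _)
  have hup : ∏ τ : E →+* ℂ, ‖τ (δ : E)‖ ≤
      ∏ τ : E →+* ℂ, (2 * (m τ ^ (p ^ 2) * m (τ.comp (s : E →+* E)) ^ p)) := by
    refine Finset.prod_le_prod (fun τ _ => norm_nonneg _) (fun τ _ => ?_)
    have e1 : τ (δ : E) = τ v ^ (p ^ 2) * (τ.comp (s : E →+* E)) u ^ p
        - (τ.comp (s : E →+* E)) v ^ p * τ u ^ (p ^ 2) := by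
      rw [hδdef]
      simp [hσ]
    rw [e1]
    have b1 : ‖τ (v : E)‖ ≤ m τ := le_max_right _ _
    have b2 : ‖τ (u : E)‖ ≤ m τ := le_max_left _ _
    have b3 : ‖(τ.comp (s : E →+* E)) (v : E)‖ ≤ m (τ.comp (s : E →+* E)) := le_max_right _ _
    have b4 : ‖(τ.comp (s : E →+* E)) (u : E)‖ ≤ m (τ.comp (s : E →+* E)) := le_max_left _ _
    have c0 := hm0 τ
    have c1 := hm0 (τ.comp (s : E →+* E))
    calc ‖τ v ^ (p ^ 2) * (τ.comp (s : E →+* E)) u ^ p
        - (τ.comp (s : E →+* E)) v ^ p * τ u ^ (p ^ 2)‖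
        ≤ ‖τ v‖ ^ (p ^ 2) * ‖(τ.comp (s : E →+* E)) u‖ ^ p
          + ‖(τ.comp (s : E →+* E)) v‖ ^ p * ‖τ u‖ ^ (p ^ 2) := by
          refine (norm_sub_le _ _).trans (le_of_eq ?_)
          rw [norm_mul, norm_mul, norm_pow, norm_pow, norm_pow, norm_pow]
      _ ≤ m τ ^ (p ^ 2) * m (τ.comp (s : E →+* E)) ^ p
          + m (τ.comp (s : E →+* E)) ^ p * m τ ^ (p ^ 2) := by gcongr
      _ = 2 * (m τ ^ (p ^ 2) * m (τ.comp (s : E →+* E)) ^ p) := by ring
  have hprod : ∏ τ : E →+* ℂ, (2 * (m τ ^ (p ^ 2) * m (τ.comp (s : E →+* E)) ^ p)) =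
      2 ^ n * (∏ τ, m τ) ^ (p ^ 2 + p) := by
    rw [Finset.prod_mul_distrib, Finset.prod_mul_distrib, Finset.prod_pow, Finset.prod_pow,
      bogCyc_prod_comp E s m, Finset.prod_const, Finset.card_univ, NumberField.Embeddings.card,
      pow_add]
  rw [hprod, ← hH] at hup
  have hNpos : (0 : ℝ) < (Ideal.absNorm I : ℝ) := by
    have : Ideal.absNorm I ≠ 0 := fun h0 => hI0 (Ideal.absNorm_eq_zero_iff.1 h0)
    exact_mod_cast Nat.pos_of_ne_zero this
  have h7 := hlow.trans hup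
  rw [mul_pow, ← mul_assoc] at h7
  exact le_of_mul_le_mul_right h7 (by positivity)

/-- heights are invariant under automorphisms -/
theorem bogCyc_height_map (E : Type) [Field E] [NumberField E] (s : E ≃+* E) (u v : 𝓞 E)
    (hu : u ≠ 0) : Height.mulHeight₁ (s ((v : E) / (u : E))) =
      Height.mulHeight₁ ((v : E) / (u : E)) := by
  have h1 := height_mul_absNorm E u v hu
  have hu' : RingOfIntegers.mapRingEquiv s u ≠ 0 := by
    simpa using hu
  have h2 := height_mul_absNorm E (RingOfIntegers.mapRingEquiv s u)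
    (RingOfIntegers.mapRingEquiv s v) hu'
  have h3 : Ideal.span {RingOfIntegers.mapRingEquiv s u, RingOfIntegers.mapRingEquiv s v} =
      (Ideal.span {u, v}).map (RingOfIntegers.mapRingEquiv s) := by
    rw [Ideal.map_span, Set.image_pair]
  rw [h3, bogCyc_absNorm_map] at h2
  have h4 : ∏ τ : E →+* ℂ, max ‖τ ((RingOfIntegers.mapRingEquiv s u : 𝓞 E) : E)‖
      ‖τ ((RingOfIntegers.mapRingEquiv s v : 𝓞 E) : E)‖ =
      ∏ τ : E →+* ℂ, max ‖τ (u : E)‖ ‖τ (v : E)‖ :=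
    bogCyc_prod_comp E s (fun τ => max ‖τ (u : E)‖ ‖τ (v : E)‖)
  rw [h4, ← h1] at h2
  have hNpos : (Ideal.absNorm (Ideal.span {u, v}) : ℝ) ≠ 0 := by
    have : Ideal.absNorm (Ideal.span {u, v}) ≠ 0 := by
      intro h0
      have h5 := Ideal.absNorm_eq_zero_iff.1 h0
      have h6 : u ∈ Ideal.span {u, v} := Ideal.subset_span (by simp)
      rw [h5] at h6
      exact hu (by simpa using h6)
    exact_mod_cast this
  have h8 := mul_right_cancel₀ hNpos h2
  rw [map_div₀]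
  exact h8

theorem bogCyc (E : Type) [Field E] [NumberField E] (M p : ℕ) (hM : 1 ≤ M) (hp : p.Prime)
    (hpM : ¬ p ∣ M) [IsCyclotomicExtension {M} ℚ E] (a : E) (ha : a ≠ 0)
    (htors : ∀ n : ℕ, 1 ≤ n → a ^ n ≠ 1) :
    Real.log ((p : ℝ) ^ 2 / 2) / ((p : ℝ) ^ 2 + p) * Module.finrank ℚ E
      ≤ Height.logHeight₁ a := by
  obtain ⟨s, hs⟩ := bogCyc_frob E M p hM hp hpM
  obtain ⟨u, v, hu, hv, hav, hcop⟩ := bogCyc_rep E p hp a ha
  have hp1 : (2 : ℝ) ≤ p := by exact_mod_cast hp.two_le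
  have hden : (0 : ℝ) < (p : ℝ) ^ 2 + p := by positivity
  by_cases hδ : v ^ (p ^ 2) * (RingOfIntegers.mapRingEquiv s u) ^ p
      - (RingOfIntegers.mapRingEquiv s v) ^ p * u ^ (p ^ 2) = 0
  · exfalso
    have hue : (u : E) ≠ 0 := by exact_mod_cast hu
    have hsue : s (u : E) ≠ 0 := by simpa using hue
    have h1 : (v : E) ^ (p ^ 2) * (s (u : E)) ^ p = (s (v : E)) ^ p * (u : E) ^ (p ^ 2) := by
      have h2 := congrArg (fun z : 𝓞 E => (z : E)) (sub_eq_zero.1 hδ)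
      simpa using h2
    have h3 : a ^ (p ^ 2) = (s a) ^ p := by
      rw [hav, map_div₀, div_pow, div_pow, div_eq_div_iff (pow_ne_zero _ hue) (pow_ne_zero _ hsue)]
      exact h1
    have h4 : Height.logHeight₁ (s a) = Height.logHeight₁ a := by
      rw [Height.logHeight₁_eq_log_mulHeight₁, Height.logHeight₁_eq_log_mulHeight₁, hav,
        bogCyc_height_map E s u v hu]
    have h5 := congrArg Height.logHeight₁ h3
    rw [Height.logHeight₁_pow, Height.logHeight₁_pow, h4] at h5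
    push_cast at h5
    have h6 : Height.logHeight₁ a = 0 := by
      have h7 : ((p : ℝ) ^ 2 - p) * Height.logHeight₁ a = 0 := by linarith
      rcases mul_eq_zero.1 h7 with h8 | h8
      · exfalso; nlinarith
      · exact h8
    obtain ⟨κ, hκ, hκ2⟩ := bogNF E
    have h9 := hκ2 a ha htors
    rw [h6] at h9
    have h10 : (0 : ℝ) < Module.finrank ℚ E := by exact_mod_cast Module.finrank_pos
    have : 0 < κ * Module.finrank ℚ E := by positivity
    linarith
  · have h1 := bogCyc_main E p hp s hs u v hu hcop hδ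
    rw [← hav] at h1
    have hH1 : 0 < Height.mulHeight₁ a := Height.mulHeight₁_pos a
    have h2 := Real.log_le_log (by positivity) h1
    rw [Real.log_mul (by positivity) (by positivity), Real.log_pow ((p : ℝ) ^ 2),
      Real.log_pow (2 : ℝ), Real.log_pow (Height.mulHeight₁ a)] at h2
    rw [Height.logHeight₁_eq_log_mulHeight₁, div_mul_eq_mul_div, div_le_iff₀ hden,
      Real.log_div (by positivity) (by norm_num)]
    push_cast at h2
    linarith [h2]

end Pool.Agent.H4.RR
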