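import Mathlib

/-!
# Module HeightIdeal (MP_187c26_nt, real radical towers)

`H_F(V/U) * N((U,V)) = ∏_σ max(|σ U|, |σ V|)` for integers `U ≠ 0`, `V` of a number field.

Proof: `Height.mulHeight₁_div_eq_mulHeight` gives `mulHeight ![V, U]`; `NumberField.mulHeight_eq`
writes it as the archimedean product `∏_v (⨆ i, v (x i))^v.mult` times the finite part, and
`NumberField.absNorm_mul_finprod_finitePlace_eq_one` says `absNorm (span (range x)) * finite part = 1`
(`x = ![V, U] : Fin 2 → 𝓞 F`, `Set.range = {V, U}`). Turn the product over infinite places with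
multiplicities into the product over embeddings: the fibre of `InfinitePlace.mk` over `v` has
`v.mult` elements (`NumberField.InfinitePlace.card_filter_mk_eq`, `Finset.prod_fiberwise`,
`Finset.prod_const`), and `v (x) = ‖σ x‖` for `mk σ = v` (`InfinitePlace.apply`).
`⨆ i : Fin 2` of two reals is the max.

Second statement: for a nonzero element `a` of a nonzero ideal `I`, `N(I) ≤ ∏_τ |τ a|`
(`Ideal.absNorm_dvd_norm_of_mem`, `Algebra.norm_eq_prod_embeddings`, `Int.le_of_dvd`,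
`Algebra.coe_norm_int`).

Third statement: comparison of norms for an inclusion (`Ideal.absNorm_dvd_absNorm_of_le`).
-/

set_option autoImplicit false

open NumberField

namespace Pool.Agent.H4.RR

theorem iSup_fin_two_real (f : Fin 2 → ℝ) : (⨆ i, f i) = max (f 0) (f 1) :=
  eq_of_forall_ge_iff <| by simp [ciSup_le_iff, Fin.forall_fin_two]

theorem height_mul_absNorm (F : Type) [Field F] [NumberField F] (U V : 𝓞 F) (hU : U ≠ 0) :
    Height.mulHeight₁ ((V : F) / (U : F)) * (Ideal.absNorm (Ideal.span {U, V}) : ℝ)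
      = ∏ σ : F →+* ℂ, max ‖σ (U : F)‖ ‖σ (V : F)‖ := by
  classical
  have hx : (![V, U] : Fin 2 → 𝓞 F) ≠ 0 := by simp [hU]
  have hv : ∀ i : Fin 2, ((![V, U] i : 𝓞 F) : F) = ![(V : F), (U : F)] i := by
    intro i
    fin_cases i <;> rfl
  have hxF : (![(V : F), (U : F)] : Fin 2 → F) ≠ 0 := by
    intro h
    have h1 := congrFun h 1
    have h2 : (U : F) = 0 := by simpa using h1
    exact hU (by exact_mod_cast h2)
  rw [Height.mulHeight₁_div_eq_mulHeight, NumberField.mulHeight_eq hxF]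
  have h1 := NumberField.absNorm_mul_finprod_finitePlace_eq_one hx
  have hr : Set.range (![V, U] : Fin 2 → 𝓞 F) = {U, V} := by
    ext z
    simp [eq_comm]
  rw [hr] at h1
  simp only [hv] at h1
  rw [mul_assoc, mul_comm (∏ᶠ v : FinitePlace F, _), h1, mul_one]
  rw [← Finset.prod_fiberwise (s := (Finset.univ : Finset (F →+* ℂ)))
    (g := fun σ => InfinitePlace.mk σ) (f := fun σ => max ‖σ (U : F)‖ ‖σ (V : F)‖)]
  refine Finset.prod_congr rfl fun v _ => ?_
  have h2 : ∀ σ ∈ (Finset.univ.filter fun σ : F →+* ℂ => InfinitePlace.mk σ = v),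
      max ‖σ (U : F)‖ ‖σ (V : F)‖ = max (v (U : F)) (v (V : F)) := by
    intro σ hσ
    rw [Finset.mem_filter] at hσ
    rw [← hσ.2, InfinitePlace.apply, InfinitePlace.apply]
  rw [Finset.prod_congr rfl h2, Finset.prod_const, InfinitePlace.card_filter_mk_eq,
    iSup_fin_two_real, max_comm]
  rfl

theorem absNorm_le_prod (K : Type) [Field K] [NumberField K] (I : Ideal (𝓞 K)) (a : 𝓞 K)
    (ha : a ∈ I) (ha0 : a ≠ 0) :
    (Ideal.absNorm I : ℝ) ≤ ∏ τ : K →+* ℂ, ‖τ (a : K)‖ := by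
  have h1 := Ideal.absNorm_dvd_norm_of_mem ha
  have h2 : Algebra.norm ℤ a ≠ 0 := Algebra.norm_ne_zero_iff.2 ha0
  have h3 : (Ideal.absNorm I : ℤ) ≤ |Algebra.norm ℤ a| :=
    Int.le_of_dvd (abs_pos.2 h2) ((dvd_abs _ _).2 h1)
  have h4 : (Ideal.absNorm I : ℝ) ≤ |((Algebra.norm ℤ a : ℤ) : ℝ)| := by exact_mod_cast h3
  refine h4.trans (le_of_eq ?_)
  have h5 : (((Algebra.norm ℤ a : ℤ) : ℚ) : ℂ) = ∏ τ : K →ₐ[ℚ] ℂ, τ (a : K) := by
    rw [Algebra.coe_norm_int]
    exact Algebra.norm_eq_prod_embeddings ℚ ℂ (a : K)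
  have h6 : |((Algebra.norm ℤ a : ℤ) : ℝ)| = ‖(((Algebra.norm ℤ a : ℤ) : ℚ) : ℂ)‖ := by
    push_cast
    rw [Complex.norm_intCast]
  rw [h6, h5, norm_prod]
  exact (Fintype.prod_equiv (RingHom.equivRatAlgHom K ℂ) (fun τ : K →+* ℂ => ‖τ (a : K)‖)
    (fun τ : K →ₐ[ℚ] ℂ => ‖τ (a : K)‖) (fun τ => rfl)).symm

theorem absNorm_le_of_le (K : Type) [Field K] [NumberField K] (I J : Ideal (𝓞 K)) (h : I ≤ J)
    (hI : I ≠ ⊥) : (Ideal.absNorm J : ℝ) ≤ Ideal.absNorm I := by
  have h1 := Ideal.absNorm_dvd_absNorm_of_le h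
  have h2 : Ideal.absNorm I ≠ 0 := fun h0 => hI (Ideal.absNorm_eq_zero_iff.1 h0)
  exact_mod_cast Nat.le_of_dvd (Nat.pos_of_ne_zero h2) h1

end Pool.Agent.H4.RR
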