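import Mathlib
import Pool.Agent.H4.RR.HeightIdeal

/-!
# Module AbsHeight (MP_187c26_nt, real radical towers)

The absolute logarithmic height does not depend on the number field used to compute it.

Proof. (1) For `Algebra E F`, `a : E`: `mulHeight₁ (algebraMap E F a) = mulHeight₁ a ^ finrank E F`.
Write `a = v/u` with `u ≠ 0`, `v` in `𝓞 E`. As in module HeightIdeal (`height_mul_absNorm`, which you
may import from `Pool.Agent.H4.RR.HeightIdeal`): `H_F(v/u) N_F((u,v)𝓞_F) = ∏_σ max(|σu|,|σv|)`
over embeddings of `F`; each embedding of `E` has exactly `[F:E]` extensions to `F`, so the right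
side is `(∏_τ max(|τu|,|τv|))^[F:E]`; and `N_F(I 𝓞_F) = N_E(I)^[F:E]` (`Ideal.absNorm_algebraMap`).
(Counting extensions: `AlgHom.card`/`Field.finSepDegree`, e.g. `F →ₐ[E] ℂ` for the algebra structure
on `ℂ` given by `τ`.)
(2) Invariance under field isomorphisms `E ≃+* E'` (special case of (1) with `finrank = 1`).
(3) For `ι : E →+* Ω` and `a : E`: `ℚ⟮ι a⟯` is isomorphic to `ℚ⟮a⟯ ≤ E` (both are adjoin-simple with
the same minimal polynomial, or `IntermediateField.map`), and `absMulHeight₁` is defined by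
`mulHeight₁ (gen) ^ (1/degree)`; combine with (1) for `ℚ⟮a⟯ ⊆ E` and
`finrank ℚ E = finrank ℚ ℚ⟮a⟯ * finrank ℚ⟮a⟯ E`. One can avoid isomorphisms: `ℚ⟮ι a⟯ ≤ Ω` lies in
the field range of `ι`, so lift it to a ring hom `ℚ⟮ι a⟯ →+* E` making `E` an algebra over it, with
generator mapping to `a`, and use (1) directly.

The height is conjugation invariant (`absLogHeight_eq_of_minpoly_eq`): elements with the same
minimal polynomial over `ℚ` have the same absolute height (isomorphism `ℚ⟮α⟯ ≃ ℚ⟮β⟯` sending
generator to generator, `IntermediateField.adjoinRootEquivAdjoin`, `minpoly.algEquiv`).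

Product inequality: `absLogHeight₁` of a product over a multiset is at most the sum
(pass to a number field containing all the factors and use `Height.logHeight₁_mul_le`; note
the height of `0` and of `1` is `0`). All elements are algebraic.
-/

set_option autoImplicit false

open NumberField

namespace Pool.Agent.H4.RR

open Classical in
theorem card_fiber_comp (E F : Type) [Field E] [NumberField E] [Field F] [NumberField F]
    [Algebra E F] (τ : E →+* ℂ) :
    (Finset.univ.filter fun σ : F →+* ℂ => σ.comp (algebraMap E F) = τ).card =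
      Module.finrank E F := by
  let : Algebra E ℂ := τ.toAlgebra
  have h1 : Fintype.card (F →ₐ[E] ℂ) = Module.finrank E F := AlgHom.card E F ℂ
  rw [← h1, ← Fintype.card_coe]
  refine Fintype.card_congr ⟨fun σ => ⟨σ.1, fun r => ?_⟩, fun σ => ⟨σ.toRingHom, ?_⟩,
    fun σ => rfl, fun σ => rfl⟩
  · have h2 : σ.1.comp (algebraMap E F) = τ := (Finset.mem_filter.1 σ.2).2
    exact congrArg (fun g : E →+* ℂ => g r) h2
  · rw [Finset.mem_filter]
    refine ⟨Finset.mem_univ _, ?_⟩
    ext r
    exact σ.commutes r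

theorem prod_comp_embeddings (E F : Type) [Field E] [NumberField E] [Field F] [NumberField F]
    [Algebra E F] (f : (E →+* ℂ) → ℝ) :
    ∏ σ : F →+* ℂ, f (σ.comp (algebraMap E F)) = (∏ τ : E →+* ℂ, f τ) ^ Module.finrank E F := by
  classical
  rw [← Finset.prod_fiberwise (s := (Finset.univ : Finset (F →+* ℂ)))
    (g := fun σ => σ.comp (algebraMap E F)), ← Finset.prod_pow]
  refine Finset.prod_congr rfl fun τ _ => ?_
  have h2 : ∀ σ ∈ (Finset.univ.filter fun σ : F →+* ℂ => σ.comp (algebraMap E F) = τ),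
      f (σ.comp (algebraMap E F)) = f τ := by
    intro σ hσ
    rw [(Finset.mem_filter.1 hσ).2]
  rw [Finset.prod_congr rfl h2, Finset.prod_const]
  exact congrArg (fun n => f τ ^ n) (card_fiber_comp E F τ)

theorem mulHeight₁_algebraMap (E F : Type) [Field E] [NumberField E] [Field F] [NumberField F]
    [Algebra E F] (a : E) :
    Height.mulHeight₁ (algebraMap E F a) = Height.mulHeight₁ a ^ Module.finrank E F := by
  obtain ⟨V, U, hU, rfl⟩ := IsFractionRing.div_surjective (A := 𝓞 E) a
  have hU0 : U ≠ 0 := nonZeroDivisors.ne_zero hU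
  have hU1 : algebraMap (𝓞 E) (𝓞 F) U ≠ 0 := by
    intro h
    exact hU0 (FaithfulSMul.algebraMap_injective (𝓞 E) (𝓞 F) (by rw [h, map_zero]))
  have h1 := height_mul_absNorm E U V hU0
  have h2 := height_mul_absNorm F (algebraMap (𝓞 E) (𝓞 F) U) (algebraMap (𝓞 E) (𝓞 F) V) hU1
  have hI : Ideal.span {algebraMap (𝓞 E) (𝓞 F) U, algebraMap (𝓞 E) (𝓞 F) V} =
      (Ideal.span {U, V}).map (algebraMap (𝓞 E) (𝓞 F)) := by
    rw [Ideal.map_span, Set.image_pair]
  have hfr : Module.finrank (𝓞 E) (𝓞 F) = Module.finrank E F :=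
    (IsFractionRing.finrank_eq (𝓞 E) E (𝓞 F) F).symm
  have h3 : (Ideal.absNorm ((Ideal.span {U, V}).map (algebraMap (𝓞 E) (𝓞 F))) : ℝ) =
      (Ideal.absNorm (Ideal.span {U, V}) : ℝ) ^ Module.finrank E F := by
    rw [Ideal.absNorm_algebraMap]
    push_cast
    rw [hfr]
  have h4 := prod_comp_embeddings E F (fun τ => max ‖τ (U : E)‖ ‖τ (V : E)‖)
  rw [hI, h3] at h2
  have h5 : ∏ σ : F →+* ℂ, max ‖σ ((algebraMap (𝓞 E) (𝓞 F) U : 𝓞 F) : F)‖
      ‖σ ((algebraMap (𝓞 E) (𝓞 F) V : 𝓞 F) : F)‖ =
      ∏ σ : F →+* ℂ, max ‖(σ.comp (algebraMap E F)) (U : E)‖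
        ‖(σ.comp (algebraMap E F)) (V : E)‖ := rfl
  rw [h5, h4, ← h1, mul_pow] at h2
  have h6 : (Ideal.absNorm (Ideal.span {U, V}) : ℝ) ^ Module.finrank E F ≠ 0 := by
    apply pow_ne_zero
    rw [Nat.cast_ne_zero, Ne, Ideal.absNorm_eq_zero_iff]
    intro h
    have : U ∈ Ideal.span {U, V} := Ideal.subset_span (by simp)
    rw [h] at this
    exact hU0 (by simpa using this)
  have h7 := mul_right_cancel₀ h6 h2
  rw [← h7]
  congr 1
  rw [map_div₀]
  rfl

theorem absLogHeight_eq (E Ω : Type) [Field E] [NumberField E] [Field Ω] [CharZero Ω]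
    (ι : E →+* Ω) (a : E) :
    absLogHeight₁ (ι a) = Height.logHeight₁ a / Module.finrank ℚ E := by
  classical
  have hint : IsIntegral ℚ (ι a) := (Algebra.IsIntegral.isIntegral (R := ℚ) a).map ι.toRatAlgHom
  have : FiniteDimensional ℚ (IntermediateField.adjoin ℚ {ι a}) :=
    IntermediateField.adjoin.finiteDimensional hint
  have : NumberField (IntermediateField.adjoin ℚ {ι a}) := {}
  set L := IntermediateField.adjoin ℚ {ι a} with hL
  have hle : L ≤ ι.toRatAlgHom.fieldRange := by
    rw [hL, IntermediateField.adjoin_simple_le_iff]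
    exact ⟨a, rfl⟩
  let e := AlgEquiv.ofInjectiveField ι.toRatAlgHom
  let ψ : L →+* E := (e.symm.toAlgHom.comp (IntermediateField.inclusion hle)).toRingHom
  have hψ : ∀ z : L, ι (ψ z) = (z : Ω) := by
    intro z
    have h1 : e (e.symm (IntermediateField.inclusion hle z)) = IntermediateField.inclusion hle z :=
      e.apply_symm_apply _
    exact congrArg Subtype.val h1
  have hgen : ψ (IntermediateField.AdjoinSimple.gen ℚ (ι a)) = a := by
    apply ι.injective
    rw [hψ]
    rfl
  let : Algebra L E := ψ.toAlgebra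
  have h2 := mulHeight₁_algebraMap L E (IntermediateField.AdjoinSimple.gen ℚ (ι a))
  have h3 : algebraMap L E (IntermediateField.AdjoinSimple.gen ℚ (ι a)) = a := hgen
  rw [h3] at h2
  have h4 : Module.finrank ℚ L * Module.finrank L E = Module.finrank ℚ E :=
    Module.finrank_mul_finrank ℚ L E
  have h5 : absMulHeight₁ (ι a) =
      (Height.mulHeight₁ (IntermediateField.AdjoinSimple.gen ℚ (ι a))) ^
        (Module.finrank ℚ L : ℝ)⁻¹ := by
    unfold absMulHeight₁
    rw [dif_pos hint]
  have hpos := Height.mulHeight₁_pos (IntermediateField.AdjoinSimple.gen ℚ (ι a))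
  rw [absLogHeight₁, h5, Real.log_rpow hpos, Height.logHeight₁_eq_log_mulHeight₁, h2,
    Real.log_pow, ← h4]
  have hL0 : (Module.finrank ℚ L : ℝ) ≠ 0 := by
    exact_mod_cast (Module.finrank_pos (R := ℚ) (M := L)).ne'
  have hE0 : (Module.finrank L E : ℝ) ≠ 0 := by
    have h6 : 0 < Module.finrank ℚ E := Module.finrank_pos
    rw [← h4] at h6
    exact_mod_cast (Nat.pos_of_mul_pos_left h6).ne'
  push_cast
  field_simp

theorem absLogHeight_eq_of_minpoly_eq (Ω : Type) [Field Ω] [CharZero Ω] (a c : Ω)
    (ha : IsIntegral ℚ a) (h : minpoly ℚ a = minpoly ℚ c) :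
    absLogHeight₁ a = absLogHeight₁ c := by
  have : FiniteDimensional ℚ (IntermediateField.adjoin ℚ {a}) :=
    IntermediateField.adjoin.finiteDimensional ha
  have : NumberField (IntermediateField.adjoin ℚ {a}) := {}
  let pb := IntermediateField.adjoin.powerBasis ha
  have hgen : pb.gen = IntermediateField.AdjoinSimple.gen ℚ a :=
    IntermediateField.adjoin.powerBasis_gen ha
  have hroot : Polynomial.aeval c (minpoly ℚ pb.gen) = 0 := by
    have hm : minpoly ℚ (IntermediateField.AdjoinSimple.gen ℚ a) = minpoly ℚ a :=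
      IntermediateField.minpoly_gen ℚ a
    rw [hgen, hm, h]
    exact minpoly.aeval ℚ c
  let f := pb.lift c hroot
  have hf : f pb.gen = c := pb.lift_gen c hroot
  have h1 := absLogHeight_eq (IntermediateField.adjoin ℚ {a}) Ω
    (IntermediateField.val (IntermediateField.adjoin ℚ {a})).toRingHom pb.gen
  have h2 := absLogHeight_eq (IntermediateField.adjoin ℚ {a}) Ω f.toRingHom pb.gen
  have h3 : (IntermediateField.val (IntermediateField.adjoin ℚ {a})).toRingHom pb.gen = a := by
    rw [hgen]
    rfl
  have h4 : f.toRingHom pb.gen = c := hf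
  rw [h3] at h1
  rw [h4] at h2
  rw [h1, h2]

theorem absLogHeight_mul_le (Ω : Type) [Field Ω] [CharZero Ω] (a c : Ω)
    (ha : IsIntegral ℚ a) (hc : IsIntegral ℚ c) :
    absLogHeight₁ (a * c) ≤ absLogHeight₁ a + absLogHeight₁ c := by
  have : FiniteDimensional ℚ (IntermediateField.adjoin ℚ {a, c}) :=
    IntermediateField.finiteDimensional_adjoin fun x hx => by
      rcases hx with rfl | hx
      · exact ha
      · rw [Set.mem_singleton_iff] at hx
        rw [hx]
        exact hc
  have : NumberField (IntermediateField.adjoin ℚ {a, c}) := {}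
  set E := IntermediateField.adjoin ℚ {a, c} with hE
  let a' : E := ⟨a, IntermediateField.subset_adjoin ℚ _ (by simp)⟩
  let c' : E := ⟨c, IntermediateField.subset_adjoin ℚ _ (by simp)⟩
  have h1 := absLogHeight_eq E Ω (IntermediateField.val E).toRingHom a'
  have h2 := absLogHeight_eq E Ω (IntermediateField.val E).toRingHom c'
  have h3 := absLogHeight_eq E Ω (IntermediateField.val E).toRingHom (a' * c')
  have e1 : (IntermediateField.val E).toRingHom a' = a := rfl
  have e2 : (IntermediateField.val E).toRingHom c' = c := rfl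
  have e3 : (IntermediateField.val E).toRingHom (a' * c') = a * c := rfl
  rw [e1] at h1
  rw [e2] at h2
  rw [e3] at h3
  rw [h1, h2, h3, ← add_div]
  exact div_le_div_of_nonneg_right (Height.logHeight₁_mul_le _ _) (Nat.cast_nonneg _)

theorem absLogHeight_pow (Ω : Type) [Field Ω] [CharZero Ω] (a : Ω) (ha : IsIntegral ℚ a)
    (n : ℕ) : absLogHeight₁ (a ^ n) = n * absLogHeight₁ a := by
  have : FiniteDimensional ℚ (IntermediateField.adjoin ℚ {a}) :=
    IntermediateField.adjoin.finiteDimensional ha
  have : NumberField (IntermediateField.adjoin ℚ {a}) := {}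
  let a' := IntermediateField.AdjoinSimple.gen ℚ a
  have h1 := absLogHeight_eq (IntermediateField.adjoin ℚ {a}) Ω
    (IntermediateField.val (IntermediateField.adjoin ℚ {a})).toRingHom a'
  have h2 := absLogHeight_eq (IntermediateField.adjoin ℚ {a}) Ω
    (IntermediateField.val (IntermediateField.adjoin ℚ {a})).toRingHom (a' ^ n)
  have e1 : (IntermediateField.val (IntermediateField.adjoin ℚ {a})).toRingHom a' = a := rfl
  rw [map_pow, e1] at h2
  rw [e1] at h1
  rw [h1, h2, Height.logHeight₁_pow]
  ring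

end Pool.Agent.H4.RR
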