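import Pool.Agent.H4.RR.BogCyc

/-!
# Module KMain (MP_187c26_nt, real radical towers)

The main height estimate from a congruence modulo an ideal. This is a generalisation of
`bogCyc_main` (file `Pool/Agent/H4/RR/BogCyc.lean`; copy its proof): there `𝔞 = (p)`, `Q = p`, `j = 1`.

Proof. For `y ∈ 𝓞 E`: `y^Q - σ y ∈ 𝔞`, hence `y^(Q p^j) - (σ y)^(p^j) ∈ 𝔞^(j+1)` (induction on `j`: if
`a - b ∈ 𝔞^i`, `i ≥ 1`, then `a^p - b^p ∈ 𝔞^(i+1)` because `p ∈ 𝔞` and `p ≥ 2`; use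
`exists_add_pow_prime_eq` or the binomial theorem). Put `I = (u, v)`,
`δ = v^(Q p^j) σ(u)^(p^j) - σ(v)^(p^j) u^(Q p^j) ∈ 𝔞^(j+1) ∩ I'`, `I' = I^(Q p^j) (σ I)^(p^j)`. `I` and
`σ I` are prime to `p`, hence to `𝔞 ∋ p`, so `δ ∈ 𝔞^(j+1) I'`, and
`N(𝔞)^(j+1) N(I)^(Q p^j + p^j) ≤ ∏_τ |τ δ| ≤ 2^n (∏_τ max(|τ u|, |τ v|))^(Q p^j + p^j)`. Divide by the norm
using `height_mul_absNorm`.
-/

set_option autoImplicit false

open NumberField

namespace Pool.Agent.H4.RR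

/-- Raising a congruence modulo `𝔞 ^ i` to the `p`-th power, `p ∈ 𝔞`. -/
theorem kmain_pow_step {R : Type} [CommRing R] (p : ℕ) (hp : p.Prime) (𝔞 : Ideal R)
    (hpa : (p : R) ∈ 𝔞) (i : ℕ) (hi : 1 ≤ i) (a b : R) (h : a - b ∈ 𝔞 ^ i) :
    a ^ p - b ^ p ∈ 𝔞 ^ (i + 1) := by
  obtain ⟨r, hr⟩ := exists_add_pow_prime_eq hp b (a - b)
  rw [add_sub_cancel] at hr
  have e : a ^ p - b ^ p = (a - b) ^ p + ((p : R) * (a - b)) * (b * r) := by
    rw [hr]; ring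
  rw [e]
  refine Ideal.add_mem _ ?_ (Ideal.mul_mem_right _ _ ?_)
  · have h1 : (a - b) ^ p ∈ (𝔞 ^ i) ^ p := Ideal.pow_mem_pow h p
    rw [← pow_mul] at h1
    refine Ideal.pow_le_pow_right ?_ h1
    have := hp.two_le
    nlinarith
  · rw [pow_succ']
    exact Ideal.mul_mem_mul hpa h

theorem kmain_pow {R : Type} [CommRing R] (p : ℕ) (hp : p.Prime) (𝔞 : Ideal R)
    (hpa : (p : R) ∈ 𝔞) (j : ℕ) (a b : R) (h : a - b ∈ 𝔞) :
    a ^ (p ^ j) - b ^ (p ^ j) ∈ 𝔞 ^ (j + 1) := by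
  induction j with
  | zero => simpa using h
  | succ j ih =>
    rw [pow_succ p j, pow_mul, pow_mul]
    exact kmain_pow_step p hp 𝔞 hpa (j + 1) (by omega) _ _ ih

theorem kmain (E : Type) [Field E] [NumberField E] (p : ℕ) (hp : p.Prime) (𝔞 : Ideal (𝓞 E))
    (hpa : (p : 𝓞 E) ∈ 𝔞) (Q j : ℕ) (hQ : 1 ≤ Q) (s : E ≃+* E)
    (hs : ∀ y : 𝓞 E, y ^ Q - RingOfIntegers.mapRingEquiv s y ∈ 𝔞)
    (u v : 𝓞 E) (hu : u ≠ 0)
    (hcop : IsCoprime (Ideal.span {u, v}) (Ideal.span {(p : 𝓞 E)}))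
    (hδ : v ^ (Q * p ^ j) * (RingOfIntegers.mapRingEquiv s u) ^ (p ^ j)
      - (RingOfIntegers.mapRingEquiv s v) ^ (p ^ j) * u ^ (Q * p ^ j) ≠ 0) :
    (Ideal.absNorm 𝔞 : ℝ) ^ (j + 1) ≤
      2 ^ Module.finrank ℚ E * Height.mulHeight₁ ((v : E) / (u : E)) ^ (Q * p ^ j + p ^ j) := by
  set σ : 𝓞 E ≃+* 𝓞 E := RingOfIntegers.mapRingEquiv s with hσ
  set n := Module.finrank ℚ E with hn
  set I : Ideal (𝓞 E) := Ideal.span {u, v} with hI
  have huI : u ∈ I := Ideal.subset_span (by simp)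
  have hvI : v ∈ I := Ideal.subset_span (by simp)
  set P : ℕ := p ^ j with hP
  set δ : 𝓞 E := v ^ (Q * P) * (σ u) ^ P - (σ v) ^ P * u ^ (Q * P) with hδdef
  have hI0 : I ≠ ⊥ := by
    intro h0
    rw [h0] at huI
    exact hu (by simpa using huI)
  -- divisibility by `𝔞 ^ (j + 1)`
  have hp2 : ∀ y : 𝓞 E, y ^ (Q * P) - (σ y) ^ P ∈ 𝔞 ^ (j + 1) := by
    intro y
    have h1 := kmain_pow p hp 𝔞 hpa j _ _ (hs y)
    rw [← pow_mul] at h1
    exact h1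
  have hδ2 : δ ∈ 𝔞 ^ (j + 1) := by
    have e : δ = (v ^ (Q * P) - (σ v) ^ P) * (σ u) ^ P
        - (u ^ (Q * P) - (σ u) ^ P) * (σ v) ^ P := by
      rw [hδdef]
      ring
    rw [e]
    exact Ideal.sub_mem _ (Ideal.mul_mem_right _ _ (hp2 v)) (Ideal.mul_mem_right _ _ (hp2 u))
  -- membership in the ideal
  set I' : Ideal (𝓞 E) := I ^ (Q * P) * (I.map σ) ^ P with hI'
  have hδI : δ ∈ I' := by
    rw [hδdef]
    refine Ideal.sub_mem _ ?_ ?_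
    · exact Ideal.mul_mem_mul (Ideal.pow_mem_pow hvI _)
        (Ideal.pow_mem_pow (Ideal.mem_map_of_mem σ huI) _)
    · rw [mul_comm]
      exact Ideal.mul_mem_mul (Ideal.pow_mem_pow huI _)
        (Ideal.pow_mem_pow (Ideal.mem_map_of_mem σ hvI) _)
  have hcopσ : IsCoprime (I.map σ) (Ideal.span {(p : 𝓞 E)}) := by
    rw [Ideal.isCoprime_iff_sup_eq] at hcop ⊢
    have h1 := congrArg (Ideal.map σ) hcop
    have h2 : (Ideal.span {(p : 𝓞 E)}).map σ = Ideal.span {(p : 𝓞 E)} := by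
      rw [Ideal.map_span, Set.image_singleton, map_natCast]
    rw [Ideal.map_sup, h2, Ideal.map_top] at h1
    exact h1
  have hle : Ideal.span {(p : 𝓞 E)} ≤ 𝔞 := by
    rw [Ideal.span_singleton_le_iff_mem]
    exact hpa
  have hmono : ∀ {J : Ideal (𝓞 E)}, IsCoprime J (Ideal.span {(p : 𝓞 E)}) → IsCoprime J 𝔞 := by
    intro J hJ
    rw [Ideal.isCoprime_iff_sup_eq] at hJ ⊢
    exact top_le_iff.1 (hJ ▸ sup_le_sup_left hle J)
  have hcop' : IsCoprime (𝔞 ^ (j + 1)) I' := by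
    rw [hI']
    exact (IsCoprime.mul_left ((hmono hcop).pow_left) ((hmono hcopσ).pow_left)).symm.pow_left
  have hmem : δ ∈ 𝔞 ^ (j + 1) * I' := by
    rw [Ideal.mul_eq_inf_of_isCoprime hcop']
    exact ⟨hδ2, hδI⟩
  have hlow := absNorm_le_prod E _ δ hmem hδ
  have hN : (Ideal.absNorm (𝔞 ^ (j + 1) * I') : ℝ) =
      (Ideal.absNorm 𝔞 : ℝ) ^ (j + 1) * (Ideal.absNorm I : ℝ) ^ (Q * P + P) := by
    rw [map_mul, map_pow, hI', map_mul, map_pow, map_pow, bogCyc_absNorm_map]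
    push_cast
    rw [← pow_add]
  rw [hN] at hlow
  -- the upper bound
  set m : (E →+* ℂ) → ℝ := fun τ => max ‖τ (u : E)‖ ‖τ (v : E)‖ with hm
  have hH : Height.mulHeight₁ ((v : E) / (u : E)) * (Ideal.absNorm I : ℝ) = ∏ τ, m τ :=
    height_mul_absNorm E u v hu
  have hm0 : ∀ τ, 0 ≤ m τ := fun τ => le_max_of_le_left (norm_nonneg _)
  have hup : ∏ τ : E →+* ℂ, ‖τ (δ : E)‖ ≤
      ∏ τ : E →+* ℂ, (2 * (m τ ^ (Q * P) * m (τ.comp (s : E →+* E)) ^ P)) := by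
    refine Finset.prod_le_prod (fun τ _ => norm_nonneg _) (fun τ _ => ?_)
    have e1 : τ (δ : E) = τ v ^ (Q * P) * (τ.comp (s : E →+* E)) u ^ P
        - (τ.comp (s : E →+* E)) v ^ P * τ u ^ (Q * P) := by
      rw [hδdef]
      simp [hσ]
    rw [e1]
    have b1 : ‖τ (v : E)‖ ≤ m τ := le_max_right _ _
    have b2 : ‖τ (u : E)‖ ≤ m τ := le_max_left _ _
    have b3 : ‖(τ.comp (s : E →+* E)) (v : E)‖ ≤ m (τ.comp (s : E →+* E)) := le_max_right _ _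
    have b4 : ‖(τ.comp (s : E →+* E)) (u : E)‖ ≤ m (τ.comp (s : E →+* E)) := le_max_left _ _
    have c0 := hm0 τ
    have c1 := hm0 (τ.comp (s : E →+* E))
    calc ‖τ v ^ (Q * P) * (τ.comp (s : E →+* E)) u ^ P
        - (τ.comp (s : E →+* E)) v ^ P * τ u ^ (Q * P)‖
        ≤ ‖τ v‖ ^ (Q * P) * ‖(τ.comp (s : E →+* E)) u‖ ^ P
          + ‖(τ.comp (s : E →+* E)) v‖ ^ P * ‖τ u‖ ^ (Q * P) := by
          refine (norm_sub_le _ _).trans (le_of_eq ?_)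
          rw [norm_mul, norm_mul, norm_pow, norm_pow, norm_pow, norm_pow]
      _ ≤ m τ ^ (Q * P) * m (τ.comp (s : E →+* E)) ^ P
          + m (τ.comp (s : E →+* E)) ^ P * m τ ^ (Q * P) := by gcongr
      _ = 2 * (m τ ^ (Q * P) * m (τ.comp (s : E →+* E)) ^ P) := by ring
  have hprod : ∏ τ : E →+* ℂ, (2 * (m τ ^ (Q * P) * m (τ.comp (s : E →+* E)) ^ P)) =
      2 ^ n * (∏ τ, m τ) ^ (Q * P + P) := by
    rw [Finset.prod_mul_distrib, Finset.prod_mul_distrib, Finset.prod_pow, Finset.prod_pow,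
      bogCyc_prod_comp E s m, Finset.prod_const, Finset.card_univ, NumberField.Embeddings.card,
      pow_add]
  rw [hprod, ← hH] at hup
  have hNpos : (0 : ℝ) < (Ideal.absNorm I : ℝ) := by
    have : Ideal.absNorm I ≠ 0 := fun h0 => hI0 (Ideal.absNorm_eq_zero_iff.1 h0)
    exact_mod_cast Nat.pos_of_ne_zero this
  have h7 := hlow.trans hup
  rw [mul_pow, ← mul_assoc] at h7
  exact le_of_mul_le_mul_right h7 (by positivity)

end Pool.Agent.H4.RR
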