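import Pool.Agent.H4.RR.KFrob
import Pool.Agent.H4.RR.KMain

/-!
# Uniform height bound for the fields `K(ζ_M)`, `p ∤ M`
-/

set_option autoImplicit false

open NumberField

namespace Pool.Agent.H4.RR

theorem bogKCyc (K : Type) [Field K] [NumberField K] (p : ℕ) (hp : p.Prime) :
    ∃ κ : ℝ, 0 < κ ∧ ∀ (E : Type) [Field E] [NumberField E] [Algebra K E] (M : ℕ) (ζ : E),
      1 ≤ M → ¬ p ∣ M → IsPrimitiveRoot ζ M → IntermediateField.adjoin K {ζ} = ⊤ →
      ∀ a : E, a ≠ 0 → (∀ n : ℕ, 1 ≤ n → a ^ n ≠ 1) →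
        κ * Module.finrank ℚ E ≤ Height.logHeight₁ a := by
  classical
  -- a prime above `p`
  have hpu : Ideal.span {(p : 𝓞 K)} ≠ ⊤ := by
    intro h
    have h6 := congrArg Ideal.absNorm h
    rw [Ideal.absNorm_span_natCast, Ideal.absNorm_top] at h6
    have h7 : Module.finrank ℤ (𝓞 K) ≠ 0 := by
      rw [RingOfIntegers.rank]
      exact Module.finrank_pos.ne'
    rcases Nat.pow_eq_one.1 h6 with h8 | h8
    · exact hp.one_lt.ne' h8
    · exact h7 h8
  obtain ⟨P, hPm, hPle⟩ := Ideal.exists_le_maximal _ hpu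
  have hpP : (p : 𝓞 K) ∈ P := hPle (Ideal.mem_span_singleton_self _)
  have hP0 : P ≠ ⊥ := by
    intro h
    rw [h] at hpP
    exact hp.ne_zero (by exact_mod_cast (Ideal.mem_bot.1 hpP))
  set Q := Ideal.absNorm P with hQdef
  have hQ2 : 2 ≤ Q := by
    have h1 : Q ≠ 0 := fun h => hP0 (Ideal.absNorm_eq_zero_iff.1 h)
    have h2 : Q ≠ 1 := fun h => hPm.ne_top (Ideal.absNorm_eq_one_iff.1 h)
    omega
  set d := Module.finrank ℚ K with hd
  have hd0 : 0 < d := Module.finrank_pos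
  have hp2 := hp.two_le
  have hden : (0 : ℝ) < (d : ℝ) * (((Q * p ^ d + p ^ d : ℕ) : ℝ)) := by
    have h1 : 0 < Q * p ^ d + p ^ d := by positivity
    have h2 : (0 : ℝ) < ((Q * p ^ d + p ^ d : ℕ) : ℝ) := by exact_mod_cast h1
    positivity
  refine ⟨Real.log 2 / ((d : ℝ) * (((Q * p ^ d + p ^ d : ℕ) : ℝ))),
    div_pos (Real.log_pos (by norm_num)) hden, ?_⟩
  intro E _ _ _ M ζ hM hpM hζ htop a ha htors
  set e := Module.finrank K E with he
  have hde : Module.finrank ℚ E = d * e := (Module.finrank_mul_finrank ℚ K E).symm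
  obtain ⟨s, hs⟩ := kcyc_frob K E M p hM hp hpM ζ hζ htop P hPm hpP
  obtain ⟨u, v, hu, hv, hav, hcop⟩ := bogCyc_rep E p hp a ha
  by_cases hδ : v ^ (Q * p ^ d) * (RingOfIntegers.mapRingEquiv s u) ^ (p ^ d)
      - (RingOfIntegers.mapRingEquiv s v) ^ (p ^ d) * u ^ (Q * p ^ d) = 0
  · exfalso
    have hue : (u : E) ≠ 0 := by exact_mod_cast hu
    have hsue : s (u : E) ≠ 0 := by simpa using hue
    have h1 : (v : E) ^ (Q * p ^ d) * (s (u : E)) ^ (p ^ d)
        = (s (v : E)) ^ (p ^ d) * (u : E) ^ (Q * p ^ d) := by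
      have h2 := congrArg (fun z : 𝓞 E => (z : E)) (sub_eq_zero.1 hδ)
      simpa using h2
    have h3 : a ^ (Q * p ^ d) = (s a) ^ (p ^ d) := by
      rw [hav, map_div₀, div_pow, div_pow, div_eq_div_iff (pow_ne_zero _ hue) (pow_ne_zero _ hsue)]
      exact h1
    have h4 : Height.logHeight₁ (s a) = Height.logHeight₁ a := by
      rw [Height.logHeight₁_eq_log_mulHeight₁, Height.logHeight₁_eq_log_mulHeight₁, hav,
        bogCyc_height_map E s u v hu]
    have h5 := congrArg Height.logHeight₁ h3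
    rw [Height.logHeight₁_pow, Height.logHeight₁_pow, h4] at h5
    push_cast at h5
    have h6 : Height.logHeight₁ a = 0 := by
      have h7 : (((Q : ℝ) - 1) * (p : ℝ) ^ d) * Height.logHeight₁ a = 0 := by linarith
      rcases mul_eq_zero.1 h7 with h8 | h8
      · exfalso
        have hQr : (2 : ℝ) ≤ Q := by exact_mod_cast hQ2
        have hpr : (0 : ℝ) < (p : ℝ) ^ d := by
          have : (0 : ℝ) < p := by exact_mod_cast hp.pos
          positivity
        have : 0 < ((Q : ℝ) - 1) * (p : ℝ) ^ d := mul_pos (by linarith) hpr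
        linarith
      · exact h8
    obtain ⟨κ, hκ, hκ2⟩ := bogNF E
    have h9 := hκ2 a ha htors
    rw [h6] at h9
    have h10 : (0 : ℝ) < Module.finrank ℚ E := by exact_mod_cast Module.finrank_pos
    have : 0 < κ * Module.finrank ℚ E := by positivity
    linarith
  · have hpa : (p : 𝓞 E) ∈ P.map (algebraMap (𝓞 K) (𝓞 E)) := by
      have := Ideal.mem_map_of_mem (algebraMap (𝓞 K) (𝓞 E)) hpP
      rwa [map_natCast] at this
    have h1 := kmain E p hp (P.map (algebraMap (𝓞 K) (𝓞 E))) hpa Q d (by omega) s hs u v hu hcop hδ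
    have hfr : Module.finrank (𝓞 K) (𝓞 E) = Module.finrank K E :=
      (IsFractionRing.finrank_eq (𝓞 K) K (𝓞 E) E).symm
    rw [← hav, Ideal.absNorm_algebraMap, ← hQdef, hfr, ← he, hde] at h1
    have hH1 : 0 < Height.mulHeight₁ a := Height.mulHeight₁_pos a
    have h2 : (2 : ℝ) ^ (e * (d + 1)) ≤ ((Q ^ e : ℕ) : ℝ) ^ (d + 1) := by
      push_cast
      rw [← pow_mul]
      exact pow_le_pow_left₀ (by norm_num) (by exact_mod_cast hQ2) _
    have h3 : (2 : ℝ) ^ (d * e) * 2 ^ e ≤ 2 ^ (d * e) * Height.mulHeight₁ a ^ (Q * p ^ d + p ^ d) := by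
      calc (2 : ℝ) ^ (d * e) * 2 ^ e = 2 ^ (e * (d + 1)) := by rw [← pow_add]; congr 1; ring
        _ ≤ _ := h2
        _ ≤ _ := h1
    have h4 : (2 : ℝ) ^ e ≤ Height.mulHeight₁ a ^ (Q * p ^ d + p ^ d) :=
      le_of_mul_le_mul_left h3 (by positivity)
    have h5 := Real.log_le_log (by positivity) h4
    rw [Real.log_pow, Real.log_pow] at h5
    rw [Height.logHeight₁_eq_log_mulHeight₁, hde, div_mul_eq_mul_div, div_le_iff₀ hden]
    have hd0' : (0 : ℝ) < d := by exact_mod_cast hd0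
    push_cast at h5 ⊢
    nlinarith [mul_le_mul_of_nonneg_left h5 hd0'.le]

end Pool.Agent.H4.RR
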