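import Mathlib

/-!
# Module Radical (MP_187c26_nt, real radical towers)

Groups of radicals of `b`: finitely many elements lie in a cyclic group `⟨x⟩`, `x^m = b`.

Proof of `radical_cyclic`: induction on `s`. `s = ∅`: `x = b`, `m = 1`. Insert `y`: given `x ∈ Γ`,
`x^m = b`, (all prime factors of `m` in `T`); `y^N = b^k = x^(mk)` with `N ≥ 1`, prime factors of `N`
in `T`. Let `g = gcd(N, mk) ≥ 1`, `N = g N'`, `mk = g k'`, `gcd(N', k') = 1`. `(y^(N') x^(-k'))^g = 1`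
and `Γ` is torsion free, so `y^(N') = x^(k')`. Bezout: `u N' + v k' = 1`; `z = x^u y^v ∈ Γ`;
`z^(N') = x^(uN') y^(vN') = x^(uN' + vk') = x`, `z^(k') = x^(uk') y^(vk') = y^(uN' + vk') = y`. So
`z^(N' m) = b`, prime factors of `N' m` in `T`, and `zpowers x ≤ zpowers z`, `y ∈ zpowers z`.
(Work with units; `(b : Ω) ≠ 0`.)

Proof of `mem_adjoin_finite`: an element of `adjoin K {y | ∃ γ ∈ Γ, y = γ}` lies in the adjoin of
finitely many of them (`IntermediateField.exists_finset_of_mem_adjoin`).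
-/

set_option autoImplicit false

namespace Pool.Agent.H4.RR

/-- `Γ` is a torsion free group of radicals of `b`, with root orders composed of primes in `T`:
`b ∈ Γ`, `Γ` has no nontrivial torsion, and every element of `Γ` has a power `γ^N`, `N ≥ 1` with all
prime factors in `T`, that is an integral power of `b`. -/
def IsRadicalGroup {Ω : Type} [Field Ω] (b : ℕ) (T : Set ℕ) (Γ : Subgroup Ωˣ) : Prop :=
  (∀ γ ∈ Γ, ∀ n : ℕ, 1 ≤ n → γ ^ n = 1 → γ = 1) ∧
  (∃ β ∈ Γ, (β : Ω) = (b : Ω)) ∧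
  ∀ γ ∈ Γ, ∃ N : ℕ, 1 ≤ N ∧ (∀ q : ℕ, q.Prime → q ∣ N → q ∈ T) ∧
    ∃ k : ℤ, (γ : Ω) ^ N = (b : Ω) ^ k

theorem radical_cyclic {Ω : Type} [Field Ω] [CharZero Ω] (b : ℕ) (hb : 2 ≤ b) (T : Set ℕ)
    (Γ : Subgroup Ωˣ) (h : IsRadicalGroup b T Γ) (s : Finset Ωˣ) (hs : ∀ y ∈ s, y ∈ Γ) :
    ∃ x ∈ Γ, ∃ m : ℕ, 1 ≤ m ∧ (∀ q : ℕ, q.Prime → q ∣ m → q ∈ T) ∧ (x : Ω) ^ m = (b : Ω) ∧
      ∀ y ∈ s, y ∈ Subgroup.zpowers x := by
  classical
  obtain ⟨htf, ⟨β, hβ, hβb⟩, hrad⟩ := h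
  induction s using Finset.induction_on with
  | empty =>
    exact ⟨β, hβ, 1, le_refl _, fun q hq h1 => absurd (Nat.dvd_one.mp h1) hq.one_lt.ne',
      by rw [pow_one]; exact hβb, by simp⟩
  | insert y s hys ih =>
    obtain ⟨x, hx, m, hm, hmT, hxm, hxs⟩ := ih (fun z hz => hs z (Finset.mem_insert_of_mem hz))
    have hy : y ∈ Γ := hs y (Finset.mem_insert_self _ _)
    obtain ⟨N, hN, hNT, k, hk⟩ := hrad y hy
    -- in units
    have hyu : y ^ N = x ^ ((m : ℤ) * k) := by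
      apply Units.ext
      rw [Units.val_pow_eq_pow_val, hk, ← hxm, Units.val_zpow_eq_zpow_val, zpow_mul, zpow_natCast]
    set g : ℕ := Int.gcd (N : ℤ) ((m : ℤ) * k) with hg
    have hN0 : (N : ℤ) ≠ 0 := by exact_mod_cast (by omega : N ≠ 0)
    have hgpos : 0 < g := Int.gcd_pos_of_ne_zero_left _ hN0
    obtain ⟨N', hN'⟩ : (g : ℤ) ∣ (N : ℤ) := Int.gcd_dvd_left _ _
    obtain ⟨k', hk'⟩ : (g : ℤ) ∣ ((m : ℤ) * k) := Int.gcd_dvd_right _ _
    have hg0 : (g : ℤ) ≠ 0 := by exact_mod_cast hgpos.ne'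
    have hN'pos : 0 < N' := by
      by_contra hcon
      push Not at hcon
      have : (N : ℤ) ≤ 0 := by
        rw [hN']
        exact mul_nonpos_of_nonneg_of_nonpos (by exact_mod_cast hgpos.le) hcon
      omega
    have hbez : (g : ℤ) = (N : ℤ) * Int.gcdA N ((m : ℤ) * k)
        + ((m : ℤ) * k) * Int.gcdB N ((m : ℤ) * k) := Int.gcd_eq_gcd_ab _ _
    set u : ℤ := Int.gcdA N ((m : ℤ) * k)
    set v : ℤ := Int.gcdB N ((m : ℤ) * k)
    have hbez1 : u * N' + v * k' = 1 := by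
      have h1 : (g : ℤ) * (u * N' + v * k') = g * 1 := by
        calc (g : ℤ) * (u * N' + v * k') = (g * N') * u + (g * k') * v := by ring
          _ = g * 1 := by rw [← hN', ← hk', ← hbez, mul_one]
      exact mul_left_cancel₀ hg0 h1
    -- torsion free step
    have hyx : y ^ N' = x ^ k' := by
      have h1 : (y ^ N' * (x ^ k')⁻¹) ^ g = 1 := by
        rw [mul_pow, ← zpow_natCast, ← zpow_mul, ← zpow_natCast, inv_zpow, ← zpow_mul,
          mul_comm N', ← hN', mul_comm k', ← hk', zpow_natCast, hyu, mul_inv_cancel]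
      have h2 : y ^ N' * (x ^ k')⁻¹ = 1 :=
        htf _ (Γ.mul_mem (Γ.zpow_mem hy _) (Γ.inv_mem (Γ.zpow_mem hx _))) g hgpos h1
      exact mul_inv_eq_one.mp h2
    have hzN : (x ^ u * y ^ v) ^ N' = x := by
      calc (x ^ u * y ^ v) ^ N' = x ^ (u * N') * (y ^ N') ^ v := by
            rw [mul_zpow, ← zpow_mul, ← zpow_mul, ← zpow_mul, mul_comm v N']
        _ = x ^ (u * N' + v * k') := by
            rw [hyx, ← zpow_mul, zpow_add, mul_comm k' v]
        _ = x := by rw [hbez1, zpow_one]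
    have hzk : (x ^ u * y ^ v) ^ k' = y := by
      calc (x ^ u * y ^ v) ^ k' = (x ^ k') ^ u * y ^ (v * k') := by
            rw [mul_zpow, ← zpow_mul, ← zpow_mul, ← zpow_mul, mul_comm u k']
        _ = y ^ (u * N' + v * k') := by
            rw [← hyx, ← zpow_mul, zpow_add, mul_comm N' u]
        _ = y := by rw [hbez1, zpow_one]
    have hN'nat : ((N'.toNat : ℕ) : ℤ) = N' := Int.toNat_of_nonneg hN'pos.le
    have hzN' : (x ^ u * y ^ v) ^ (N'.toNat) = x := by
      rw [← zpow_natCast, hN'nat, hzN]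
    refine ⟨x ^ u * y ^ v, Γ.mul_mem (Γ.zpow_mem hx _) (Γ.zpow_mem hy _), N'.toNat * m, ?_, ?_,
      ?_, ?_⟩
    · have : 0 < N'.toNat := by omega
      exact Nat.mul_pos this hm
    · intro q hq hqd
      rcases (Nat.Prime.dvd_mul hq).mp hqd with h1 | h1
      · apply hNT q hq
        have h2 : N'.toNat ∣ N := by
          have : ((N'.toNat : ℕ) : ℤ) ∣ (N : ℤ) := by
            rw [hN'nat, hN']; exact dvd_mul_left _ _
          exact_mod_cast this
        exact h1.trans h2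
      · exact hmT q hq h1
    · rw [pow_mul, ← Units.val_pow_eq_pow_val, hzN', hxm]
    · intro w hw
      rcases Finset.mem_insert.mp hw with rfl | hw
      · exact ⟨k', hzk⟩
      · obtain ⟨j, hj⟩ := hxs w hw
        refine ⟨N' * j, ?_⟩
        change (x ^ u * _ ^ v) ^ (N' * j) = w
        rw [zpow_mul, hzN]
        exact hj

theorem mem_adjoin_finite {K Ω : Type} [Field K] [Field Ω] [Algebra K Ω] (Γ : Subgroup Ωˣ) (a : Ω)
    (ha : a ∈ IntermediateField.adjoin K {y : Ω | ∃ γ ∈ Γ, y = (γ : Ω)}) :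
    ∃ s : Finset Ωˣ, (∀ y ∈ s, y ∈ Γ) ∧
      a ∈ IntermediateField.adjoin K {y : Ω | ∃ γ ∈ s, y = (γ : Ω)} := by
  classical
  obtain ⟨t, hts, hat⟩ := IntermediateField.exists_finset_of_mem_adjoin ha
  choose f hf hf' using fun y : {y // y ∈ t} => hts y.2
  refine ⟨Finset.univ.image f, ?_, ?_⟩
  · intro y hy
    obtain ⟨z, -, rfl⟩ := Finset.mem_image.mp hy
    exact hf z
  · refine IntermediateField.adjoin.mono K _ _ ?_ hat
    intro y hy
    exact ⟨f ⟨y, hy⟩, Finset.mem_image_of_mem f (Finset.mem_univ _), hf' ⟨y, hy⟩⟩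

/-- Elements of a finite supremum of subgroups of a commutative group. -/
theorem mem_iSup_fin {G : Type} [CommGroup G] {ι : Type} [Fintype ι] (Γ : ι → Subgroup G) (y : G)
    (hy : y ∈ ⨆ i, Γ i) : ∃ f : ι → G, (∀ i, f i ∈ Γ i) ∧ y = ∏ i, f i := by
  classical
  induction hy using Subgroup.iSup_induction' with
  | hp i x hx =>
    refine ⟨Pi.mulSingle i x, ?_, ?_⟩
    · intro j
      by_cases hij : j = i
      · subst hij; rw [Pi.mulSingle_eq_same]; exact hx
      · rw [Pi.mulSingle_eq_of_ne hij]; exact one_mem _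
    · rw [Finset.prod_pi_mulSingle']
      simp
  | h1 => exact ⟨fun _ => 1, fun _ => one_mem _, by simp⟩
  | hmul x z _ _ ihx ihz =>
    obtain ⟨f, hf, rfl⟩ := ihx
    obtain ⟨g, hg, rfl⟩ := ihz
    exact ⟨fun i => f i * g i, fun i => mul_mem (hf i) (hg i), Finset.prod_mul_distrib.symm⟩

end Pool.Agent.H4.RR
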