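import Pool.Agent.H4.RR.Ambient

/-!
# Module KDisc (MP_187c26_nt, real radical towers)

Discriminant of `K(ζ_M)`.

Proof. Let `f` be the minimal polynomial of `ζ` over `𝓞 K` (or `K`); `X^M - 1 = f g` over `𝓞 K`, so
`f'(ζ) g(ζ) = M ζ^(M-1)`. By `aeval_derivative_mem_differentIdeal` `f'(ζ) ∈ differentIdeal (𝓞 K) (𝓞 E)`,
so `M ∈ differentIdeal (𝓞 K) (𝓞 E)` and its absolute norm divides `N(M) = M^[E:ℚ]`. Now
`|discr E| = N(differentIdeal (𝓞 K) (𝓞 E)) |discr K|^[E:K]`
(`NumberField.natAbs_discr_eq_absNorm_differentIdeal_mul_natAbs_discr_pow`). Compare the file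
`Pool/Agent/H4/RR/Compos.lean`, which treats `X^m - b`.
-/

set_option autoImplicit false

open NumberField

namespace Pool.Agent.H4.RR

theorem kdisc (K E : Type) [Field K] [NumberField K] [Field E] [NumberField E] [Algebra K E]
    (M : ℕ) (hM : 1 ≤ M) (ζ : E) (hζ : IsPrimitiveRoot ζ M)
    (htop : IntermediateField.adjoin K {ζ} = ⊤) (q : ℕ) (hq : q.Prime) (hqd : (q : ℤ) ∣ discr E) :
    (q : ℤ) ∣ discr K ∨ q ∣ M := by
  have hM0 : M ≠ 0 := by omega
  have hζi : IsIntegral ℤ ζ := hζ.isIntegral (by omega)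
  let z : 𝓞 E := ⟨ζ, hζi⟩
  have hz : (z : E) = ζ := rfl
  have hzpow : z ^ M = 1 := by
    apply RingOfIntegers.ext
    simp [z, hζ.pow_eq_one]
  have hzi : IsIntegral (𝓞 K) z := by
    refine ⟨Polynomial.X ^ M - Polynomial.C 1, Polynomial.monic_X_pow_sub_C _ hM0, ?_⟩
    simp [hzpow]
  have hadj : Algebra.adjoin K {algebraMap (𝓞 E) E z} = ⊤ := by
    have h1 : IsAlgebraic K ζ := Algebra.IsAlgebraic.isAlgebraic ζ
    have h2 := IntermediateField.adjoin_simple_toSubalgebra_of_isAlgebraic h1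
    rw [htop] at h2
    rw [show algebraMap (𝓞 E) E z = ζ from rfl, ← h2]
    exact IntermediateField.top_toSubalgebra
  have hmem := aeval_derivative_mem_differentIdeal (𝓞 K) K E z hadj
  -- `X ^ M - 1 = f * g`
  obtain ⟨g, hg⟩ : minpoly (𝓞 K) z ∣ (Polynomial.X ^ M - Polynomial.C 1) := by
    apply minpoly.isIntegrallyClosed_dvd hzi
    simp [hzpow]
  have hder := congrArg Polynomial.derivative hg
  have hev := congrArg (Polynomial.aeval z) hder
  simp only [Polynomial.derivative_sub, Polynomial.derivative_X_pow, Polynomial.derivative_C,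
    sub_zero, Polynomial.derivative_mul, map_add, map_mul, minpoly.aeval, zero_mul, add_zero,
    map_natCast, map_pow, Polynomial.aeval_X] at hev
  have hMmem : (M : 𝓞 E) ∈ differentIdeal (𝓞 K) (𝓞 E) := by
    have h1 : (M : 𝓞 E) = z * (M * z ^ (M - 1)) := by
      have : z * z ^ (M - 1) = 1 := by
        rw [← pow_succ', Nat.sub_add_cancel hM, hzpow]
      rw [mul_left_comm, this, mul_one]
    rw [h1, hev]
    apply Ideal.mul_mem_left
    apply Ideal.mul_mem_right
    exact hmem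
  have h1 := natAbs_discr_eq_absNorm_differentIdeal_mul_natAbs_discr_pow K (𝓞 K) E (𝓞 E)
  have h2 : q ∣ (discr E).natAbs := by
    have := Int.natAbs_dvd_natAbs.2 hqd
    rwa [Int.natAbs_natCast] at this
  rw [h1] at h2
  rcases (Nat.Prime.dvd_mul hq).1 h2 with h3 | h3
  · right
    have h4 : Ideal.absNorm (differentIdeal (𝓞 K) (𝓞 E)) ∣ Ideal.absNorm (Ideal.span {(M : 𝓞 E)}) :=
      Ideal.absNorm_dvd_absNorm_of_le ((Ideal.span_singleton_le_iff_mem _).2 hMmem)
    have h5 : Ideal.absNorm (Ideal.span {(M : 𝓞 E)}) = M ^ Module.finrank ℤ (𝓞 E) := by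
      rw [Ideal.absNorm_span_singleton]
      have : (M : 𝓞 E) = algebraMap ℤ (𝓞 E) (M : ℤ) := by simp
      rw [this, Algebra.norm_algebraMap]
      simp [Int.natAbs_pow]
    rw [h5] at h4
    exact hq.dvd_of_dvd_pow (h3.trans h4)
  · left
    have h4 := hq.dvd_of_dvd_pow h3
    exact Int.natCast_dvd.2 h4

end Pool.Agent.H4.RR
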