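import Pool.Agent.H4.RR.BaseB
import Pool.Agent.H4.RR.BogKCyc
import Pool.Agent.H4.RR.KDisc

/-!
# Base fields `K(ζ_M)`
-/

set_option autoImplicit false

open NumberField Polynomial IntermediateField

namespace Pool.Agent.H4.RR

theorem baseK (K Ω : Type) [Field K] [NumberField K] [Field Ω] [CharZero Ω] [IsAlgClosed Ω]
    [Algebra K Ω] (p : ℕ) (κ : ℝ)
    (hκ : ∀ (E : Type) [Field E] [NumberField E] [Algebra K E] (M : ℕ) (ζ : E),
      1 ≤ M → ¬ p ∣ M → IsPrimitiveRoot ζ M → IntermediateField.adjoin K {ζ} = ⊤ →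
      ∀ a : E, a ≠ 0 → (∀ n : ℕ, 1 ≤ n → a ^ n ≠ 1) →
        κ * Module.finrank ℚ E ≤ Height.logHeight₁ a)
    (T0 : Set ℕ) (hp : p.Prime) (hpT : p ∉ T0) (s0 : Finset Ωˣ)
    (hs : ∀ y ∈ s0, ∃ N : ℕ, 1 ≤ N ∧ (∀ q : ℕ, q.Prime → q ∣ N → q ∈ T0) ∧ y ^ N = 1) :
    ∃ (E0 : IntermediateField ℚ Ω) (_ : NumberField E0), (∀ k : K, algebraMap K Ω k ∈ E0) ∧
      (∀ y ∈ s0, (y : Ω) ∈ E0) ∧ Bog E0 (CommGroup.torsion Ωˣ) κ ∧
      ∀ q : ℕ, q.Prime → (q : ℤ) ∣ discr E0 → (q : ℤ) ∣ discr K ∨ q ∈ T0 := by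
  classical
  choose! N hN1 hNT hNy using hs
  obtain ⟨M, hM1, hMT, hMN⟩ : ∃ M : ℕ, 1 ≤ M ∧ (∀ q : ℕ, q.Prime → q ∣ M → q ∈ T0) ∧
      ∀ y ∈ s0, N y ∣ M := by
    refine ⟨∏ y ∈ s0, N y, ?_, ?_, fun y hy => Finset.dvd_prod_of_mem N hy⟩
    · exact Nat.succ_le_of_lt (Finset.prod_pos fun y hy => Nat.lt_of_succ_le (hN1 y hy))
    · intro q hq hqd
      obtain ⟨y, hy, hqy⟩ := (hq.prime.dvd_finsetProd_iff N).1 hqd
      exact hNT y hy q hq hqy
  have hne : NeZero M := ⟨by omega⟩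
  have hneΩ : NeZero ((M : ℕ) : Ω) := ⟨by exact_mod_cast hne.out⟩
  obtain ⟨ζ, hζ⟩ := HasEnoughRootsOfUnity.exists_primitiveRoot Ω M
  have hint : IsIntegral K ζ :=
    ⟨X ^ M - C 1, monic_X_pow_sub_C _ hne.out, by simp [hζ.pow_eq_one]⟩
  have hpM : ¬ p ∣ M := fun h => hpT (hMT p hp h)
  let E1 : IntermediateField K Ω := IntermediateField.adjoin K {ζ}
  have hfd : FiniteDimensional K E1 := adjoin.finiteDimensional hint
  have hfd' : FiniteDimensional ℚ E1 := Module.Finite.trans K E1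
  have hnf1 : NumberField E1 := { to_charZero := inferInstance, to_finiteDimensional := hfd' }
  have hζ1 : IsPrimitiveRoot (AdjoinSimple.gen K ζ) M := by
    apply IsPrimitiveRoot.of_map_of_injective (f := algebraMap E1 Ω)
    · exact hζ
    · exact (algebraMap E1 Ω).injective
  have htop : IntermediateField.adjoin K {AdjoinSimple.gen K ζ} = (⊤ : IntermediateField K E1) := by
    apply IntermediateField.map_injective E1.val
    rw [adjoin_map, Set.image_singleton, ← AlgHom.fieldRange_eq_map, fieldRange_val]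
    rfl
  let E0 : IntermediateField ℚ Ω := E1.restrictScalars ℚ
  have hnf0 : NumberField E0 := hnf1
  refine ⟨E0, hnf0, fun k => E1.algebraMap_mem k, ?_, ?_, ?_⟩
  · intro y hy
    have h1 : (y : Ω) ^ M = 1 := by
      obtain ⟨k, hk⟩ := hMN y hy
      rw [hk, pow_mul, ← Units.val_pow_eq_pow_val, hNy y hy, Units.val_one, one_pow]
    obtain ⟨i, _, hi⟩ := hζ.eq_pow_of_pow_eq_one h1
    rw [← hi]
    exact pow_mem (mem_adjoin_simple_self K ζ) i
  · intro a ha hat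
    have hN : (0 : ℝ) < Module.finrank ℚ E1 := by exact_mod_cast Module.finrank_pos
    have h1 : absLogHeight₁ (a : Ω) =
        Height.logHeight₁ (⟨(a : Ω), ha⟩ : E1) / Module.finrank ℚ E1 :=
      absLogHeight_eq E1 Ω (E1.val : E1 →+* Ω) ⟨(a : Ω), ha⟩
    rw [h1, le_div_iff₀ hN]
    apply hκ E1 M (AdjoinSimple.gen K ζ) hM1 hpM hζ1 htop
    · intro h
      apply a.ne_zero
      exact congrArg Subtype.val h
    · intro n hn h
      apply not_torsion_of_unit a hat n hn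
      exact congrArg Subtype.val h
  · intro q hq hqd
    rcases kdisc K E1 M hM1 (AdjoinSimple.gen K ζ) hζ1 htop q hq hqd with h | h
    · exact Or.inl h
    · exact Or.inr (hMT q hq h)

end Pool.Agent.H4.RR
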