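import Pool.Agent.H4.RR.Final
import Pool.Agent.H4.RR.BaseK

/-!
# Final assembly over a general base field, with roots of unity
-/

set_option autoImplicit false

open NumberField Polynomial IntermediateField

namespace Pool.Agent.H4.RR

theorem partK (K : Type) [Field K] [NumberField K] (r p : ℕ) (hp : p.Prime) :
    ∃ c : ℝ, 0 < c ∧ ∀ (b : Fin r → ℕ) (T : Fin r → Set ℕ) (T0 : Set ℕ)
      (Γ0 : Subgroup (AlgebraicClosure K)ˣ) (Γ : Fin r → Subgroup (AlgebraicClosure K)ˣ),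
      Admissible b T →
      (∀ i, IsCoprime (discr K) (b i : ℤ) ∧ ∀ q ∈ T i, ¬ (q : ℤ) ∣ discr K) →
      p ∉ T0 → (∀ i, Disjoint T0 (T i) ∧ ∀ q ∈ T0, ¬ q ∣ b i) →
      (∀ i, IsRadicalGroup (b i) (T i) (Γ i)) →
      (∀ γ ∈ Γ0, ∃ N : ℕ, 1 ≤ N ∧ (∀ q : ℕ, q.Prime → q ∣ N → q ∈ T0) ∧ γ ^ N = 1) →
      ∀ α : (AlgebraicClosure K)ˣ,
        (∀ g ∈ sat (Γ0 ⊔ ⨆ i, Γ i),
          (g : AlgebraicClosure K) ≠ normTo (fieldOf K (Γ0 ⊔ ⨆ i, Γ i)) α) →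
        c ≤ Module.finrank (fieldOf K (Γ0 ⊔ ⨆ i, Γ i))
            (fieldOf K (Γ0 ⊔ ⨆ i, Γ i))⟮(α : AlgebraicClosure K)⟯
          * absLogHeight₁ (α : AlgebraicClosure K) := by
  obtain ⟨κ, hκ, hE⟩ := bogKCyc K p hp
  refine ⟨cseq κ r, cseq_pos κ hκ r, ?_⟩
  intro b T T0 Γ0 Γ hadm hK' hpT hT0 hΓ hΓ0 α hα
  apply from_norm _ (sat (Γ0 ⊔ ⨆ i, Γ i)) _ _ α hα
  intro a ha hasat
  apply bog_infinite K (AlgebraicClosure K) r b T Γ0 Γ (fun i => (hadm.1 i).1)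
    (fun i => (hadm.1 i).2) (fun i j hij => (hadm.2.2 i j hij).1) (fun i q hq => (hadm.2.1 i q hq).2)
    (fun i j hij => (hadm.2.2 i j hij).2.1) (fun i j hij => (hadm.2.2 i j hij).2.2) hΓ κ hκ _
    a ha hasat
  intro s hs
  obtain ⟨E0, hNF, hKE, hs0, hB, hd⟩ := baseK K (AlgebraicClosure K) p κ hE T0 hp hpT s
    (fun y hy => hΓ0 y (hs y hy))
  refine ⟨E0, hNF, hKE, hs0, hB, ?_⟩
  intro i m _ hm
  apply isCoprime_of_primes
  intro q hq hqd hqn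
  rcases hd q hq hqd with h1 | h1
  · rcases (hq.dvd_mul).mp hqn with h2 | h2
    · exact (hK' i).2 q (hm q hq h2) h1
    · exact not_dvd_of_isCoprime _ _ (hK' i).1 q hq h1 h2
  · rcases (hq.dvd_mul).mp hqn with h2 | h2
    · exact (Set.disjoint_left.mp (hT0 i).1) h1 (hm q hq h2)
    · exact (hT0 i).2 q h1 h2

end Pool.Agent.H4.RR
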