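import Pool.Agent.H4.RR.Defs

/-!
# Module RhoNe (MP_187c26_nt, real radical towers)

The Sylvester determinant `rho D u v` (rows `X^r u`, `X^r v`, `r < D`, columns the coefficients
`0, …, 2D-1`) of coprime polynomials over a field, one of which has degree exactly `D`, is nonzero.

Proof: `D = 0`: determinant of an empty matrix is `1`. `D ≥ 1`: if the determinant vanished there
is a nonzero row vector `c` with `c ᵥ* M = 0` (`Matrix.exists_vecMul_eq_zero_iff`), i.e. with
`s = ∑_{r<D} c_r X^r`, `t = ∑_{r<D} c_{D+r} X^r` (degrees `< D`, not both zero) the polynomial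
`s u + t v` (degree `< 2D`) has all coefficients zero, so `s u = - t v`. By coprimality `u ∣ t` and
`v ∣ s`. If `deg u = D`: `t = 0` (degree `< D`), then `s u = 0`, `u ≠ 0` so `s = 0`: contradiction.
Similarly if `deg v = D`. (Mathlib's `Polynomial.sylvester` / `Polynomial.resultant` API may also
help, e.g. `Polynomial.resultant_ne_zero`-type statements, if convenient.)
-/

set_option autoImplicit false

open Polynomial

namespace Pool.Agent.H4.RR

theorem rho_ne_zero {K : Type*} [Field K] (D : ℕ) (u v : K[X]) (hu : u.natDegree ≤ D)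
    (hv : v.natDegree ≤ D) (h : u.natDegree = D ∨ v.natDegree = D) (hcop : IsCoprime u v) :
    rho D u v ≠ 0 := by
  intro hdet
  unfold rho at hdet
  obtain ⟨c, hc0, hc⟩ := Matrix.exists_vecMul_eq_zero_iff.2 hdet
  have hD : 0 < D := by
    rcases Nat.eq_zero_or_pos D with rfl | hD
    · exact absurd (_root_.funext fun r : Fin (2 * 0) => absurd r.2 (by omega)) hc0
    · exact hD
  set s : K[X] := ∑ r : Fin (2 * D), if (r : ℕ) < D then C (c r) * X ^ (r : ℕ) else 0 with hs
  set t : K[X] := ∑ r : Fin (2 * D), if (r : ℕ) < D then 0 else C (c r) * X ^ ((r : ℕ) - D) with ht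
  have hP : s * u + t * v = ∑ r : Fin (2 * D), C (c r) * fam D 0 u v 0 (r : ℕ) := by
    rw [hs, ht, Finset.sum_mul, Finset.sum_mul, ← Finset.sum_add_distrib]
    refine Finset.sum_congr rfl (fun r _ => ?_)
    unfold fam
    by_cases h1 : (r : ℕ) < D
    · simp only [h1, if_true]; ring
    · have h2 : (r : ℕ) < 2 * D := r.2
      simp only [h1, h2, if_true, if_false]; ring
  have hP0 : s * u + t * v = 0 := by
    rw [hP]
    ext i
    rw [finsetSum_coeff, coeff_zero]
    by_cases hi : i < 2 * D
    · have h3 := congrFun hc ⟨i, hi⟩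
      simp only [Matrix.vecMul, dotProduct, Matrix.of_apply, Pi.zero_apply] at h3
      simpa only [coeff_C_mul] using h3
    · refine Finset.sum_eq_zero (fun r _ => ?_)
      rw [coeff_C_mul, coeff_eq_zero_of_natDegree_lt, mul_zero]
      refine lt_of_lt_of_le (fam_natDegree_lt (2 * D) D 0 le_rfl (Nat.zero_le _) u v 0 hu hv
        (by simp) r r.2) (not_lt.1 hi)
  have hsc : ∀ k : ℕ, s.coeff k = ∑ r : Fin (2 * D), if (r : ℕ) < D then
      (if k = (r : ℕ) then c r else 0) else 0 := by
    intro k
    rw [hs, finsetSum_coeff]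
    refine Finset.sum_congr rfl (fun r _ => ?_)
    split_ifs with h1 h2
    · simp [coeff_X_pow, h2]
    · simp [coeff_X_pow, h2]
    · simp
  have htc : ∀ k : ℕ, t.coeff k = ∑ r : Fin (2 * D), if (r : ℕ) < D then
      0 else (if k = (r : ℕ) - D then c r else 0) := by
    intro k
    rw [ht, finsetSum_coeff]
    refine Finset.sum_congr rfl (fun r _ => ?_)
    split_ifs with h1 h2
    · simp
    · simp [coeff_X_pow, h2]
    · simp [coeff_X_pow, h2]
  have hsd : s.degree < D := by
    rw [degree_lt_iff_coeff_zero]
    intro k hk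
    rw [hsc]
    refine Finset.sum_eq_zero (fun r _ => ?_)
    split_ifs with h1 h2
    · omega
    · rfl
    · rfl
  have htd : t.degree < D := by
    rw [degree_lt_iff_coeff_zero]
    intro k hk
    rw [htc]
    refine Finset.sum_eq_zero (fun r _ => ?_)
    have := r.2
    split_ifs with h1 h2
    · rfl
    · omega
    · rfl
  have hst : s ≠ 0 ∨ t ≠ 0 := by
    by_contra hcon
    push Not at hcon
    apply hc0
    refine _root_.funext fun r => ?_
    by_cases h1 : (r : ℕ) < D
    · have h2 := hsc (r : ℕ)
      rw [hcon.1, coeff_zero, Finset.sum_eq_single r] at h2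
      · simpa [h1] using h2.symm
      · intro b _ hb
        have : (r : ℕ) ≠ (b : ℕ) := fun h => hb (Fin.ext h.symm)
        simp [this]
      · intro h; exact absurd (Finset.mem_univ _) h
    · have h2 := htc ((r : ℕ) - D)
      rw [hcon.2, coeff_zero, Finset.sum_eq_single r] at h2
      · simpa [h1] using h2.symm
      · intro b _ hb
        have : (r : ℕ) ≠ (b : ℕ) := fun h => hb (Fin.ext h.symm)
        split_ifs with h3 h4
        · rfl
        · omega
        · rfl
      · intro h; exact absurd (Finset.mem_univ _) h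
  have hsu : s * u = -(t * v) := eq_neg_of_add_eq_zero_left hP0
  have hvs : v ∣ s := by
    refine hcop.symm.dvd_of_dvd_mul_right ?_
    rw [hsu]
    exact (Dvd.intro_left t rfl).neg_right
  have hut : u ∣ t := by
    refine hcop.dvd_of_dvd_mul_right (?_ : u ∣ t * v)
    have : t * v = -(s * u) := by rw [hsu, neg_neg]
    rw [this]
    exact (Dvd.intro_left s rfl).neg_right
  rcases h with h | h
  · have hu0 : u ≠ 0 := by
      rintro rfl
      simp at h
      omega
    have hdeg : u.degree = D := by rw [degree_eq_natDegree hu0, h]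
    have ht0 : t = 0 := eq_zero_of_dvd_of_degree_lt hut (by rw [hdeg]; exact htd)
    have hs0 : s = 0 := by
      rw [ht0, zero_mul, neg_zero] at hsu
      exact (mul_eq_zero.1 hsu).resolve_right hu0
    rcases hst with h' | h'
    · exact h' hs0
    · exact h' ht0
  · have hv0 : v ≠ 0 := by
      rintro rfl
      simp at h
      omega
    have hdeg : v.degree = D := by rw [degree_eq_natDegree hv0, h]
    have hs0 : s = 0 := eq_zero_of_dvd_of_degree_lt hvs (by rw [hdeg]; exact hsd)
    have ht0 : t = 0 := by
      rw [hs0, zero_mul] at hsu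
      exact (mul_eq_zero.1 (neg_eq_zero.1 hsu.symm)).resolve_right hv0
    rcases hst with h' | h'
    · exact h' hs0
    · exact h' ht0

end Pool.Agent.H4.RR
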