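import Pool.Agent.H4.RR.Ambient

/-!
# Module DenTower (MP_187c26_nt, real radical towers)

`Den` for the torsion group (`θ = 0`) and for `torsion ⊔ ⟨x_i⟩` (`θ = 1`), `x_i^(m_i) = b_i` pairwise
coprime integers.

Proof of `den_torsion`: `s^n = 1`, `g1 = s` (integral), `g2 = 1`, `‖τ s‖ = 1 = exp 0`
(`‖τ s‖^n = 1`).

Proof of `den_tower`. Let `t ∈ torsion ⊔ ⨆_{i∈s} zpowers (x i)`, `t ∈ E`. Then
`t = ζ * ∏_{i∈s} x_i^(j_i)` with `ζ` torsion, `j_i ∈ ℤ` (induction on the finset, `Subgroup.mem_sup`,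
`Subgroup.mem_zpowers_iff`; `Ωˣ` is commutative). All `x_i ∈ E`, so `ζ ∈ E`. Put
`g1 = ζ ∏_i x_i^(j_i^+)`, `g2 = ∏_i x_i^(j_i^-)` (`j^+ = j.toNat`, `j^- = (-j).toNat`), integral
elements of `E`, `t g2 = g1`. With `β_i = (b_i : ℝ)^(1/m_i)` every `τ : E →+* ℂ` satisfies
`‖τ x_i‖ = β_i` (as `‖τ x_i‖^(m_i) = b_i`), so `‖τ g1‖ = R1 := ∏ β_i^(j_i^+)`,
`‖τ g2‖ = R2 := ∏ β_i^(j_i^-)`. It remains to see `max R1 R2 ≤ exp (absLogHeight₁ t)`, in fact
equality holds: let `n ≥ 1` be such that `ζ^n = 1` and `m_i ∣ n` for all `i∈s` (e.g. `n = (order of ζ) *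
∏ m_i`). Then `t^n = ∏ b_i^(j_i n/m_i)` is the rational number `A/B`, `A = ∏ b_i^(j_i^+ n/m_i)`,
`B = ∏ b_i^(j_i^- n/m_i)`, coprime natural numbers (pairwise coprime `b_i`, and `j_i^+ j_i^- = 0`).
`n * absLogHeight₁ t = absLogHeight₁ (t^n) = absLogHeight₁ (A/B) = log (max A B)`
(`absLogHeight_pow`, `absLogHeight_eq ℚ Ω (algebraMap ℚ Ω)`, and Mathlib's
`NumberField`/`Rat` lemma `mulHeight₁_eq_max`/`logHeight₁_eq_log_max` for `ℚ`), while
`R1^n = A`, `R2^n = B`. So `n log R1 = log A ≤ n h(t)`.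
-/

set_option autoImplicit false

open NumberField Polynomial IntermediateField

namespace Pool.Agent.H4.RR

variable {Ω : Type} [Field Ω] [CharZero Ω]

lemma den_prod_pow {M ι : Type} [CommMonoid M] (s : Finset ι) (y B : ι → M) (e c m : ι → ℕ) (n : ℕ)
    (h : ∀ i ∈ s, y i ^ m i = B i) (hn : ∀ i ∈ s, n = m i * c i) :
    (∏ i ∈ s, y i ^ e i) ^ n = ∏ i ∈ s, B i ^ (e i * c i) := by
  rw [← Finset.prod_pow]
  refine Finset.prod_congr rfl fun i hi => ?_
  rw [← h i hi, ← pow_mul, ← pow_mul, hn i hi]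
  congr 1
  ring

lemma mem_iSup_zpowers {G ι : Type} [CommGroup G] [DecidableEq ι] (x : ι → G) (s : Finset ι)
    (y : G) (hy : y ∈ ⨆ i ∈ s, Subgroup.zpowers (x i)) :
    ∃ j : ι → ℤ, y = ∏ i ∈ s, x i ^ j i := by
  induction s using Finset.induction_on generalizing y with
  | empty =>
    simp only [Finset.notMem_empty, iSup_false, iSup_bot, Subgroup.mem_bot] at hy
    exact ⟨0, by simp [hy]⟩
  | insert a s ha ih =>
    rw [Finset.iSup_insert, Subgroup.mem_sup] at hy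
    obtain ⟨u, hu, v, hv, rfl⟩ := hy
    obtain ⟨k, rfl⟩ := Subgroup.mem_zpowers_iff.1 hu
    obtain ⟨j, rfl⟩ := ih v hv
    refine ⟨Function.update j a k, ?_⟩
    rw [Finset.prod_insert ha, Function.update_self]
    congr 1
    refine Finset.prod_congr rfl fun i hi => ?_
    rw [Function.update_of_ne]
    rintro rfl
    exact ha hi

lemma norm_eq_one_of_pow {z : ℂ} {n : ℕ} (hn : 1 ≤ n) (h : z ^ n = 1) : ‖z‖ = 1 := by
  have h1 : ‖z‖ ^ n = 1 := by rw [← norm_pow, h, norm_one]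
  exact (pow_eq_one_iff_of_nonneg (norm_nonneg _) (by omega)).1 h1

theorem den_torsion (E : IntermediateField ℚ Ω) [NumberField E] :
    Den E (CommGroup.torsion Ωˣ) 0 := by
  intro s hs hsE
  obtain ⟨n, hn, hsn⟩ := isOfFinOrder_iff_pow_eq_one.1 ((CommGroup.mem_torsion s).1 hs)
  have hsn' : (s : Ω) ^ n = 1 := by
    rw [← Units.val_pow_eq_pow_val, hsn, Units.val_one]
  let z : E := ⟨(s : Ω), hsE⟩
  have hz : z ^ n = 1 := Subtype.ext hsn'
  let g1 : 𝓞 E := ⟨z, isIntegral_of_pow_eq z n 1 hn (by rw [hz]; simp)⟩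
  have hg1 : (g1 : E) = z := rfl
  refine ⟨g1, 1, ?_, one_ne_zero, ?_, ?_⟩
  · intro h
    have h1 : (g1 : E) = 0 := by rw [h]; rfl
    have h2 : (s : Ω) = 0 := congrArg (fun y : E => (y : Ω)) h1
    exact s.ne_zero h2
  · rw [hg1]
    have : (((1 : 𝓞 E) : E) : Ω) = 1 := rfl
    rw [this, mul_one]
  · intro τ
    rw [zero_mul, Real.exp_zero, hg1]
    constructor
    · refine (norm_eq_one_of_pow hn ?_).le
      rw [← map_pow, hz, map_one]
    · have : ((1 : 𝓞 E) : E) = 1 := rfl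
      rw [this, map_one, norm_one]

theorem den_tower (E : IntermediateField ℚ Ω) [NumberField E] {ι : Type} [DecidableEq ι]
    (s : Finset ι) (b m : ι → ℕ) (x : ι → Ωˣ) (hb : ∀ i ∈ s, 1 ≤ b i) (hm : ∀ i ∈ s, 1 ≤ m i)
    (hx : ∀ i ∈ s, (x i : Ω) ^ m i = (b i : Ω)) (hxE : ∀ i ∈ s, (x i : Ω) ∈ E)
    (hcop : ∀ i ∈ s, ∀ j ∈ s, i ≠ j → Nat.Coprime (b i) (b j)) :
    Den E (CommGroup.torsion Ωˣ ⊔ ⨆ i ∈ s, Subgroup.zpowers (x i)) 1 := by
  classical
  intro t ht htE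
  obtain ⟨ζ, hζ, y, hy, hty⟩ := Subgroup.mem_sup.1 ht
  obtain ⟨j, rfl⟩ := mem_iSup_zpowers x s y hy
  obtain ⟨N0, hN0, hζN⟩ := isOfFinOrder_iff_pow_eq_one.1 ((CommGroup.mem_torsion ζ).1 hζ)
  -- exponents
  set jp : ι → ℕ := fun i => (j i).toNat with hjp
  set jm : ι → ℕ := fun i => (-(j i)).toNat with hjm
  have hjz : ∀ i, j i + (jm i : ℤ) = (jp i : ℤ) := by
    intro i
    simp only [hjp, hjm]
    omega
  have hj0 : ∀ i, jp i = 0 ∨ jm i = 0 := by
    intro i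
    simp only [hjp, hjm]
    omega
  -- the identity of units
  have hunit : t * ∏ i ∈ s, x i ^ jm i = ζ * ∏ i ∈ s, x i ^ jp i := by
    rw [← hty, mul_assoc, ← Finset.prod_mul_distrib]
    congr 1
    refine Finset.prod_congr rfl fun i _ => ?_
    rw [← zpow_natCast, ← zpow_add, hjz, zpow_natCast]
  -- elements of E
  have hprodE : ∀ e : ι → ℕ, ((∏ i ∈ s, x i ^ e i : Ωˣ) : Ω) ∈ E := by
    intro e
    rw [Units.coe_prod]
    refine prod_mem fun i hi => ?_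
    rw [Units.val_pow_eq_pow_val]
    exact pow_mem (hxE i hi) _
  have hζE : (ζ : Ω) ∈ E := by
    have h1 : (ζ : Ω) = (t : Ω) * ((∏ i ∈ s, x i ^ jm i : Ωˣ) : Ω) *
        ((∏ i ∈ s, x i ^ jp i : Ωˣ) : Ω)⁻¹ := by
      have h2 := congrArg (fun u : Ωˣ => (u : Ω)) hunit
      simp only [Units.val_mul] at h2
      rw [h2, mul_assoc, mul_inv_cancel₀ (Units.ne_zero _), mul_one]
    rw [h1]
    exact mul_mem (mul_mem htE (hprodE jm)) (inv_mem (hprodE jp))
  let X : ι → E := fun i => if h : i ∈ s then ⟨(x i : Ω), hxE i h⟩ else 1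
  have hX : ∀ i ∈ s, ((X i : E) : Ω) = (x i : Ω) := by
    intro i hi
    simp only [X, dif_pos hi]
  have hXm : ∀ i ∈ s, X i ^ m i = (b i : E) := by
    intro i hi
    apply Subtype.ext
    have h1 : ((X i ^ m i : E) : Ω) = ((X i : E) : Ω) ^ m i := rfl
    rw [h1, hX i hi, hx i hi]
    simp
  have hXint : ∀ i, IsIntegral ℤ (X i) := by
    intro i
    by_cases hi : i ∈ s
    · exact isIntegral_of_pow_eq (X i) (m i) (b i) (hm i hi) (hXm i hi)
    · have : X i = 1 := by simp only [X, dif_neg hi]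
      rw [this]
      exact isIntegral_one
  let xo : ι → 𝓞 E := fun i => ⟨X i, hXint i⟩
  have hxo : ∀ i, ((xo i : 𝓞 E) : E) = X i := fun i => rfl
  let z : E := ⟨(ζ : Ω), hζE⟩
  have hzN : z ^ N0 = 1 := by
    apply Subtype.ext
    have h1 : ((z ^ N0 : E) : Ω) = (ζ : Ω) ^ N0 := rfl
    rw [h1, ← Units.val_pow_eq_pow_val, hζN]
    rfl
  let zo : 𝓞 E := ⟨z, isIntegral_of_pow_eq z N0 1 hN0 (by rw [hzN]; simp)⟩
  have hzo : ((zo : 𝓞 E) : E) = z := rfl
  set g1 : 𝓞 E := zo * ∏ i ∈ s, xo i ^ jp i with hg1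
  set g2 : 𝓞 E := ∏ i ∈ s, xo i ^ jm i with hg2
  have hcoe : ∀ e : ι → ℕ, (((∏ i ∈ s, xo i ^ e i : 𝓞 E) : E)) = ∏ i ∈ s, X i ^ e i := by
    intro e
    refine (map_prod (algebraMap (𝓞 E) E) _ _).trans ?_
    refine Finset.prod_congr rfl fun i _ => ?_
    exact map_pow (algebraMap (𝓞 E) E) (xo i) (e i)
  have hcoeΩ : ∀ e : ι → ℕ, ((∏ i ∈ s, X i ^ e i : E) : Ω) = ((∏ i ∈ s, x i ^ e i : Ωˣ) : Ω) := by
    intro e
    rw [Units.coe_prod]
    have h1 : ((∏ i ∈ s, X i ^ e i : E) : Ω) = ∏ i ∈ s, ((X i ^ e i : E) : Ω) :=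
      map_prod (E.val : E →+* Ω) _ _
    rw [h1]
    refine Finset.prod_congr rfl fun i hi => ?_
    rw [Units.val_pow_eq_pow_val, ← hX i hi]
    rfl
  have hg1E : (g1 : E) = z * ∏ i ∈ s, X i ^ jp i := by
    rw [← hcoe jp]
    exact map_mul (algebraMap (𝓞 E) E) zo _
  have hg2E : (g2 : E) = ∏ i ∈ s, X i ^ jm i := by
    rw [hg2, hcoe jm]
  have hg1Ω : ((g1 : E) : Ω) = ((ζ * ∏ i ∈ s, x i ^ jp i : Ωˣ) : Ω) := by
    rw [hg1E, Units.val_mul, ← hcoeΩ jp]
    rfl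
  have hg2Ω : ((g2 : E) : Ω) = ((∏ i ∈ s, x i ^ jm i : Ωˣ) : Ω) := by
    rw [hg2E, hcoeΩ jm]
  -- norms of the conjugates
  have hβ : ∀ (τ : E →+* ℂ), ∀ i ∈ s, ‖τ (X i)‖ = beta (m i) (b i) := by
    intro τ i hi
    have h1 : ‖τ (X i)‖ ^ m i = beta (m i) (b i) ^ m i := by
      rw [beta_pow _ _ (hm i hi), ← norm_pow, ← map_pow, hXm i hi, map_natCast]
      simp
    exact (pow_left_inj₀ (norm_nonneg _) (beta_pos _ _ (hb i hi)).le
      (by have := hm i hi; omega)).1 h1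
  have hnorm : ∀ (τ : E →+* ℂ) (e : ι → ℕ), ‖τ (∏ i ∈ s, X i ^ e i)‖
      = ∏ i ∈ s, beta (m i) (b i) ^ e i := by
    intro τ e
    rw [map_prod, norm_prod]
    refine Finset.prod_congr rfl fun i hi => ?_
    rw [map_pow, norm_pow, hβ τ i hi]
  -- the common exponent
  set n : ℕ := N0 * ∏ i ∈ s, m i with hn
  have hmdvd : ∀ i ∈ s, m i ∣ n := fun i hi => (Finset.dvd_prod_of_mem m hi).mul_left N0
  have hnpos : 0 < n := by
    refine Nat.mul_pos hN0 (Finset.prod_pos fun i hi => ?_)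
    exact hm i hi
  set c : ι → ℕ := fun i => n / m i with hc
  have hnc : ∀ i ∈ s, n = m i * c i := fun i hi => (Nat.mul_div_cancel' (hmdvd i hi)).symm
  set A : ℕ := ∏ i ∈ s, b i ^ (jp i * c i) with hA
  set B : ℕ := ∏ i ∈ s, b i ^ (jm i * c i) with hB
  have hApos : 0 < A := Finset.prod_pos fun i hi => pow_pos (hb i hi) _
  have hBpos : 0 < B := Finset.prod_pos fun i hi => pow_pos (hb i hi) _
  have hR : ∀ e : ι → ℕ, (∏ i ∈ s, beta (m i) (b i) ^ e i) ^ n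
      = ((∏ i ∈ s, b i ^ (e i * c i) : ℕ) : ℝ) := by
    intro e
    rw [den_prod_pow s (fun i => beta (m i) (b i)) (fun i => (b i : ℝ)) e c m n
      (fun i hi => beta_pow _ _ (hm i hi)) hnc]
    push_cast
    rfl
  have hXn : ∀ e : ι → ℕ, ((∏ i ∈ s, x i ^ e i : Ωˣ) : Ω) ^ n
      = ((∏ i ∈ s, b i ^ (e i * c i) : ℕ) : Ω) := by
    intro e
    rw [Units.coe_prod]
    simp only [Units.val_pow_eq_pow_val]
    rw [den_prod_pow s (fun i => (x i : Ω)) (fun i => (b i : Ω)) e c m n hx hnc]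
    push_cast
    rfl
  have hcopAB : Nat.Coprime A B := by
    refine Nat.Coprime.prod_left fun i hi => Nat.Coprime.prod_right fun k hk => ?_
    by_cases hik : i = k
    · subst hik
      rcases hj0 i with h | h
      · rw [h, zero_mul, pow_zero]
        exact Nat.coprime_one_left _
      · rw [h, zero_mul, pow_zero]
        exact Nat.coprime_one_right _
    · exact Nat.Coprime.pow _ _ (hcop i hi k hk hik)
  -- the power `t ^ n`
  have htn : (t : Ω) ^ n = algebraMap ℚ Ω ((A : ℚ) / (B : ℚ)) := by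
    have h1 := congrArg (fun u : Ωˣ => (u : Ω) ^ n) hunit
    simp only [Units.val_mul, mul_pow] at h1
    rw [hXn jm, hXn jp] at h1
    have h2 : (ζ : Ω) ^ n = 1 := by
      rw [hn, pow_mul, ← Units.val_pow_eq_pow_val, hζN, Units.val_one, one_pow]
    rw [h2, one_mul] at h1
    have hB0 : ((B : ℕ) : Ω) ≠ 0 := by
      rw [Nat.cast_ne_zero]; exact hBpos.ne'
    rw [map_div₀, map_natCast, map_natCast, eq_div_iff hB0]
    exact h1
  have htint : IsIntegral ℚ (t : Ω) :=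
    (Algebra.IsIntegral.isIntegral (R := ℚ) (⟨(t : Ω), htE⟩ : E)).map E.val
  have hheight : (n : ℝ) * absLogHeight₁ (t : Ω) = Real.log (max (A : ℝ) (B : ℝ)) := by
    rw [← absLogHeight_pow Ω (t : Ω) htint n, htn,
      absLogHeight_eq ℚ Ω (algebraMap ℚ Ω) ((A : ℚ) / (B : ℚ)), Module.finrank_self, Nat.cast_one,
      div_one, Rat.logHeight₁_eq_log_max]
    have hnum : ((A : ℚ) / (B : ℚ)).num = (A : ℤ) := by
      have := Rat.num_div_eq_of_coprime (a := (A : ℤ)) (b := (B : ℤ)) (by exact_mod_cast hBpos)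
        (by simpa using hcopAB)
      simpa using this
    have hden : ((A : ℚ) / (B : ℚ)).den = B := by
      have := Rat.den_div_eq_of_coprime (a := (A : ℤ)) (b := (B : ℤ)) (by exact_mod_cast hBpos)
        (by simpa using hcopAB)
      have h2 : ((((A : ℚ) / (B : ℚ)).den : ℕ) : ℤ) = (B : ℤ) := by simpa using this
      exact_mod_cast h2
    rw [hnum, hden]
    simp
  have hfinal : ∀ e : ι → ℕ, ((∏ i ∈ s, b i ^ (e i * c i) : ℕ) : ℝ) ≤ max (A : ℝ) (B : ℝ) →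
      ∏ i ∈ s, beta (m i) (b i) ^ e i ≤ Real.exp (1 * absLogHeight₁ (t : Ω)) := by
    intro e he
    have hRpos : 0 < ∏ i ∈ s, beta (m i) (b i) ^ e i :=
      Finset.prod_pos fun i hi => pow_pos (beta_pos _ _ (hb i hi)) _
    rw [one_mul, ← Real.log_le_iff_le_exp hRpos]
    have hn' : (0 : ℝ) < n := by exact_mod_cast hnpos
    refine le_of_mul_le_mul_left ?_ hn'
    rw [hheight, ← Real.log_pow, hR e]
    refine Real.log_le_log ?_ he
    rw [← hR e]
    positivity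
  refine ⟨g1, g2, ?_, ?_, ?_, ?_⟩
  · intro h
    have h1 : ((g1 : E) : Ω) = 0 := by rw [h]; rfl
    rw [hg1Ω] at h1
    exact Units.ne_zero _ h1
  · intro h
    have h1 : ((g2 : E) : Ω) = 0 := by rw [h]; rfl
    rw [hg2Ω] at h1
    exact Units.ne_zero _ h1
  · rw [hg1Ω, hg2Ω, ← Units.val_mul, hunit]
  · intro τ
    constructor
    · rw [hg1E, map_mul, norm_mul, hnorm τ jp]
      have : ‖τ z‖ = 1 := by
        refine norm_eq_one_of_pow hN0 ?_
        rw [← map_pow, hzN, map_one]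
      rw [this, one_mul]
      exact hfinal jp (le_max_left _ _)
    · rw [hg2E, hnorm τ jm]
      exact hfinal jm (le_max_right _ _)

end Pool.Agent.H4.RR
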