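import Pool.Agent.H4.RR.Defs

/-!
# Module FamDet (MP_187c26_nt, real radical towers)

The coefficient determinant of the family is `rho D u v * (w.coeff n)^(m - 2D)`.

Proof: rows `r < 2D` have degree `< 2D`, so their coefficients in columns `i ≥ 2D` vanish; row
`r ≥ 2D` is `X^(r-n) w` with degree `≤ r`, coefficient `w.coeff n` in column `r` and `0` in
columns `i > r`. So the matrix is block lower triangular with diagonal blocks the Sylvester
matrix of `rho` and a lower triangular matrix with constant diagonal `w.coeff n`. Reindex by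
`finSumFinEquiv : Fin (2D) ⊕ Fin (m - 2D) ≃ Fin (2D + (m-2D))` and `Fin.castOrderIso`
(`Matrix.det_reindex_self`/`Matrix.det_submatrix_equiv_self`), then `Matrix.det_fromBlocks_zero₁₂`
and `Matrix.det_of_lowerTriangular`; or use `Matrix.BlockTriangular` API
(`Matrix.twoBlockTriangular_det'`) with predicate `(i : ℕ) < 2 * D`.
It is convenient to first obtain `m = 2*D + k` and `subst`.
-/

set_option autoImplicit false

open Polynomial

namespace Pool.Agent.H4.RR

theorem fd_natDegree {R : Type*} [CommRing R] (a : ℕ) (p : R[X]) :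
    (X ^ a * p).natDegree ≤ a + p.natDegree := by
  refine le_trans natDegree_mul_le ?_
  gcongr
  exact natDegree_X_pow_le a

theorem famDet_eq {R : Type*} [CommRing R] (m D n : ℕ) (hD : 2 * D ≤ m) (hn : n ≤ 2 * D)
    (u v w : R[X]) (hu : u.natDegree ≤ D) (hv : v.natDegree ≤ D) (hw : w.natDegree ≤ n) :
    famDet m D n u v w = rho D u v * (w.coeff n) ^ (m - 2 * D) := by
  obtain ⟨k, rfl⟩ := Nat.exists_eq_add_of_le hD
  rw [Nat.add_sub_cancel_left]
  unfold famDet
  set M : Matrix (Fin (2 * D + k)) (Fin (2 * D + k)) R :=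
    Matrix.of fun r i => (fam D n u v w (r : ℕ)).coeff (i : ℕ) with hM
  set A : Matrix (Fin (2 * D)) (Fin (2 * D)) R :=
    Matrix.of fun r i => (fam D 0 u v 0 (r : ℕ)).coeff (i : ℕ) with hA
  set C : Matrix (Fin k) (Fin (2 * D)) R :=
    Matrix.of fun r i => (fam D n u v w (2 * D + (r : ℕ))).coeff (i : ℕ) with hC
  set B : Matrix (Fin k) (Fin k) R :=
    Matrix.of fun r i => (fam D n u v w (2 * D + (r : ℕ))).coeff (2 * D + (i : ℕ)) with hB
  have hlow : ∀ r : ℕ, r < 2 * D → fam D n u v w r = fam D 0 u v 0 r := by
    intro r hr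
    unfold fam
    by_cases h1 : r < D
    · rw [if_pos h1, if_pos h1]
    · rw [if_neg h1, if_neg h1, if_pos hr, if_pos hr]
  have hhigh : ∀ r : ℕ, fam D n u v w (2 * D + r) = X ^ (2 * D + r - n) * w := by
    intro r
    unfold fam
    rw [if_neg (by omega), if_neg (by omega)]
  have hdeg : ∀ r : ℕ, r < 2 * D → (fam D n u v w r).natDegree < 2 * D := by
    intro r hr
    unfold fam
    by_cases h1 : r < D
    · rw [if_pos h1]
      have := fd_natDegree r u
      omega
    · rw [if_neg h1, if_pos hr]
      have := fd_natDegree (r - D) v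
      omega
  have hblock : M.submatrix finSumFinEquiv finSumFinEquiv = Matrix.fromBlocks A 0 C B := by
    ext r i
    rcases r with r | r <;> rcases i with i | i
    · simp only [Matrix.submatrix_apply, finSumFinEquiv_apply_left, Matrix.fromBlocks_apply₁₁,
        hM, hA, Matrix.of_apply, Fin.val_castAdd]
      rw [hlow r.val r.2]
    · simp only [Matrix.submatrix_apply, finSumFinEquiv_apply_left, finSumFinEquiv_apply_right,
        Matrix.fromBlocks_apply₁₂, hM, Matrix.of_apply, Fin.val_castAdd, Fin.val_natAdd,
        Matrix.zero_apply]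
      refine coeff_eq_zero_of_natDegree_lt ?_
      have := hdeg r.val r.2
      omega
    · simp only [Matrix.submatrix_apply, finSumFinEquiv_apply_left, finSumFinEquiv_apply_right,
        Matrix.fromBlocks_apply₂₁, hM, hC, Matrix.of_apply, Fin.val_castAdd, Fin.val_natAdd]
    · simp only [Matrix.submatrix_apply, finSumFinEquiv_apply_right,
        Matrix.fromBlocks_apply₂₂, hM, hB, Matrix.of_apply, Fin.val_natAdd]
  have hdetB : B.det = (w.coeff n) ^ k := by
    rw [Matrix.det_of_lowerTriangular B]
    · rw [Finset.prod_congr rfl (g := fun _ => w.coeff n)]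
      · simp
      · intro i _
        simp only [hB, Matrix.of_apply]
        rw [hhigh]
        have e : 2 * D + (i : ℕ) = n + (2 * D + (i : ℕ) - n) := by omega
        conv_lhs => rw [e]
        rw [Nat.add_sub_cancel_left, mul_comm, coeff_mul_X_pow]
    · intro r i hri
      have hri' : (r : ℕ) < (i : ℕ) := by
        have : r < i := hri
        exact this
      simp only [hB, Matrix.of_apply]
      rw [hhigh]
      refine coeff_eq_zero_of_natDegree_lt ?_
      have := fd_natDegree (2 * D + (r : ℕ) - n) w
      omega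
  rw [← Matrix.det_submatrix_equiv_self finSumFinEquiv M, hblock, Matrix.det_fromBlocks_zero₁₂,
    hdetB]
  rfl

end Pool.Agent.H4.RR
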