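import Pool.Agent.H4.RR.Iw
import Pool.Agent.H4.RR.HeightIdeal

/-!
# Core inequality (MP_187c26_nt, real radical towers)
-/

set_option autoImplicit false
set_option linter.unusedSectionVars false

open NumberField Polynomial

namespace Pool.Agent.H4.RR

lemma le_of_sq_le_sq' {a c : ℝ} (h : a ^ 2 ≤ c ^ 2) (hc : 0 ≤ c) : a ≤ c :=
  le_of_sq_le_sq h hc

/-- AM-GM. -/
lemma prod_le_mean_pow {ι : Type*} [Fintype ι] [Nonempty ι] (a : ι → ℝ) (ha : ∀ i, 0 ≤ a i) :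
    ∏ i, a i ≤ ((∑ i, a i) / Fintype.card ι) ^ (Fintype.card ι) := by
  have hc : (0 : ℝ) < Fintype.card ι := by exact_mod_cast Fintype.card_pos
  have h := Real.geom_mean_le_arith_mean_weighted (Finset.univ : Finset ι)
    (fun _ => 1 / (Fintype.card ι : ℝ)) a (fun i _ => by positivity)
    (by simp [Finset.sum_const, Finset.card_univ]) (fun i _ => ha i)
  have h1 : ∏ i, a i ^ (1 / (Fintype.card ι : ℝ)) = (∏ i, a i) ^ (1 / (Fintype.card ι : ℝ)) := by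
    rw [Real.finsetProd_rpow _ _ (fun i _ => ha i)]
  have h2 : ∑ i, (1 / (Fintype.card ι : ℝ)) * a i = (∑ i, a i) / Fintype.card ι := by
    rw [← Finset.mul_sum]; ring
  rw [h1, h2] at h
  have hp : 0 ≤ ∏ i, a i := Finset.prod_nonneg (fun i _ => ha i)
  calc ∏ i, a i = ((∏ i, a i) ^ (1 / (Fintype.card ι : ℝ))) ^ (Fintype.card ι) := by
        rw [← Real.rpow_natCast, ← Real.rpow_mul hp, one_div_mul_cancel hc.ne', Real.rpow_one]
    _ ≤ ((∑ i, a i) / Fintype.card ι) ^ (Fintype.card ι) := by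
        apply pow_le_pow_left₀ (by positivity) h

section

variable {K : Type} [Field K] [NumberField K]

/-- The image of an integral polynomial under an embedding. -/
noncomputable def cmap (τ : K →+* ℂ) (w : (𝓞 K)[X]) : ℂ[X] :=
  w.map (τ.comp (algebraMap (𝓞 K) K))

/-- The weights `max (|u(x_j)|, |v(x_j)|)`. -/
noncomputable def wt (m b : ℕ) (u v : (𝓞 K)[X]) (τ : K →+* ℂ) (j : Fin m) : ℝ :=
  max ‖(cmap τ u).eval (node m b j)‖ ‖(cmap τ v).eval (node m b j)‖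

lemma cmap_natDegree_le (τ : K →+* ℂ) (w : (𝓞 K)[X]) : (cmap τ w).natDegree ≤ w.natDegree :=
  natDegree_map_le

lemma cmap_coeff (τ : K →+* ℂ) (w : (𝓞 K)[X]) (n : ℕ) :
    (cmap τ w).coeff n = τ ((w.coeff n : 𝓞 K) : K) := by
  simp [cmap, coeff_map]

lemma cmap_rho (τ : K →+* ℂ) (D : ℕ) (u v : (𝓞 K)[X]) :
    rho D (cmap τ u) (cmap τ v) = τ ((rho D u v : 𝓞 K) : K) := by
  unfold cmap
  rw [← rho_map]
  rfl

variable (m b D : ℕ) (u v : (𝓞 K)[X])

/-- (I_w) for an embedding. -/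
lemma Iw_tau (hm : 1 ≤ m) (hb : 1 ≤ b) (hD : 2 * D ≤ m) (hu : u.natDegree ≤ D)
    (hv : v.natDegree ≤ D) (hpos : ∀ (τ : K →+* ℂ) (j : Fin m), 0 < wt m b u v τ j)
    (w : (𝓞 K)[X]) (n : ℕ) (hw : w.natDegree ≤ n) (hn : n ≤ 2 * D) (τ : K →+* ℂ) :
    ‖τ ((rho D u v * (w.coeff n) ^ (m - 2 * D) : 𝓞 K) : K)‖ ^ 2
        * beta m b ^ (2 * (D ^ 2 + n * (m - 2 * D)))
      ≤ (∏ j, wt m b u v τ j) ^ 2 * (nsq m b (wt m b u v τ) (cmap τ w)) ^ (m - 2 * D) := by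
  have h := Iw m b D n hm hb hD hn (cmap τ u) (cmap τ v) (cmap τ w)
    ((cmap_natDegree_le τ u).trans hu) ((cmap_natDegree_le τ v).trans hv)
    ((cmap_natDegree_le τ w).trans hw) (wt m b u v τ) (hpos τ)
    (fun j => le_max_left _ _) (fun j => le_max_right _ _)
  rw [cmap_rho, cmap_coeff] at h
  rw [← Finset.prod_pow]
  refine le_trans (le_of_eq ?_) h
  push_cast
  rw [map_mul, map_pow, norm_mul, norm_pow]
  ring

/-- Product of (I_w) over the embeddings. -/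
lemma prod_Iw (hm : 1 ≤ m) (hb : 1 ≤ b) (hD : 2 * D ≤ m) (hu : u.natDegree ≤ D)
    (hv : v.natDegree ≤ D) (hpos : ∀ (τ : K →+* ℂ) (j : Fin m), 0 < wt m b u v τ j)
    (w : (𝓞 K)[X]) (n : ℕ) (hw : w.natDegree ≤ n) (hn : n ≤ 2 * D) :
    (∏ τ : K →+* ℂ, ‖τ ((rho D u v * (w.coeff n) ^ (m - 2 * D) : 𝓞 K) : K)‖) ^ 2
        * (beta m b ^ (2 * (D ^ 2 + n * (m - 2 * D)))) ^ (Fintype.card (K →+* ℂ))
      ≤ (∏ τ : K →+* ℂ, ∏ j, wt m b u v τ j) ^ 2
        * ∏ τ : K →+* ℂ, (nsq m b (wt m b u v τ) (cmap τ w)) ^ (m - 2 * D) := by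
  have h : ∏ τ : K →+* ℂ, (‖τ ((rho D u v * (w.coeff n) ^ (m - 2 * D) : 𝓞 K) : K)‖ ^ 2
        * beta m b ^ (2 * (D ^ 2 + n * (m - 2 * D))))
      ≤ ∏ τ : K →+* ℂ, ((∏ j, wt m b u v τ j) ^ 2
        * (nsq m b (wt m b u v τ) (cmap τ w)) ^ (m - 2 * D)) := by
    apply Finset.prod_le_prod
    · intro τ _
      have := beta_pos m b hb
      positivity
    · intro τ _
      exact Iw_tau m b D u v hm hb hD hu hv hpos w n hw hn τ
  rw [Finset.prod_mul_distrib, Finset.prod_mul_distrib, Finset.prod_pow, Finset.prod_const,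
    Finset.prod_pow, Finset.card_univ] at h
  exact h

lemma nsq_u_le (hpos : ∀ (τ : K →+* ℂ) (j : Fin m), 0 < wt m b u v τ j) (τ : K →+* ℂ) :
    nsq m b (wt m b u v τ) (cmap τ u) ≤ 1 :=
  nsq_le_one m b _ (hpos τ) _ (fun _ => le_max_left _ _)

lemma nsq_v_le (hpos : ∀ (τ : K →+* ℂ) (j : Fin m), 0 < wt m b u v τ j) (τ : K →+* ℂ) :
    nsq m b (wt m b u v τ) (cmap τ v) ≤ 1 :=
  nsq_le_one m b _ (hpos τ) _ (fun _ => le_max_right _ _)

lemma tau_le (hm : 1 ≤ m) (hb : 1 ≤ b) (hD : 2 * D ≤ m) (hu : u.natDegree ≤ D)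
    (hv : v.natDegree ≤ D) (hpos : ∀ (τ : K →+* ℂ) (j : Fin m), 0 < wt m b u v τ j)
    (w : (𝓞 K)[X]) (n : ℕ) (hw : w.natDegree ≤ n) (hn : n ≤ 2 * D) (τ : K →+* ℂ)
    (hns : nsq m b (wt m b u v τ) (cmap τ w) ≤ 1) :
    ‖τ ((rho D u v * (w.coeff n) ^ (m - 2 * D) : 𝓞 K) : K)‖ * beta m b ^ (D ^ 2)
      ≤ ∏ j, wt m b u v τ j := by
  have h := Iw_tau m b D u v hm hb hD hu hv hpos w n hw hn τ
  have hbeta := one_le_beta m b hb
  have hP : 0 ≤ ∏ j, wt m b u v τ j := Finset.prod_nonneg (fun j _ => (hpos τ j).le)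
  have h1 : (nsq m b (wt m b u v τ) (cmap τ w)) ^ (m - 2 * D) ≤ 1 :=
    pow_le_one₀ (nsq_nonneg _ _ _ _) hns
  have h2 : (‖τ ((rho D u v * (w.coeff n) ^ (m - 2 * D) : 𝓞 K) : K)‖ * beta m b ^ (D ^ 2)) ^ 2
      ≤ (∏ j, wt m b u v τ j) ^ 2 := by
    calc (‖τ ((rho D u v * (w.coeff n) ^ (m - 2 * D) : 𝓞 K) : K)‖ * beta m b ^ (D ^ 2)) ^ 2
        = ‖τ ((rho D u v * (w.coeff n) ^ (m - 2 * D) : 𝓞 K) : K)‖ ^ 2
            * beta m b ^ (2 * D ^ 2) := by ring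
      _ ≤ ‖τ ((rho D u v * (w.coeff n) ^ (m - 2 * D) : 𝓞 K) : K)‖ ^ 2
            * beta m b ^ (2 * (D ^ 2 + n * (m - 2 * D))) := by
          apply mul_le_mul_of_nonneg_left _ (by positivity)
          apply pow_le_pow_right₀ hbeta
          nlinarith [Nat.zero_le (n * (m - 2 * D))]
      _ ≤ (∏ j, wt m b u v τ j) ^ 2
            * (nsq m b (wt m b u v τ) (cmap τ w)) ^ (m - 2 * D) := h
      _ ≤ (∏ j, wt m b u v τ j) ^ 2 * 1 := by
          apply mul_le_mul_of_nonneg_left h1 (by positivity)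
      _ = (∏ j, wt m b u v τ j) ^ 2 := mul_one _
  exact le_of_sq_le_sq' h2 hP

lemma famDet_mem (𝔫 : Ideal (𝓞 K)) (hD : 2 * D ≤ m) (hu : u.natDegree ≤ D)
    (hv : v.natDegree ≤ D)
    (hdet : ∀ (n : ℕ) (s t : (𝓞 K)[X]), (s * u + t * v).natDegree ≤ n → n ≤ 2 * D →
      famDet m D n u v (s * u + t * v) ∈ 𝔫)
    (s t w : (𝓞 K)[X]) (hw : w = s * u + t * v) (n : ℕ) (hwn : w.natDegree ≤ n)
    (hn : n ≤ 2 * D) : rho D u v * (w.coeff n) ^ (m - 2 * D) ∈ 𝔫 := by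
  rw [← famDet_eq m D n hD hn u v w hu hv hwn, hw]
  apply hdet n s t _ hn
  rw [← hw]
  exact hwn

lemma absNorm_pos (𝔫 : Ideal (𝓞 K)) (hn0 : 𝔫 ≠ ⊥) : (0 : ℝ) < Ideal.absNorm 𝔫 := by
  have : Ideal.absNorm 𝔫 ≠ 0 := by
    rw [Ne, Ideal.absNorm_eq_zero_iff]
    exact hn0
  exact_mod_cast Nat.pos_of_ne_zero this

/-- The height of the ratio of leading coefficients. -/
lemma ratio_le (hm : 1 ≤ m) (hb : 1 ≤ b) (hD : 2 * D ≤ m) (hu : u.natDegree = D)
    (hv : v.natDegree ≤ D) (hv0 : v ≠ 0) (hrho : rho D u v ≠ 0)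
    (hpos : ∀ (τ : K →+* ℂ) (j : Fin m), 0 < wt m b u v τ j)
    (𝔫 : Ideal (𝓞 K)) (hn0 : 𝔫 ≠ ⊥) (H : ℝ)
    (hH : (Ideal.absNorm 𝔫 : ℝ) * H = ∏ τ : K →+* ℂ, ∏ j, wt m b u v τ j)
    (hdet : ∀ (n : ℕ) (s t : (𝓞 K)[X]), (s * u + t * v).natDegree ≤ n → n ≤ 2 * D →
      famDet m D n u v (s * u + t * v) ∈ 𝔫) :
    Height.mulHeight₁ ((u.coeff D : K) / (v.coeff v.natDegree : K)) ^ (m - 2 * D)
      * (beta m b ^ (D ^ 2)) ^ (Fintype.card (K →+* ℂ)) ≤ H := by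
  set k := m - 2 * D with hk
  set a : 𝓞 K := rho D u v * (u.coeff D) ^ k with ha
  set c : 𝓞 K := rho D u v * (v.coeff v.natDegree) ^ k with hc
  have hvl : v.coeff v.natDegree ≠ 0 := by
    rw [coeff_natDegree]; exact leadingCoeff_ne_zero.mpr hv0
  have hc0 : c ≠ 0 := mul_ne_zero hrho (pow_ne_zero _ hvl)
  have hamem : a ∈ 𝔫 := famDet_mem m D u v 𝔫 hD hu.le hv hdet 1 0 u (by ring) D hu.le (by omega)
  have hcmem : c ∈ 𝔫 := famDet_mem m D u v 𝔫 hD hu.le hv hdet 0 1 v (by ring) v.natDegree le_rfl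
    (by omega)
  have hspan : Ideal.span {c, a} ≤ 𝔫 := by
    rw [Ideal.span_le]
    intro y hy
    rcases hy with rfl | hy
    · exact hcmem
    · rw [Set.mem_singleton_iff] at hy
      rw [hy]; exact hamem
  have hspan0 : Ideal.span {c, a} ≠ ⊥ := by
    intro h0
    apply hc0
    have : c ∈ Ideal.span {c, a} := Ideal.subset_span (by simp)
    rw [h0] at this
    exact (Submodule.mem_bot _).mp this
  have hA := absNorm_pos 𝔫 hn0
  have h1 := height_mul_absNorm K c a hc0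
  have h2 := absNorm_le_of_le K (Ideal.span {c, a}) 𝔫 hspan hspan0
  have hbeta := beta_pos m b hb
  -- the ratio
  have hrat : (a : K) / (c : K) = ((u.coeff D : K) / (v.coeff v.natDegree : K)) ^ k := by
    have hrho' : ((rho D u v : 𝓞 K) : K) ≠ 0 := by
      exact_mod_cast hrho
    rw [ha, hc]
    push_cast
    rw [mul_div_mul_left _ _ hrho', div_pow]
  -- archimedean bound
  have h3 : ∀ τ : K →+* ℂ, max ‖τ (c : K)‖ ‖τ (a : K)‖ * beta m b ^ (D ^ 2)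
      ≤ ∏ j, wt m b u v τ j := by
    intro τ
    rw [max_mul_of_nonneg _ _ (by positivity)]
    apply max_le
    · exact tau_le m b D u v hm hb hD hu.le hv hpos v v.natDegree le_rfl (by omega) τ
        (nsq_v_le m b u v hpos τ)
    · exact tau_le m b D u v hm hb hD hu.le hv hpos u D hu.le (by omega) τ
        (nsq_u_le m b u v hpos τ)
  have h4 : (∏ τ : K →+* ℂ, max ‖τ (c : K)‖ ‖τ (a : K)‖)
      * (beta m b ^ (D ^ 2)) ^ (Fintype.card (K →+* ℂ))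
      ≤ ∏ τ : K →+* ℂ, ∏ j, wt m b u v τ j := by
    have : ∏ τ : K →+* ℂ, (max ‖τ (c : K)‖ ‖τ (a : K)‖ * beta m b ^ (D ^ 2))
        ≤ ∏ τ : K →+* ℂ, ∏ j, wt m b u v τ j := by
      apply Finset.prod_le_prod
      · intro τ _
        positivity
      · intro τ _
        exact h3 τ
    rwa [Finset.prod_mul_distrib, Finset.prod_const, Finset.card_univ] at this
  rw [← h1, hrat, Height.mulHeight₁_pow, ← hH] at h4
  set R := Height.mulHeight₁ ((u.coeff D : K) / (v.coeff v.natDegree : K)) with hR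
  have hRpos : 0 < R := Height.mulHeight₁_pos _
  have h5 : R ^ k * (Ideal.absNorm 𝔫 : ℝ) * (beta m b ^ (D ^ 2)) ^ (Fintype.card (K →+* ℂ))
      ≤ (Ideal.absNorm 𝔫 : ℝ) * H := by
    refine le_trans ?_ h4
    gcongr
  have h6 : (Ideal.absNorm 𝔫 : ℝ) * (R ^ k * (beta m b ^ (D ^ 2)) ^ (Fintype.card (K →+* ℂ)))
      ≤ (Ideal.absNorm 𝔫 : ℝ) * H := by
    refine le_trans (le_of_eq ?_) h5
    ring
  exact le_of_mul_le_mul_left h6 hA

lemma J_gen (hm : 1 ≤ m) (hb : 1 ≤ b) (hD : 2 * D ≤ m) (hu : u.natDegree ≤ D)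
    (hv : v.natDegree ≤ D) (hpos : ∀ (τ : K →+* ℂ) (j : Fin m), 0 < wt m b u v τ j)
    (𝔫 : Ideal (𝓞 K)) (hn0 : 𝔫 ≠ ⊥) (H : ℝ)
    (hH : (Ideal.absNorm 𝔫 : ℝ) * H = ∏ τ : K →+* ℂ, ∏ j, wt m b u v τ j)
    (w : (𝓞 K)[X]) (n : ℕ) (hw : w.natDegree ≤ n) (hn : n ≤ 2 * D) (c0 : ℝ) (hc0 : 0 ≤ c0)
    (h : c0 * (Ideal.absNorm 𝔫 : ℝ)
      ≤ ∏ τ : K →+* ℂ, ‖τ ((rho D u v * (w.coeff n) ^ (m - 2 * D) : 𝓞 K) : K)‖) :
    c0 ^ 2 * (beta m b ^ (2 * (D ^ 2 + n * (m - 2 * D)))) ^ (Fintype.card (K →+* ℂ))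
      ≤ H ^ 2 * ∏ τ : K →+* ℂ, (nsq m b (wt m b u v τ) (cmap τ w)) ^ (m - 2 * D) := by
  have hA := absNorm_pos 𝔫 hn0
  have h1 := prod_Iw m b D u v hm hb hD hu hv hpos w n hw hn
  rw [← hH] at h1
  have hbeta := beta_pos m b hb
  set B := (beta m b ^ (2 * (D ^ 2 + n * (m - 2 * D)))) ^ (Fintype.card (K →+* ℂ)) with hB
  have hBpos : 0 < B := by positivity
  have h2 : (c0 * (Ideal.absNorm 𝔫 : ℝ)) ^ 2 * B
      ≤ ((Ideal.absNorm 𝔫 : ℝ) * H) ^ 2
        * ∏ τ : K →+* ℂ, (nsq m b (wt m b u v τ) (cmap τ w)) ^ (m - 2 * D) := by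
    refine le_trans ?_ h1
    gcongr
  have h3 : (Ideal.absNorm 𝔫 : ℝ) ^ 2 * (c0 ^ 2 * B)
      ≤ (Ideal.absNorm 𝔫 : ℝ) ^ 2 * (H ^ 2
        * ∏ τ : K →+* ℂ, (nsq m b (wt m b u v τ) (cmap τ w)) ^ (m - 2 * D)) := by
    refine le_trans (le_of_eq ?_) (le_trans h2 (le_of_eq ?_)) <;> ring
  exact le_of_mul_le_mul_left h3 (by positivity)

/-- The parallelogram estimate. -/
lemma parallelogram (hm : 1 ≤ m) (hb : 1 ≤ b)
    (hpos : ∀ (τ : K →+* ℂ) (j : Fin m), 0 < wt m b u v τ j) (g1 g2 : 𝓞 K) (e : ℕ) (heD : e ≤ D)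
    (τ : K →+* ℂ) (q : ℝ) (hq : 0 ≤ q) (hg1 : ‖τ (g1 : K)‖ ≤ q) (hg2 : ‖τ (g2 : K)‖ ≤ q) :
    nsq m b (wt m b u v τ) (cmap τ (C g2 * u - C g1 * X ^ e * v))
      + nsq m b (wt m b u v τ) (cmap τ (C g2 * u + C g1 * X ^ e * v))
      ≤ 2 * q ^ 2 * (1 + beta m b ^ (2 * D)) := by
  have hbeta := one_le_beta m b hb
  have hm' : (0 : ℝ) < m := by exact_mod_cast hm
  unfold nsq
  rw [← mul_add, ← Finset.sum_add_distrib]
  have key : ∀ j : Fin m,
      ‖(cmap τ (C g2 * u - C g1 * X ^ e * v)).eval (node m b j)‖ ^ 2 / (wt m b u v τ j) ^ 2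
        + ‖(cmap τ (C g2 * u + C g1 * X ^ e * v)).eval (node m b j)‖ ^ 2 / (wt m b u v τ j) ^ 2
      ≤ 2 * q ^ 2 * (1 + beta m b ^ (2 * D)) := by
    intro j
    set W := wt m b u v τ j with hW
    have hWpos : 0 < W := hpos τ j
    set a : ℂ := τ (g2 : K) * (cmap τ u).eval (node m b j) with ha
    set c : ℂ := τ (g1 : K) * node m b j ^ e * (cmap τ v).eval (node m b j) with hc
    have e1 : (cmap τ (C g2 * u - C g1 * X ^ e * v)).eval (node m b j) = a - c := by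
      simp only [cmap, Polynomial.map_sub, Polynomial.map_mul, Polynomial.map_C,
        Polynomial.map_pow, Polynomial.map_X, eval_sub, eval_mul, eval_C, eval_pow, eval_X, ha, hc]
      rfl
    have e2 : (cmap τ (C g2 * u + C g1 * X ^ e * v)).eval (node m b j) = a + c := by
      simp only [cmap, Polynomial.map_add, Polynomial.map_mul, Polynomial.map_C,
        Polynomial.map_pow, Polynomial.map_X, eval_add, eval_mul, eval_C, eval_pow, eval_X, ha, hc]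
      rfl
    rw [e1, e2, ← add_div, div_le_iff₀ (by positivity)]
    have par : ‖a - c‖ ^ 2 + ‖a + c‖ ^ 2 = 2 * (‖a‖ ^ 2 + ‖c‖ ^ 2) := by
      have := parallelogram_law_with_norm ℝ a c
      nlinarith [this]
    rw [par]
    have hna : ‖a‖ ≤ q * W := by
      rw [ha, norm_mul]
      exact mul_le_mul hg2 (le_max_left _ _) (norm_nonneg _) hq
    have hnc : ‖c‖ ≤ q * beta m b ^ D * W := by
      rw [hc, norm_mul, norm_mul, norm_pow, norm_node m b hb]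
      apply mul_le_mul _ (le_max_right _ _) (norm_nonneg _) (by positivity)
      exact mul_le_mul hg1 (pow_le_pow_right₀ hbeta heD) (by positivity) hq
    have h1 : ‖a‖ ^ 2 ≤ (q * W) ^ 2 := pow_le_pow_left₀ (norm_nonneg _) hna 2
    have h2 : ‖c‖ ^ 2 ≤ (q * beta m b ^ D * W) ^ 2 := pow_le_pow_left₀ (norm_nonneg _) hnc 2
    calc 2 * (‖a‖ ^ 2 + ‖c‖ ^ 2) ≤ 2 * ((q * W) ^ 2 + (q * beta m b ^ D * W) ^ 2) := by
          linarith
      _ = 2 * q ^ 2 * (1 + beta m b ^ (2 * D)) * W ^ 2 := by ring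
  calc (1 / (m : ℝ)) * ∑ j : Fin m,
      (‖(cmap τ (C g2 * u - C g1 * X ^ e * v)).eval (node m b j)‖ ^ 2 / (wt m b u v τ j) ^ 2
        + ‖(cmap τ (C g2 * u + C g1 * X ^ e * v)).eval (node m b j)‖ ^ 2 / (wt m b u v τ j) ^ 2)
      ≤ (1 / (m : ℝ)) * ∑ _j : Fin m, 2 * q ^ 2 * (1 + beta m b ^ (2 * D)) := by
        apply mul_le_mul_of_nonneg_left _ (by positivity)
        exact Finset.sum_le_sum (fun j _ => key j)
    _ = 2 * q ^ 2 * (1 + beta m b ^ (2 * D)) := by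
        rw [Finset.sum_const, Finset.card_univ, Fintype.card_fin, nsmul_eq_mul]
        field_simp

/-- From a product lower bound to a lower bound for the mean of `nsq`. -/
lemma mean_gt (N k : ℕ) (hN : 1 ≤ N) (hk : 1 ≤ k) {ι : Type*} [Fintype ι] [Nonempty ι]
    (hcard : Fintype.card ι = N) (X : ι → ℝ) (hX : ∀ i, 0 ≤ X i) (H c L E : ℝ) (hH : 0 < H)
    (hc : 0 < c) (h : c ≤ H ^ 2 * ∏ i, X i ^ k) (hlog : 2 * Real.log H + N * k * E < Real.log c)
    (hL : L = (∑ i, X i) / N) : Real.exp E < L := by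
  have h1 : ∏ i, X i ^ k ≤ (L ^ N) ^ k := by
    rw [Finset.prod_pow]
    apply pow_le_pow_left₀ (Finset.prod_nonneg (fun i _ => hX i))
    have := prod_le_mean_pow X hX
    rw [hcard] at this
    rw [hL]
    exact this
  have hL0 : 0 ≤ L := by
    rw [hL]
    have : 0 ≤ ∑ i, X i := Finset.sum_nonneg (fun i _ => hX i)
    positivity
  have h2 : c ≤ H ^ 2 * (L ^ N) ^ k := by
    refine le_trans h ?_
    gcongr
  have hLpos : 0 < L := by
    rcases hL0.lt_or_eq with h3 | h3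
    · exact h3
    · exfalso
      rw [← h3, zero_pow (by omega), zero_pow (by omega), mul_zero] at h2
      linarith
  have h3 : Real.log c ≤ 2 * Real.log H + N * k * Real.log L := by
    have := Real.log_le_log hc h2
    rw [Real.log_mul (by positivity) (by positivity), Real.log_pow, Real.log_pow,
      Real.log_pow] at this
    push_cast at this
    linarith
  have h4 : (N : ℝ) * k * E < N * k * Real.log L := by linarith
  have h5 : E < Real.log L := by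
    have : (0 : ℝ) < N * k := by
      have h6 : (0 : ℝ) < N := by exact_mod_cast hN
      have h7 : (0 : ℝ) < k := by exact_mod_cast hk
      positivity
    exact lt_of_mul_lt_mul_left h4 this.le
  calc Real.exp E < Real.exp (Real.log L) := Real.exp_lt_exp.mpr h5
    _ = L := Real.exp_log hLpos

theorem core (hm : 1 ≤ m) (hb : 2 ≤ b) (hD : 2 * D ≤ m) (hu : u.natDegree = D) (hu0 : u ≠ 0)
    (hv : v.natDegree ≤ D) (hv0 : v ≠ 0) (hrho : rho D u v ≠ 0)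
    (hpos : ∀ (τ : K →+* ℂ) (j : Fin m), 0 < wt m b u v τ j)
    (𝔫 : Ideal (𝓞 K)) (hn0 : 𝔫 ≠ ⊥) (H : ℝ)
    (hH : (Ideal.absNorm 𝔫 : ℝ) * H = ∏ τ : K →+* ℂ, ∏ j, wt m b u v τ j)
    (hdet : ∀ (n : ℕ) (s t : (𝓞 K)[X]), (s * u + t * v).natDegree ≤ n → n ≤ 2 * D →
      famDet m D n u v (s * u + t * v) ∈ 𝔫)
    (S : Subgroup Kˣ) (κ θ : ℝ) (hκ : 0 < κ) (hθ : 0 ≤ θ)
    (hBog : ∀ a : Kˣ, a ∉ S → κ * Module.finrank ℚ K ≤ Height.logHeight₁ (a : K))
    (hDen : ∀ s ∈ S, ∃ g1 g2 : 𝓞 K, g1 ≠ 0 ∧ g2 ≠ 0 ∧ (s : K) * (g2 : K) = (g1 : K) ∧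
      ∀ τ : K →+* ℂ,
        ‖τ (g1 : K)‖ ≤ Real.exp (θ * (Height.logHeight₁ (s : K) / Module.finrank ℚ K)) ∧
        ‖τ (g2 : K)‖ ≤ Real.exp (θ * (Height.logHeight₁ (s : K) / Module.finrank ℚ K)))
    (hne : ∀ (s : Kˣ) (g1 g2 : 𝓞 K), s ∈ S → g1 ≠ 0 → g2 ≠ 0 → (s : K) * (g2 : K) = (g1 : K) →
      ∀ e : ℕ, C g2 * u ≠ C g1 * X ^ e * v) :
    (Module.finrank ℚ K : ℝ) * ((D : ℝ) ^ 2 / m * Real.log b
      + ((m : ℝ) - 2 * D) * min κ (Real.log (5 / 4) / (2 + 2 * θ))) ≤ Real.log H := by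
  classical
  have hb1 : 1 ≤ b := by omega
  set N := Fintype.card (K →+* ℂ) with hNdef
  have hNK : Module.finrank ℚ K = N := (NumberField.Embeddings.card K ℂ).symm
  have hN1 : 1 ≤ N := by rw [← hNK]; exact Module.finrank_pos
  have hNpos : (0 : ℝ) < N := by exact_mod_cast hN1
  have : Nonempty (K →+* ℂ) := Fintype.card_pos_iff.mp hN1
  rw [hNK] at hBog hDen ⊢
  set κ' := min κ (Real.log (5 / 4) / (2 + 2 * θ)) with hκ'
  obtain ⟨k, hk⟩ : ∃ k, k = m - 2 * D := ⟨_, rfl⟩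
  have hkR : (k : ℝ) = (m : ℝ) - 2 * D := by
    rw [hk, Nat.cast_sub hD]; push_cast; ring
  rw [← hkR]
  have hmR : (0 : ℝ) < m := by exact_mod_cast hm
  set L := Real.log (beta m b) with hL
  have hLb : L = Real.log b / m := log_beta m b hb1
  have hlogb : 0 < Real.log b := Real.log_pos (by exact_mod_cast hb)
  have hLpos : 0 < L := by rw [hLb]; positivity
  have hDL : (D : ℝ) ^ 2 / m * Real.log b = D ^ 2 * L := by rw [hLb]; ring
  rw [hDL]
  have hbeta := beta_pos m b hb1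
  have hbeta1 := one_le_beta m b hb1
  have hA := absNorm_pos 𝔫 hn0
  have hPpos : 0 < ∏ τ : K →+* ℂ, ∏ j, wt m b u v τ j :=
    Finset.prod_pos (fun τ _ => Finset.prod_pos (fun j _ => hpos τ j))
  have hHpos : 0 < H := by
    rw [← hH] at hPpos
    exact pos_of_mul_pos_right hPpos hA.le
  by_contra hcon
  push Not at hcon
  -- the ratio of the leading coefficients
  have hr := ratio_le m b D u v hm hb1 hD hu hv hv0 hrho hpos 𝔫 hn0 H hH hdet
  rw [← hk, ← hNdef] at hr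
  set R := Height.mulHeight₁ ((u.coeff D : K) / (v.coeff v.natDegree : K)) with hR
  have hRpos : 0 < R := Height.mulHeight₁_pos _
  have hlogr : (k : ℝ) * Real.log R + N * (D ^ 2 * L) ≤ Real.log H := by
    have := Real.log_le_log (by positivity) hr
    rw [Real.log_mul (by positivity) (by positivity), Real.log_pow, Real.log_pow,
      Real.log_pow, ← hL] at this
    push_cast at this
    linarith
  have hkR1 : (k : ℝ) * Real.log R < k * (N * κ') := by nlinarith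
  rcases Nat.eq_zero_or_pos k with hk0 | hkpos
  · rw [hk0] at hkR1
    simp at hkR1
  have hkposR : (0 : ℝ) < k := by exact_mod_cast hkpos
  have hlogR : Real.log R < N * κ' := lt_of_mul_lt_mul_left hkR1 hkposR.le
  have hul : u.coeff D ≠ 0 := by
    rw [← hu, coeff_natDegree]; exact leadingCoeff_ne_zero.mpr hu0
  have hvl : v.coeff v.natDegree ≠ 0 := by
    rw [coeff_natDegree]; exact leadingCoeff_ne_zero.mpr hv0
  have hulK : ((u.coeff D : 𝓞 K) : K) ≠ 0 := by exact_mod_cast hul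
  have hvlK : ((v.coeff v.natDegree : 𝓞 K) : K) ≠ 0 := by exact_mod_cast hvl
  set γ : Kˣ := Units.mk0 ((u.coeff D : K) / (v.coeff v.natDegree : K)) (div_ne_zero hulK hvlK)
    with hγ
  have hγv : (γ : K) = (u.coeff D : K) / (v.coeff v.natDegree : K) := rfl
  have hγS : γ ∈ S := by
    by_contra hnS
    have h1 := hBog γ hnS
    have h2 : Height.logHeight₁ (γ : K) = Real.log R := rfl
    rw [h2] at h1
    have h3 : κ' ≤ κ := min_le_left _ _
    have h4 : (N : ℝ) * κ' ≤ N * κ := by gcongr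
    linarith
  obtain ⟨g1, g2, hg1, hg2, hg, hgτ⟩ := hDen γ hγS
  have hκ'θ : (2 + 2 * θ) * κ' ≤ Real.log (5 / 4) := by
    have h1 : κ' ≤ Real.log (5 / 4) / (2 + 2 * θ) := min_le_right _ _
    have h2 : (0 : ℝ) < 2 + 2 * θ := by linarith
    rw [le_div_iff₀ h2] at h1
    linarith
  set q := Real.exp (θ * κ') with hq
  have hqpos : 0 < q := Real.exp_pos _
  have hqle : Real.exp (θ * (Height.logHeight₁ (γ : K) / (N : ℝ))) ≤ q := by
    apply Real.exp_le_exp.mpr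
    apply mul_le_mul_of_nonneg_left _ hθ
    have h2 : Height.logHeight₁ (γ : K) = Real.log R := rfl
    rw [h2, div_le_iff₀ hNpos]
    linarith
  have hg1τ : ∀ τ : K →+* ℂ, ‖τ (g1 : K)‖ ≤ q := fun τ => (hgτ τ).1.trans hqle
  have hg2τ : ∀ τ : K →+* ℂ, ‖τ (g2 : K)‖ ≤ q := fun τ => (hgτ τ).2.trans hqle
  have hrel : u.coeff D * g2 = g1 * v.coeff v.natDegree := by
    have h1 : ((u.coeff D : 𝓞 K) : K) * (g2 : K) = (g1 : K) * ((v.coeff v.natDegree : 𝓞 K) : K) := by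
      rw [hγv, div_mul_eq_mul_div, div_eq_iff hvlK] at hg
      exact hg
    exact_mod_cast h1
  set n := v.natDegree with hn
  obtain ⟨e, he⟩ : ∃ e, D = n + e := ⟨D - n, by omega⟩
  set w : (𝓞 K)[X] := C g2 * u - C g1 * X ^ e * v with hw
  set wp : (𝓞 K)[X] := C g2 * u + C g1 * X ^ e * v with hwp
  have hw0 : w ≠ 0 := sub_ne_zero.mpr (hne γ g1 g2 hγS hg1 hg2 hg e)
  have hdeg1 : (C g2 * u).natDegree ≤ D := by
    refine (natDegree_C_mul_le _ _).trans hu.le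
  have hdeg2 : (C g1 * X ^ e * v).natDegree ≤ D := by
    rw [mul_assoc]
    refine (natDegree_C_mul_le _ _).trans (natDegree_mul_le.trans ?_)
    have := natDegree_X_pow_le (R := 𝓞 K) e
    omega
  have hwdeg : w.natDegree ≤ D := (natDegree_sub_le _ _).trans (max_le hdeg1 hdeg2)
  have hwpdeg : wp.natDegree ≤ D := (natDegree_add_le _ _).trans (max_le hdeg1 hdeg2)
  have hwpc : wp.coeff D = 2 * g2 * u.coeff D := by
    rw [hwp, coeff_add, coeff_C_mul, mul_assoc, coeff_C_mul]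
    have : (X ^ e * v).coeff D = v.coeff n := by
      rw [he, coeff_X_pow_mul]
    rw [this, ← hrel]
    ring
  -- J for w
  have hwmem : rho D u v * (w.coeff w.natDegree) ^ (m - 2 * D) ∈ 𝔫 :=
    famDet_mem m D u v 𝔫 hD hu.le hv hdet (C g2) (-(C g1 * X ^ e)) w (by rw [hw]; ring)
      w.natDegree le_rfl (by omega)
  have hwne : rho D u v * (w.coeff w.natDegree) ^ (m - 2 * D) ≠ 0 := by
    apply mul_ne_zero hrho (pow_ne_zero _ _)
    rw [coeff_natDegree]; exact leadingCoeff_ne_zero.mpr hw0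
  have hJw := J_gen m b D u v hm hb1 hD hu.le hv hpos 𝔫 hn0 H hH w w.natDegree le_rfl (by omega)
    1 zero_le_one (by rw [one_mul]; exact absNorm_le_prod K 𝔫 _ hwmem hwne)
  -- J for wp
  have humem : rho D u v * (u.coeff D) ^ (m - 2 * D) ∈ 𝔫 :=
    famDet_mem m D u v 𝔫 hD hu.le hv hdet 1 0 u (by ring) D hu.le (by omega)
  have hune : rho D u v * (u.coeff D) ^ (m - 2 * D) ≠ 0 := mul_ne_zero hrho (pow_ne_zero _ hul)
  have hg2prod : 1 ≤ ∏ τ : K →+* ℂ, ‖τ (g2 : K)‖ := by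
    have := absNorm_le_prod K ⊤ g2 (Submodule.mem_top) hg2
    simpa using this
  have hwplow : (2 : ℝ) ^ (k * N) * (Ideal.absNorm 𝔫 : ℝ)
      ≤ ∏ τ : K →+* ℂ, ‖τ ((rho D u v * (wp.coeff D) ^ (m - 2 * D) : 𝓞 K) : K)‖ := by
    have h1 : ∀ τ : K →+* ℂ, ‖τ ((rho D u v * (wp.coeff D) ^ (m - 2 * D) : 𝓞 K) : K)‖
        = 2 ^ k * ‖τ (g2 : K)‖ ^ k * ‖τ ((rho D u v * (u.coeff D) ^ (m - 2 * D) : 𝓞 K) : K)‖ := by
      intro τ
      rw [hwpc, ← hk]
      push_cast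
      simp only [map_mul, map_pow, norm_mul, norm_pow, map_ofNat]
      rw [mul_pow, mul_pow]
      simp only [Complex.norm_ofNat]
      ring
    simp only [h1]
    rw [Finset.prod_mul_distrib, Finset.prod_mul_distrib, Finset.prod_const, Finset.card_univ,
      ← hNdef, Finset.prod_pow, ← pow_mul]
    have h2 := absNorm_le_prod K 𝔫 _ humem hune
    have h3 : 1 ≤ (∏ τ : K →+* ℂ, ‖τ (g2 : K)‖) ^ k := one_le_pow₀ hg2prod
    calc (2 : ℝ) ^ (k * N) * (Ideal.absNorm 𝔫 : ℝ) = 2 ^ (k * N) * 1 * (Ideal.absNorm 𝔫 : ℝ) := by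
          ring
      _ ≤ _ := by gcongr
  have hJwp := J_gen m b D u v hm hb1 hD hu.le hv hpos 𝔫 hn0 H hH wp D hwpdeg (by omega)
    (2 ^ (k * N)) (by positivity) hwplow
  rw [← hk, ← hNdef] at hJw hJwp
  -- means
  set Xf : (K →+* ℂ) → ℝ := fun τ => nsq m b (wt m b u v τ) (cmap τ w) with hXf
  set Yf : (K →+* ℂ) → ℝ := fun τ => nsq m b (wt m b u v τ) (cmap τ wp) with hYf
  have hX := mean_gt N k hN1 hkpos hNdef.symm Xf (fun τ => nsq_nonneg _ _ _ _) H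
    (1 ^ 2 * (beta m b ^ (2 * (D ^ 2 + w.natDegree * k))) ^ N) ((∑ τ, Xf τ) / N) (-2 * κ')
    hHpos (by positivity) hJw (by
      rw [one_pow, one_mul, Real.log_pow, Real.log_pow, ← hL]
      push_cast
      have h1 : 0 ≤ (N : ℝ) * (2 * (w.natDegree * k) * L) := by positivity
      nlinarith) rfl
  have hY := mean_gt N k hN1 hkpos hNdef.symm Yf (fun τ => nsq_nonneg _ _ _ _) H
    ((2 ^ (k * N)) ^ 2 * (beta m b ^ (2 * (D ^ 2 + D * k))) ^ N) ((∑ τ, Yf τ) / N)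
    (2 * Real.log 2 + 2 * D * L - 2 * κ')
    hHpos (by positivity) hJwp (by
      rw [Real.log_mul (by positivity) (by positivity), Real.log_pow, Real.log_pow, Real.log_pow,
        Real.log_pow, ← hL]
      push_cast
      nlinarith) rfl
  -- sum
  have hsum : (∑ τ, Xf τ) / N + (∑ τ, Yf τ) / N ≤ 2 * q ^ 2 * (1 + beta m b ^ (2 * D)) := by
    rw [← add_div, ← Finset.sum_add_distrib, div_le_iff₀ hNpos]
    calc ∑ τ, (Xf τ + Yf τ) ≤ ∑ _τ : K →+* ℂ, 2 * q ^ 2 * (1 + beta m b ^ (2 * D)) := by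
          apply Finset.sum_le_sum
          intro τ _
          exact parallelogram m b D u v hm hb1 hpos g1 g2 e (by omega) τ q hqpos.le
            (hg1τ τ) (hg2τ τ)
      _ = 2 * q ^ 2 * (1 + beta m b ^ (2 * D)) * N := by
          rw [Finset.sum_const, Finset.card_univ, ← hNdef, nsmul_eq_mul]
          ring
  set t := beta m b ^ (2 * D) with ht
  have ht1 : 1 ≤ t := one_le_pow₀ hbeta1
  have hexpY : Real.exp (2 * Real.log 2 + 2 * D * L - 2 * κ') = 4 * t * Real.exp (-2 * κ') := by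
    have h1 : 2 * Real.log 2 + 2 * D * L - 2 * κ'
        = Real.log (4 * t) + (-2 * κ') := by
      rw [Real.log_mul (by norm_num) (by positivity), ht, Real.log_pow, ← hL]
      have : Real.log 4 = 2 * Real.log 2 := by
        rw [show (4 : ℝ) = 2 ^ 2 by norm_num, Real.log_pow]; push_cast; ring
      rw [this]
      push_cast
      ring
    rw [h1, Real.exp_add, Real.exp_log (by positivity)]
  rw [hexpY] at hY
  have hfin : Real.exp (-2 * κ') * (1 + 4 * t) < 2 * q ^ 2 * (1 + t) := by linarith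
  have hq2 : q ^ 2 = Real.exp (2 * θ * κ') := by
    rw [hq, ← Real.exp_nat_mul]
    congr 1
    push_cast
    ring
  have hE : Real.exp (2 * κ') * Real.exp (2 * θ * κ') ≤ 5 / 4 := by
    rw [← Real.exp_add]
    have h1 : 2 * κ' + 2 * θ * κ' ≤ Real.log (5 / 4) := by linarith
    calc Real.exp (2 * κ' + 2 * θ * κ') ≤ Real.exp (Real.log (5 / 4)) := Real.exp_le_exp.mpr h1
      _ = 5 / 4 := Real.exp_log (by norm_num)
  have hmul : Real.exp (2 * κ') * (Real.exp (-2 * κ') * (1 + 4 * t))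
      < Real.exp (2 * κ') * (2 * q ^ 2 * (1 + t)) :=
    mul_lt_mul_of_pos_left hfin (Real.exp_pos _)
  rw [← mul_assoc, ← Real.exp_add, show 2 * κ' + -2 * κ' = 0 by ring, Real.exp_zero, one_mul,
    hq2] at hmul
  have h9 : Real.exp (2 * κ') * (2 * Real.exp (2 * θ * κ') * (1 + t))
      = (Real.exp (2 * κ') * Real.exp (2 * θ * κ')) * (2 * (1 + t)) := by ring
  rw [h9] at hmul
  have h10 : (Real.exp (2 * κ') * Real.exp (2 * θ * κ')) * (2 * (1 + t)) ≤ 5 / 4 * (2 * (1 + t)) := by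
    apply mul_le_mul_of_nonneg_right hE
    linarith
  linarith

end

end Pool.Agent.H4.RR
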