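import Pool.Agent.H4.RR.DetLe
import Pool.Agent.H4.RR.FamDet

/-!
# Module Iw (MP_187c26_nt, real radical towers)

The archimedean inequality (I_w): with `k = m - 2D`,
`|rho|^2 |w_n|^(2k) beta^(2(D^2+nk)) ≤ (∏_j M_j^2) * nsq(w)^k`.

Proof: `det_le` for `W r = fam D n u v w r` (degrees: `fam_natDegree_lt`), `famDet_eq`
(unfold `famDet`) for the left side. Right side: `nsq (X^r u) = beta^(2r) nsq u ≤ beta^(2r)`
(`nsq_X_pow_mul`, `nsq_le_one` since `|u(x_j)| ≤ M_j`), the same for `v`, and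
`nsq (X^(r-n) w) = beta^(2(r-n)) nsq w`. So
`∏_r nsq (W r) ≤ beta^(2(0+..+(D-1))) * beta^(2(0+..+(D-1))) * beta^(2 ∑_{r=2D}^{m-1} (r-n)) * (nsq w)^k`,
exponent of beta: `2D(D-1) + m(m-1) - 2D(2D-1) - 2nk = m(m-1) - 2(D^2 + nk)`.
So `|rho|^2 |w_n|^(2k) beta^(m(m-1)) ≤ ∏M^2 * beta^(m(m-1) - 2(D^2+nk)) * nsq(w)^k`; multiply/cancel
the positive power of beta. (Write `m = 2D + k`; to avoid natural subtraction prove the identity
`D*(D-1) + D*(D-1) + 2*∑_{r ∈ range k} (2D + r - n) + 2*(D^2 + n*k) = m*(m-1)`. The product over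
`Fin m` can be turned into `∏ r ∈ Finset.range m` by `Finset.prod_range` and split with
`Finset.prod_range_add`.)
-/

set_option autoImplicit false

open Polynomial

namespace Pool.Agent.H4.RR

theorem Iw_sum_two (k : ℕ) : (∑ r ∈ Finset.range k, 2 * r) + k = k * k := by
  induction k with
  | zero => simp
  | succ k ih =>
    rw [Finset.sum_range_succ]
    have : (k + 1) * (k + 1) = k * k + 2 * k + 1 := by ring
    omega

theorem Iw_exp (D n k : ℕ) (hn : n ≤ 2 * D) :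
    (∑ r ∈ Finset.range D, 2 * r) + (∑ r ∈ Finset.range D, 2 * r)
      + (∑ r ∈ Finset.range k, 2 * (2 * D + r - n)) + 2 * (D ^ 2 + n * k)
      = (2 * D + k) * (2 * D + k - 1) := by
  obtain ⟨c, hc⟩ := Nat.exists_eq_add_of_le hn
  have h3 : ∑ r ∈ Finset.range k, 2 * (2 * D + r - n) = 2 * c * k + ∑ r ∈ Finset.range k, 2 * r := by
    have h4 : ∀ r ∈ Finset.range k, 2 * (2 * D + r - n) = 2 * c + 2 * r := by
      intro r _
      omega
    rw [Finset.sum_congr rfl h4, Finset.sum_add_distrib]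
    simp [mul_comm]
  have h1 := Iw_sum_two D
  have h2 := Iw_sum_two k
  rw [h3]
  have h5 : (2 * D + k) * (2 * D + k - 1) + (2 * D + k) = (2 * D + k) * (2 * D + k) := by
    rcases Nat.eq_zero_or_pos (2 * D + k) with h | h
    · rw [h]
    · obtain ⟨e, he⟩ := Nat.exists_eq_add_of_lt h
      have : 2 * D + k = e + 1 := by omega
      rw [this, Nat.add_sub_cancel]
      ring
  have h6 : (2 * D + k) * (2 * D + k) = 4 * (D * D) + 2 * (2 * D) * k + k * k := by ring
  have h7 : 2 * (2 * D) * k = 2 * (n * k) + 2 * c * k := by rw [hc]; ring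
  have h8 : 2 * (D ^ 2 + n * k) = 2 * (D * D) + 2 * (n * k) := by ring
  rw [h8]
  generalize (∑ r ∈ Finset.range D, 2 * r) = s1 at *
  generalize (∑ r ∈ Finset.range k, 2 * r) = s2 at *
  generalize (2 * D + k) * (2 * D + k - 1) = t at *
  generalize D * D = dd at *
  generalize k * k = kk at *
  generalize n * k = nk at *
  generalize 2 * c * k = ck at *
  omega

theorem Iw_prod (D n k : ℕ) (β N : ℝ) (hβ : 0 ≤ β) (_hN : 0 ≤ N) (g : ℕ → ℝ)
    (hg : ∀ r, 0 ≤ g r) (h1 : ∀ r < D, g r ≤ β ^ (2 * r)) (h2 : ∀ r < D, g (D + r) ≤ β ^ (2 * r))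
    (h3 : ∀ r < k, g (2 * D + r) ≤ β ^ (2 * (2 * D + r - n)) * N) :
    ∏ r ∈ Finset.range (2 * D + k), g r ≤
      β ^ ((∑ r ∈ Finset.range D, 2 * r) + (∑ r ∈ Finset.range D, 2 * r)
        + (∑ r ∈ Finset.range k, 2 * (2 * D + r - n))) * N ^ k := by
  rw [Finset.prod_range_add]
  have e1 : ∏ r ∈ Finset.range (2 * D), g r ≤
      β ^ (∑ r ∈ Finset.range D, 2 * r) * β ^ (∑ r ∈ Finset.range D, 2 * r) := by
    rw [two_mul D, Finset.prod_range_add]
    refine mul_le_mul ?_ ?_ (Finset.prod_nonneg fun r _ => hg _) (by positivity)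
    · rw [← Finset.prod_pow_eq_pow_sum]
      exact Finset.prod_le_prod (fun r _ => hg r) (fun r hr => h1 r (Finset.mem_range.1 hr))
    · rw [← Finset.prod_pow_eq_pow_sum]
      exact Finset.prod_le_prod (fun r _ => hg _) (fun r hr => h2 r (Finset.mem_range.1 hr))
  have e2 : ∏ r ∈ Finset.range k, g (2 * D + r) ≤
      β ^ (∑ r ∈ Finset.range k, 2 * (2 * D + r - n)) * N ^ k := by
    have e3 : β ^ (∑ r ∈ Finset.range k, 2 * (2 * D + r - n)) * N ^ k =
        ∏ r ∈ Finset.range k, (β ^ (2 * (2 * D + r - n)) * N) := by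
      rw [Finset.prod_mul_distrib, Finset.prod_pow_eq_pow_sum, Finset.prod_const,
        Finset.card_range]
    rw [e3]
    exact Finset.prod_le_prod (fun r _ => hg _) (fun r hr => h3 r (Finset.mem_range.1 hr))
  calc (∏ r ∈ Finset.range (2 * D), g r) * ∏ r ∈ Finset.range k, g (2 * D + r)
      ≤ (β ^ (∑ r ∈ Finset.range D, 2 * r) * β ^ (∑ r ∈ Finset.range D, 2 * r)) *
        (β ^ (∑ r ∈ Finset.range k, 2 * (2 * D + r - n)) * N ^ k) :=
        mul_le_mul e1 e2 (Finset.prod_nonneg fun r _ => hg _) (by positivity)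
    _ = _ := by rw [pow_add, pow_add]; ring

theorem Iw (m b D n : ℕ) (hm : 1 ≤ m) (hb : 1 ≤ b) (hD : 2 * D ≤ m) (hn : n ≤ 2 * D)
    (u v w : ℂ[X]) (hu : u.natDegree ≤ D) (hv : v.natDegree ≤ D) (hw : w.natDegree ≤ n)
    (M : Fin m → ℝ) (hpos : ∀ j, 0 < M j)
    (huM : ∀ j, ‖u.eval (node m b j)‖ ≤ M j) (hvM : ∀ j, ‖v.eval (node m b j)‖ ≤ M j) :
    ‖rho D u v‖ ^ 2 * ‖w.coeff n‖ ^ (2 * (m - 2 * D))
        * beta m b ^ (2 * (D ^ 2 + n * (m - 2 * D)))
      ≤ (∏ j, (M j) ^ 2) * (nsq m b M w) ^ (m - 2 * D) := by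
  obtain ⟨k, rfl⟩ := Nat.exists_eq_add_of_le hD
  have hk : 2 * D + k - 2 * D = k := by omega
  have h1 := det_le (2 * D + k) b hm hb M hpos (fun r => fam D n u v w (r : ℕ))
    (fun r => fam_natDegree_lt _ D n hD hn u v w hu hv hw r r.2)
  have h2 := famDet_eq (2 * D + k) D n hD hn u v w hu hv hw
  unfold famDet at h2
  rw [h2, hk, norm_mul, norm_pow] at h1
  rw [hk]
  have hβ0 : 0 < beta (2 * D + k) b := beta_pos _ _ hb
  set β := beta (2 * D + k) b with hβ
  have hnu := nsq_le_one (2 * D + k) b M hpos u huM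
  have hnv := nsq_le_one (2 * D + k) b M hpos v hvM
  have hprod : ∏ r : Fin (2 * D + k), nsq (2 * D + k) b M (fam D n u v w (r : ℕ)) ≤
      β ^ ((∑ r ∈ Finset.range D, 2 * r) + (∑ r ∈ Finset.range D, 2 * r)
        + (∑ r ∈ Finset.range k, 2 * (2 * D + r - n))) * (nsq (2 * D + k) b M w) ^ k := by
    rw [Finset.prod_range (f := fun r => nsq (2 * D + k) b M (fam D n u v w r)) |>.symm]
    refine Iw_prod D n k β _ hβ0.le (nsq_nonneg _ _ _ _) _ (fun r => nsq_nonneg _ _ _ _)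
      (fun r hr => ?_) (fun r hr => ?_) (fun r hr => ?_)
    · have e : fam D n u v w r = X ^ r * u := by unfold fam; simp [hr]
      rw [e, nsq_X_pow_mul _ _ hb]
      exact mul_le_of_le_one_right (by positivity) hnu
    · have e : fam D n u v w (D + r) = X ^ r * v := by
        unfold fam
        have h4 : ¬ (D + r < D) := by omega
        have h5 : D + r < 2 * D := by omega
        simp only [h4, h5, if_true, if_false, Nat.add_sub_cancel_left]
      rw [e, nsq_X_pow_mul _ _ hb]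
      exact mul_le_of_le_one_right (by positivity) hnv
    · have e : fam D n u v w (2 * D + r) = X ^ (2 * D + r - n) * w := by
        unfold fam
        have h4 : ¬ (2 * D + r < D) := by omega
        have h5 : ¬ (2 * D + r < 2 * D) := by omega
        simp only [h4, h5, if_false]
      rw [e, nsq_X_pow_mul _ _ hb]
  have hM : 0 ≤ ∏ j, (M j) ^ 2 := Finset.prod_nonneg fun j _ => by positivity
  have h6 := h1.trans (mul_le_mul_of_nonneg_left hprod hM)
  rw [← Iw_exp D n k hn] at h6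
  generalize (∑ r ∈ Finset.range D, 2 * r) + (∑ r ∈ Finset.range D, 2 * r)
        + (∑ r ∈ Finset.range k, 2 * (2 * D + r - n)) = E at h6
  have hE : 0 < β ^ E := by positivity
  refine le_of_mul_le_mul_left ?_ hE
  calc β ^ E * (‖rho D u v‖ ^ 2 * ‖w.coeff n‖ ^ (2 * k) * β ^ (2 * (D ^ 2 + n * k)))
      = (‖rho D u v‖ * ‖w.coeff n‖ ^ k) ^ 2 * β ^ (E + 2 * (D ^ 2 + n * k)) := by
        rw [pow_add, mul_pow, ← pow_mul, mul_comm k 2]; ring
    _ ≤ _ := h6
    _ = _ := by ring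

end Pool.Agent.H4.RR
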