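import Pool.Agent.H4.RR.Ambient
import Pool.Agent.H4.RR.BogNF

/-!
# Module BaseA (MP_187c26_nt, real radical towers)

The image of a number field `K` in `Ω` as a base field.
-/

set_option autoImplicit false

open NumberField Polynomial IntermediateField

namespace Pool.Agent.H4.RR

lemma not_torsion_of_unit {Ω : Type} [Field Ω] (a : Ωˣ) (ha : a ∉ CommGroup.torsion Ωˣ) :
    ∀ n : ℕ, 1 ≤ n → (a : Ω) ^ n ≠ 1 := by
  intro n hn h
  apply ha
  rw [CommGroup.mem_torsion, isOfFinOrder_iff_pow_eq_one]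
  refine ⟨n, by omega, ?_⟩
  apply Units.ext
  rw [Units.val_pow_eq_pow_val, h, Units.val_one]

theorem baseA (K Ω : Type) [Field K] [NumberField K] [Field Ω] [CharZero Ω] [Algebra K Ω]
    (κ : ℝ) (hκ : ∀ a : K, a ≠ 0 → (∀ n : ℕ, 1 ≤ n → a ^ n ≠ 1) →
      κ * Module.finrank ℚ K ≤ Height.logHeight₁ a) :
    ∃ (E0 : IntermediateField ℚ Ω) (_ : NumberField E0), (∀ k : K, algebraMap K Ω k ∈ E0) ∧
      Bog E0 (CommGroup.torsion Ωˣ) κ ∧ discr E0 = discr K := by
  let f : K →ₐ[ℚ] Ω := (algebraMap K Ω).toRatAlgHom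
  let e : K ≃ₐ[ℚ] f.fieldRange := AlgEquiv.ofInjectiveField f
  have hfd : FiniteDimensional ℚ f.fieldRange := e.toLinearEquiv.finiteDimensional
  have hnf : NumberField f.fieldRange := { to_charZero := inferInstance, to_finiteDimensional := hfd }
  refine ⟨f.fieldRange, hnf, fun k => ⟨k, rfl⟩, ?_, (discr_eq_discr_of_algEquiv K e).symm⟩
  intro a ha hat
  obtain ⟨k, hk⟩ := ha
  have hk' : algebraMap K Ω k = (a : Ω) := hk
  have hN : (0 : ℝ) < Module.finrank ℚ K := by exact_mod_cast Module.finrank_pos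
  rw [← hk', absLogHeight_eq K Ω (algebraMap K Ω) k, le_div_iff₀ hN]
  apply hκ
  · intro h
    apply a.ne_zero
    rw [← hk', h, map_zero]
  · intro n hn h
    apply not_torsion_of_unit a hat n hn
    rw [← hk', ← map_pow, h, map_one]

theorem bog_rat (Ω : Type) [Field Ω] [CharZero Ω] :
    ∃ (_ : NumberField (⊥ : IntermediateField ℚ Ω)),
      Bog (⊥ : IntermediateField ℚ Ω) (CommGroup.torsion Ωˣ) (Real.log 2) ∧
      discr (⊥ : IntermediateField ℚ Ω) = 1 := by
  let e : ℚ ≃ₐ[ℚ] (⊥ : IntermediateField ℚ Ω) := (IntermediateField.botEquiv ℚ Ω).symm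
  have hfd : FiniteDimensional ℚ (⊥ : IntermediateField ℚ Ω) := e.toLinearEquiv.finiteDimensional
  have hnf : NumberField (⊥ : IntermediateField ℚ Ω) :=
    { to_charZero := inferInstance, to_finiteDimensional := hfd }
  refine ⟨hnf, ?_, ?_⟩
  · intro a ha hat
    rw [IntermediateField.mem_bot] at ha
    obtain ⟨k, hk⟩ := ha
    rw [← hk, absLogHeight_eq ℚ Ω (algebraMap ℚ Ω) k]
    have h1 : (Module.finrank ℚ ℚ : ℝ) = 1 := by simp
    rw [h1, div_one]
    apply bogRat
    · intro h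
      apply a.ne_zero
      rw [← hk, h, map_zero]
    · intro n hn h
      apply not_torsion_of_unit a hat n hn
      rw [← hk, ← map_pow, h, map_one]
  · rw [← discr_eq_discr_of_algEquiv ℚ e, NumberField.discr_rat]

end Pool.Agent.H4.RR
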