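import Pool.Agent.H4.RR.BaseA
import Pool.Agent.H4.RR.BogCyc

/-!
# Module BaseB (MP_187c26_nt, real radical towers)

Cyclotomic base fields.
-/

set_option autoImplicit false

open NumberField Polynomial IntermediateField

namespace Pool.Agent.H4.RR

theorem baseB (Ω : Type) [Field Ω] [CharZero Ω] [IsAlgClosed Ω] (p : ℕ) (hp : p.Prime)
    (T0 : Set ℕ) (hpT : p ∉ T0) (s0 : Finset Ωˣ)
    (hs : ∀ y ∈ s0, ∃ N : ℕ, 1 ≤ N ∧ (∀ q : ℕ, q.Prime → q ∣ N → q ∈ T0) ∧ y ^ N = 1) :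
    ∃ (E0 : IntermediateField ℚ Ω) (_ : NumberField E0), (∀ y ∈ s0, (y : Ω) ∈ E0) ∧
      Bog E0 (CommGroup.torsion Ωˣ) (Real.log ((p : ℝ) ^ 2 / 2) / ((p : ℝ) ^ 2 + p)) ∧
      ∀ q : ℕ, q.Prime → (q : ℤ) ∣ discr E0 → q ∈ T0 := by
  classical
  choose! N hN1 hNT hNy using hs
  obtain ⟨M, hM1, hMT, hMN⟩ : ∃ M : ℕ, 1 ≤ M ∧ (∀ q : ℕ, q.Prime → q ∣ M → q ∈ T0) ∧
      ∀ y ∈ s0, N y ∣ M := by
    refine ⟨∏ y ∈ s0, N y, ?_, ?_, fun y hy => Finset.dvd_prod_of_mem N hy⟩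
    · exact Nat.succ_le_of_lt (Finset.prod_pos fun y hy => Nat.lt_of_succ_le (hN1 y hy))
    · intro q hq hqd
      obtain ⟨y, hy, hqy⟩ := (hq.prime.dvd_finsetProd_iff N).1 hqd
      exact hNT y hy q hq hqy
  have hne : NeZero M := ⟨by omega⟩
  have hneΩ : NeZero ((M : ℕ) : Ω) := ⟨by exact_mod_cast hne.out⟩
  obtain ⟨ζ, hζ⟩ := HasEnoughRootsOfUnity.exists_primitiveRoot Ω M
  have hcyc : IsCyclotomicExtension {M} ℚ ℚ⟮ζ⟯ := by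
    have hint : IsIntegral ℚ ζ :=
      ⟨X ^ M - C 1, monic_X_pow_sub_C _ hne.out, by simp [hζ.pow_eq_one]⟩
    change IsCyclotomicExtension {M} ℚ (ℚ⟮ζ⟯).toSubalgebra
    rw [IntermediateField.adjoin_simple_toSubalgebra_of_isAlgebraic hint.isAlgebraic]
    exact hζ.adjoin_isCyclotomicExtension ℚ
  have hnf : NumberField ℚ⟮ζ⟯ := IsCyclotomicExtension.numberField {M} ℚ ℚ⟮ζ⟯
  have hpM : ¬ p ∣ M := fun h => hpT (hMT p hp h)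
  refine ⟨ℚ⟮ζ⟯, hnf, ?_, ?_, ?_⟩
  · intro y hy
    have h1 : (y : Ω) ^ M = 1 := by
      obtain ⟨k, hk⟩ := hMN y hy
      rw [hk, pow_mul, ← Units.val_pow_eq_pow_val, hNy y hy, Units.val_one, one_pow]
    obtain ⟨i, _, hi⟩ := hζ.eq_pow_of_pow_eq_one h1
    rw [← hi]
    exact pow_mem (mem_adjoin_simple_self ℚ ζ) i
  · intro a ha hat
    have hN : (0 : ℝ) < Module.finrank ℚ ℚ⟮ζ⟯ := by exact_mod_cast Module.finrank_pos
    have h1 : absLogHeight₁ (a : Ω) =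
        Height.logHeight₁ (⟨(a : Ω), ha⟩ : ℚ⟮ζ⟯) / Module.finrank ℚ ℚ⟮ζ⟯ :=
      absLogHeight_eq ℚ⟮ζ⟯ Ω (ℚ⟮ζ⟯.val : ℚ⟮ζ⟯ →+* Ω) ⟨(a : Ω), ha⟩
    rw [h1, le_div_iff₀ hN]
    apply bogCyc ℚ⟮ζ⟯ M p hM1 hp hpM
    · intro h
      apply a.ne_zero
      exact congrArg Subtype.val h
    · intro n hn h
      apply not_torsion_of_unit a hat n hn
      exact congrArg Subtype.val h
  · intro q hq hqd
    have h1 := IsCyclotomicExtension.Rat.natAbs_discr M ℚ⟮ζ⟯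
    have h2 : q ∣ (discr ℚ⟮ζ⟯).natAbs := Int.natCast_dvd.1 hqd
    apply hMT q hq
    have h3 : (discr ℚ⟮ζ⟯).natAbs ∣ M ^ M.totient := by
      rw [h1]
      exact Nat.div_dvd_of_dvd (Nat.prod_primeFactors_pow_totient_ediv_dvd (NeZero.pos _))
    exact hq.dvd_of_dvd_pow (h2.trans h3)

end Pool.Agent.H4.RR
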