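import Pool.Agent.H4.RR.AbsHeight

/-!
# Module NormHeight (MP_187c26_nt, real radical towers)

`h(Norm_{L(α)/L}(α)) ≤ [L(α):L] h(α)` for any intermediate field `L` of `AlgebraicClosure K / K`.

Proof. Let `P = minpoly L α`, of degree `d = [L(α):L]` (`IntermediateField.adjoin.finrank`). The norm
of the generator is `(-1)^d * P.coeff 0` (`Algebra.norm_gen_eq_coeff_zero_minpoly` for the power
basis `IntermediateField.adjoin.powerBasis`, or `Algebra.norm_gen_eq_prod_roots`), i.e. the product of
the `d` roots of `P` in `AlgebraicClosure K` (splits, `Polynomial.Splits`, with multiplicity). Every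
root `c` of `P` is a root of `minpoly ℚ α` (which is divisible by `P` over `L`,
`minpoly.dvd_map_of_isScalarTower`), so `minpoly ℚ c = minpoly ℚ α` (`minpoly.eq_of_root` …) and
`absLogHeight₁ c = absLogHeight₁ α` by `absLogHeight_eq_of_minpoly_eq`. Conclude with
`absLogHeight_mul_le` by induction on the multiset of roots
(`absLogHeight₁ 1 = 0`, `Multiset.prod_induction`-like; all elements are algebraic over `ℚ` since
`AlgebraicClosure K` is algebraic over the number field `K`).
-/

set_option autoImplicit false

open NumberField IntermediateField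

namespace Pool.Agent.H4.RR

open Polynomial in
theorem norm_height_le (K : Type) [Field K] [NumberField K]
    (L : IntermediateField K (AlgebraicClosure K)) (α : AlgebraicClosure K) :
    absLogHeight₁ (algebraMap L (AlgebraicClosure K)
        (Algebra.norm L (AdjoinSimple.gen L α)))
      ≤ Module.finrank L L⟮α⟯ * absLogHeight₁ α := by
  have hQK : Algebra.IsAlgebraic ℚ K := inferInstance
  have hKA : Algebra.IsAlgebraic K (AlgebraicClosure K) := inferInstance
  have hQA : Algebra.IsAlgebraic ℚ (AlgebraicClosure K) :=
    Algebra.IsAlgebraic.trans ℚ K (AlgebraicClosure K)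
  have hint : ∀ c : AlgebraicClosure K, IsIntegral ℚ c := fun c =>
    (hQA.isAlgebraic c).isIntegral
  have hLint : IsIntegral L α := by
    have : IsIntegral K α := (hKA.isAlgebraic α).isIntegral
    exact this.tower_top
  have h1 := AdjoinSimple.norm_gen_eq_prod_roots (K := L) (F := AlgebraicClosure K) α
    (IsAlgClosed.splits _)
  rw [h1]
  have hroot : ∀ c ∈ (minpoly L α).aroots (AlgebraicClosure K), absLogHeight₁ c = absLogHeight₁ α := by
    intro c hc
    rw [mem_aroots] at hc
    obtain ⟨_, hc⟩ := hc
    have hdvd := minpoly.dvd_map_of_isScalarTower ℚ L α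
    have h2 : aeval c ((minpoly ℚ α).map (algebraMap ℚ L)) = 0 := by
      obtain ⟨g, hg⟩ := hdvd
      rw [hg, map_mul, hc, zero_mul]
    rw [aeval_map_algebraMap] at h2
    have h3 := minpoly.eq_of_root (hQA.isAlgebraic α) h2
    exact absLogHeight_eq_of_minpoly_eq _ c α (hint c) h3
  have hone : absLogHeight₁ (1 : AlgebraicClosure K) = 0 := by
    have := absLogHeight_pow (AlgebraicClosure K) 1 (hint 1) 0
    simpa using this
  have key : ∀ s : Multiset (AlgebraicClosure K), (∀ c ∈ s, absLogHeight₁ c = absLogHeight₁ α) →
      absLogHeight₁ s.prod ≤ s.card * absLogHeight₁ α := by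
    intro s
    induction s using Multiset.induction_on with
    | empty =>
      intro _
      simp [hone]
    | cons a s ih =>
      intro hs
      rw [Multiset.prod_cons, Multiset.card_cons]
      have h4 := absLogHeight_mul_le _ a s.prod (hint a) (hint s.prod)
      have h5 := ih (fun c hc => hs c (Multiset.mem_cons_of_mem hc))
      have h6 := hs a (Multiset.mem_cons_self a s)
      push_cast
      rw [add_mul, one_mul]
      linarith
  refine (key _ hroot).trans (le_of_eq ?_)
  congr 1
  have h7 : (minpoly L α).natDegree = ((minpoly L α).aroots (AlgebraicClosure K)).card := by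
    rw [aroots, ← Splits.natDegree_eq_card_roots (IsAlgClosed.splits _), natDegree_map]
  rw [← h7, IntermediateField.adjoin.finrank hLint]

end Pool.Agent.H4.RR
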