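import Pool.Agent.H4.RR.Infinite
import Pool.Agent.H4.RR.BaseA
import Pool.Agent.H4.RR.BaseB
import Pool.Agent.H4.RR.NormHeight

/-!
# Final assembly (MP_187c26_nt, real radical towers)
-/

set_option autoImplicit false

open NumberField Polynomial IntermediateField

namespace Pool.Agent.H4.RR

/-- The field generated over `K` by a group of algebraic numbers. -/
noncomputable def fieldOf (K : Type) [Field K] (Γ : Subgroup (AlgebraicClosure K)ˣ) :
    IntermediateField K (AlgebraicClosure K) :=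
  IntermediateField.adjoin K {y | ∃ γ ∈ Γ, y = (γ : AlgebraicClosure K)}

/-- The norm of `α` from `L(α)` to `L`, as an element of the algebraic closure. -/
noncomputable def normTo {K : Type} [Field K] (L : IntermediateField K (AlgebraicClosure K))
    (α : AlgebraicClosure K) : AlgebraicClosure K :=
  algebraMap L (AlgebraicClosure K) (Algebra.norm L (AdjoinSimple.gen L α))

lemma normTo_mem {K : Type} [Field K] (L : IntermediateField K (AlgebraicClosure K))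
    (α : AlgebraicClosure K) : normTo L α ∈ L := (Algebra.norm L (AdjoinSimple.gen L α)).2

lemma normTo_ne_zero {K : Type} [Field K] (L : IntermediateField K (AlgebraicClosure K))
    (α : AlgebraicClosure K) (hα : α ≠ 0) : normTo L α ≠ 0 := by
  unfold normTo
  rw [Ne, map_eq_zero]
  have hint : IsIntegral L α := by
    have h1 : Algebra.IsAlgebraic K (AlgebraicClosure K) := inferInstance
    exact (h1.isAlgebraic α).isIntegral.tower_top
  have : FiniteDimensional L L⟮α⟯ := adjoin.finiteDimensional hint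
  rw [Algebra.norm_eq_zero_iff]
  intro h
  apply hα
  have := congrArg (algebraMap L⟮α⟯ (AlgebraicClosure K)) h
  simpa using this

lemma from_norm {K : Type} [Field K] [NumberField K]
    (L : IntermediateField K (AlgebraicClosure K)) (S : Set (AlgebraicClosure K)ˣ) (c : ℝ)
    (h : ∀ a : (AlgebraicClosure K)ˣ, (a : AlgebraicClosure K) ∈ L → a ∉ S →
      c ≤ absLogHeight₁ (a : AlgebraicClosure K))
    (α : (AlgebraicClosure K)ˣ)
    (hα : ∀ g ∈ S, (g : AlgebraicClosure K) ≠ normTo L α) :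
    c ≤ Module.finrank L L⟮(α : AlgebraicClosure K)⟯ * absLogHeight₁ (α : AlgebraicClosure K) := by
  have h0 := normTo_ne_zero L (α : AlgebraicClosure K) α.ne_zero
  have h1 := h (Units.mk0 _ h0) (normTo_mem L _) (fun hS => hα _ hS rfl)
  exact h1.trans (norm_height_le K L (α : AlgebraicClosure K))

/-- The conditions on the integers `b i` and the sets of primes `T i`. -/
def Admissible {r : ℕ} (b : Fin r → ℕ) (T : Fin r → Set ℕ) : Prop :=
  (∀ i, 2 ≤ b i ∧ Squarefree (b i)) ∧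
  (∀ i, ∀ q ∈ T i, q.Prime ∧ ¬ q ^ 2 ∣ b i ^ (q - 1) - 1) ∧
  (∀ i j, i ≠ j → Nat.Coprime (b i) (b j) ∧ Disjoint (T i) (T j) ∧ ∀ q ∈ T i, ¬ q ∣ b j)

theorem partA (K : Type) [Field K] [NumberField K] (r : ℕ) :
    ∃ c : ℝ, 0 < c ∧ ∀ (b : Fin r → ℕ) (T : Fin r → Set ℕ)
      (Γ : Fin r → Subgroup (AlgebraicClosure K)ˣ), Admissible b T →
      (∀ i, IsCoprime (discr K) (b i : ℤ) ∧ ∀ q ∈ T i, ¬ (q : ℤ) ∣ discr K) →
      (∀ i, IsRadicalGroup (b i) (T i) (Γ i)) →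
      ∀ α : (AlgebraicClosure K)ˣ,
        (∀ g ∈ sat (⨆ i, Γ i), (g : AlgebraicClosure K) ≠ normTo (fieldOf K (⨆ i, Γ i)) α) →
        c ≤ Module.finrank (fieldOf K (⨆ i, Γ i))
            (fieldOf K (⨆ i, Γ i))⟮(α : AlgebraicClosure K)⟯
          * absLogHeight₁ (α : AlgebraicClosure K) := by
  obtain ⟨κ, hκ, hK⟩ := bogNF K
  refine ⟨cseq κ r, cseq_pos κ hκ r, ?_⟩
  intro b T Γ hadm hK' hΓ α hα
  apply from_norm (fieldOf K (⨆ i, Γ i)) (sat (⨆ i, Γ i)) _ _ α hα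
  intro a ha hasat
  have hbot : (⊥ : Subgroup (AlgebraicClosure K)ˣ) ⊔ ⨆ i, Γ i = ⨆ i, Γ i := bot_sup_eq _
  apply bog_infinite K (AlgebraicClosure K) r b T ⊥ Γ (fun i => (hadm.1 i).1)
    (fun i => (hadm.1 i).2) (fun i j hij => (hadm.2.2 i j hij).1) (fun i q hq => (hadm.2.1 i q hq).2)
    (fun i j hij => (hadm.2.2 i j hij).2.1) (fun i j hij => (hadm.2.2 i j hij).2.2) hΓ κ hκ
  · intro s hs
    obtain ⟨E0, hNF, hKE, hB, hd⟩ := baseA K (AlgebraicClosure K) κ hK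
    refine ⟨E0, hNF, hKE, ?_, hB, ?_⟩
    · intro y hy
      have := hs y hy
      rw [Subgroup.mem_bot] at this
      rw [this]
      exact one_mem E0
    · intro i m _ hm
      rw [hd]
      apply isCoprime_of_primes
      intro p hp hpd hpn
      rcases (hp.dvd_mul).mp hpn with h1 | h1
      · exact (hK' i).2 p (hm p hp h1) hpd
      · exact not_dvd_of_isCoprime _ _ (hK' i).1 p hp hpd h1
  · rw [hbot]; exact ha
  · rw [hbot]; exact hasat

theorem partB (r p : ℕ) (hp : p.Prime) :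
    ∃ c : ℝ, 0 < c ∧ ∀ (b : Fin r → ℕ) (T : Fin r → Set ℕ) (T0 : Set ℕ)
      (Γ0 : Subgroup (AlgebraicClosure ℚ)ˣ) (Γ : Fin r → Subgroup (AlgebraicClosure ℚ)ˣ),
      Admissible b T → p ∉ T0 → (∀ i, Disjoint T0 (T i) ∧ ∀ q ∈ T0, ¬ q ∣ b i) →
      (∀ i, IsRadicalGroup (b i) (T i) (Γ i)) →
      (∀ γ ∈ Γ0, ∃ N : ℕ, 1 ≤ N ∧ (∀ q : ℕ, q.Prime → q ∣ N → q ∈ T0) ∧ γ ^ N = 1) →
      ∀ α : (AlgebraicClosure ℚ)ˣ,
        (∀ g ∈ sat (Γ0 ⊔ ⨆ i, Γ i),
          (g : AlgebraicClosure ℚ) ≠ normTo (fieldOf ℚ (Γ0 ⊔ ⨆ i, Γ i)) α) →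
        c ≤ Module.finrank (fieldOf ℚ (Γ0 ⊔ ⨆ i, Γ i))
            (fieldOf ℚ (Γ0 ⊔ ⨆ i, Γ i))⟮(α : AlgebraicClosure ℚ)⟯
          * absLogHeight₁ (α : AlgebraicClosure ℚ) := by
  have hp2 : (2 : ℝ) ≤ p := by exact_mod_cast hp.two_le
  have hκ : 0 < Real.log ((p : ℝ) ^ 2 / 2) / ((p : ℝ) ^ 2 + p) := by
    apply div_pos
    · apply Real.log_pos
      nlinarith
    · positivity
  refine ⟨cseq _ r, cseq_pos _ hκ r, ?_⟩
  intro b T T0 Γ0 Γ hadm hpT hT0 hΓ hΓ0 α hα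
  apply from_norm _ (sat (Γ0 ⊔ ⨆ i, Γ i)) _ _ α hα
  intro a ha hasat
  apply bog_infinite ℚ (AlgebraicClosure ℚ) r b T Γ0 Γ (fun i => (hadm.1 i).1)
    (fun i => (hadm.1 i).2) (fun i j hij => (hadm.2.2 i j hij).1) (fun i q hq => (hadm.2.1 i q hq).2)
    (fun i j hij => (hadm.2.2 i j hij).2.1) (fun i j hij => (hadm.2.2 i j hij).2.2) hΓ _ hκ _
    a ha hasat
  intro s hs
  obtain ⟨E0, hNF, hs0, hB, hd⟩ := baseB (AlgebraicClosure ℚ) p hp T0 hpT s
    (fun y hy => hΓ0 y (hs y hy))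
  refine ⟨E0, hNF, ?_, hs0, hB, ?_⟩
  · intro k
    rw [eq_ratCast]
    exact_mod_cast E0.algebraMap_mem k
  · intro i m _ hm
    apply isCoprime_of_primes
    intro q hq hqd hqn
    have h1 := hd q hq hqd
    rcases (hq.dvd_mul).mp hqn with h2 | h2
    · exact (Set.disjoint_left.mp (hT0 i).1) h1 (hm q hq h2)
    · exact (hT0 i).2 q h1 h2

/-- Numerical value of the constant for one group over `ℚ`. -/
lemma const_one : (1 : ℝ) / 11 ≤ min (Real.log 2) (Real.log (5 / 4) / (2 + 2 * 0))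
      - min (Real.log 2) (Real.log (5 / 4) / (2 + 2 * 0)) ^ 2 / Real.log 2 := by
  have h1 : (2 : ℝ) / 9 ≤ Real.log (5 / 4) := by
    have := Real.le_log_one_add_of_nonneg (x := 1 / 4) (by norm_num)
    norm_num at this ⊢
    exact this
  have h2 : Real.log (5 / 4) ≤ 1 / 4 := by
    have := Real.log_le_sub_one_of_pos (show (0 : ℝ) < 5 / 4 by norm_num)
    linarith
  have h3 : (0.69 : ℝ) < Real.log 2 := by
    have := Real.log_two_gt_d9
    linarith
  have hmin : min (Real.log 2) (Real.log (5 / 4) / (2 + 2 * 0)) = Real.log (5 / 4) / 2 := by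
    rw [show (2 : ℝ) + 2 * 0 = 2 by norm_num]
    apply min_eq_right
    linarith
  rw [hmin]
  set t := Real.log (5 / 4) / 2 with ht
  have ht1 : 1 / 9 ≤ t := by rw [ht]; linarith
  have ht2 : t ≤ 1 / 8 := by rw [ht]; linarith
  have hpos : 0 < Real.log 2 := by linarith
  rw [le_sub_iff_add_le, ← le_sub_iff_add_le', div_le_iff₀ hpos]
  nlinarith

/-- Elements of the field of a single radical group over `ℚ`. -/
theorem bog_one (K Ω : Type) [Field K] [NumberField K] [Field Ω] [CharZero Ω] [Algebra K Ω]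
    (hK : Module.finrank ℚ K = 1) (b : ℕ) (T : Set ℕ) (Γ : Subgroup Ωˣ)
    (hb : 2 ≤ b) (hsq : Squarefree b) (hT : ∀ q ∈ T, ¬ q ^ 2 ∣ b ^ (q - 1) - 1)
    (hΓ : IsRadicalGroup b T Γ) (a : Ωˣ)
    (ha : (a : Ω) ∈ IntermediateField.adjoin K {y : Ω | ∃ γ ∈ Γ, y = (γ : Ω)})
    (hasat : a ∉ sat Γ) : 1 / 11 ≤ absLogHeight₁ (a : Ω) := by
  classical
  obtain ⟨s, hs, has⟩ := mem_adjoin_finite Γ (a : Ω) ha
  obtain ⟨x, hxΓ, m, hm, hmT, hxm, hxs⟩ := radical_cyclic b hb T Γ hΓ s hs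
  obtain ⟨hNF, hB, hd⟩ := bog_rat Ω
  have hxint : IsIntegral ℚ (x : Ω) := (isIntegral_of_pow_eq (x : Ω) m b hm hxm).tower_top
  have hNF' : NumberField (⊥ ⊔ ℚ⟮(x : Ω)⟯ : IntermediateField ℚ Ω) :=
    numberField_sup ⊥ (x : Ω) hxint
  have hcop : IsCoprime (discr (⊥ : IntermediateField ℚ Ω)) ((m * b : ℕ) : ℤ) := by
    rw [hd]; exact isCoprime_one_left
  obtain ⟨hB', -⟩ := step (⊥ : IntermediateField ℚ Ω) (⊥ ⊔ ℚ⟮(x : Ω)⟯) (CommGroup.torsion Ωˣ)
    (Real.log 2) 0 (Real.log_pos (by norm_num)) le_rfl hB (den_torsion ⊥) m b hm hb hsq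
    (fun q hq hqm => hT q (hmT q hq hqm)) hcop x hxm rfl
  have hlog : Real.log 2 ≤ Real.log b := Real.log_le_log (by norm_num) (by exact_mod_cast hb)
  have hl2 : 0 < Real.log 2 := Real.log_pos (by norm_num)
  have h3 : min (Real.log 2) (Real.log (5 / 4) / (2 + 2 * 0)) ^ 2 / Real.log b
      ≤ min (Real.log 2) (Real.log (5 / 4) / (2 + 2 * 0)) ^ 2 / Real.log 2 :=
    div_le_div_of_nonneg_left (by positivity) hl2 hlog
  have h4 := const_one
  have hxE' : (x : Ω) ∈ (⊥ ⊔ ℚ⟮(x : Ω)⟯ : IntermediateField ℚ Ω) :=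
    (le_sup_right : ℚ⟮(x : Ω)⟯ ≤ _) (mem_adjoin_simple_self ℚ _)
  have h5 := hB' a ?_ ?_
  · linarith
  · apply adjoin_subset _ _ _ _ (a : Ω) has
    · intro k
      obtain ⟨q, hq⟩ : ∃ q : ℚ, algebraMap ℚ K q = k := by
        have h6 : (⊥ : Subalgebra ℚ K) = ⊤ := by
          rw [Subalgebra.bot_eq_top_iff_finrank_eq_one]
          exact hK
        have h7 : k ∈ (⊥ : Subalgebra ℚ K) := by rw [h6]; exact Algebra.mem_top
        exact Algebra.mem_bot.mp h7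
      have h8 : algebraMap K Ω k = algebraMap ℚ Ω q := by
        rw [← hq, eq_ratCast, eq_ratCast, map_ratCast]
      rw [h8]
      exact IntermediateField.algebraMap_mem _ q
    · rintro y ⟨γ, hγ, rfl⟩
      exact zpowers_mem _ x γ hxE' (hxs γ hγ)
  · intro haS
    apply hasat
    apply torsion_sup_sub_sat Γ (fun _ : Unit => x) (fun _ => hxΓ) a
    simpa using haS

theorem partC (b : ℕ) (T : Set ℕ) (Γ : Subgroup (AlgebraicClosure ℚ)ˣ) (hb : 2 ≤ b)
    (hsq : Squarefree b) (hT : ∀ q ∈ T, ¬ q ^ 2 ∣ b ^ (q - 1) - 1)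
    (hΓ : IsRadicalGroup b T Γ) (α : (AlgebraicClosure ℚ)ˣ)
    (hα : ∀ g ∈ sat Γ, (g : AlgebraicClosure ℚ) ≠ normTo (fieldOf ℚ Γ) α) :
    1 / 11 ≤ Module.finrank (fieldOf ℚ Γ) (fieldOf ℚ Γ)⟮(α : AlgebraicClosure ℚ)⟯
      * absLogHeight₁ (α : AlgebraicClosure ℚ) := by
  apply from_norm _ (sat Γ) _ _ α hα
  intro a ha hasat
  exact bog_one ℚ (AlgebraicClosure ℚ) (Module.finrank_self ℚ) b T Γ hb hsq hT hΓ a ha hasat

end Pool.Agent.H4.RR
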