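import Mathlib

/-!
# Module LocB (MP_187c26_nt, real radical towers)

(1) `ℤ[x]`, `x^m = b` squarefree, is maximal at the primes `q ∣ b`: the minimal polynomial
`X^m - b` of `x` over `ℤ` is Eisenstein at `q`.

(2) Denominators: with `d = discr` of the power basis `1, x, …, x^(m-1)`
(`= ± N(m x^(m-1)) = ± m^m b^(m-1)`), `d * y ∈ ℤ[x]` for integral `y`, the discriminant of `F`
divides `d`, and every prime dividing `d` divides `m * b`.
-/

set_option autoImplicit false

open NumberField Polynomial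

namespace Pool.Agent.H4.RR

lemma locB_pb (F : Type) [Field F] [NumberField F] (m b : ℕ) (hm : 1 ≤ m) (x : 𝓞 F)
    (hx : x ^ m = (b : 𝓞 F)) (hfr : Module.finrank ℚ F = m)
    (htop : IntermediateField.adjoin ℚ {(x : F)} = ⊤) :
    ∃ B : PowerBasis ℚ F, B.gen = (x : F) ∧ B.dim = m ∧
      minpoly ℚ (x : F) = X ^ m - C (b : ℚ) := by
  have hint : IsIntegral ℚ (x : F) := Algebra.IsIntegral.isIntegral _
  have h1 : Algebra.adjoin ℚ {(x : F)} = ⊤ := by
    have := IntermediateField.adjoin_simple_toSubalgebra_of_isAlgebraic hint.isAlgebraic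
    rw [htop] at this
    rw [← this]
    rfl
  have hB : (PowerBasis.ofAdjoinEqTop hint h1).dim = m := by
    rw [← PowerBasis.finrank, hfr]
  refine ⟨PowerBasis.ofAdjoinEqTop hint h1, PowerBasis.ofAdjoinEqTop_gen hint h1, hB, ?_⟩
  have hdeg : (minpoly ℚ (x : F)).natDegree = m := by
    rw [← PowerBasis.ofAdjoinEqTop_dim hint h1, hB]
  have hmon : (X ^ m - C (b : ℚ)).Monic := monic_X_pow_sub_C _ (by omega)
  symm
  have hF : (x : F) ^ m = (b : F) := by
    have := congrArg (algebraMap (𝓞 F) F) hx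
    simpa using this
  have hroot : aeval (x : F) (X ^ m - C (b : ℚ)) = 0 := by
    rw [map_sub, map_pow, aeval_X, aeval_C, hF]
    simp
  refine Polynomial.eq_of_monic_of_dvd_of_natDegree_le (minpoly.monic hint) hmon
    (minpoly.dvd ℚ _ hroot) ?_
  rw [hdeg, natDegree_X_pow_sub_C]

lemma locB_minpolyZ (F : Type) [Field F] [NumberField F] (m b : ℕ) (hm : 1 ≤ m) (x : 𝓞 F)
    (hx : x ^ m = (b : 𝓞 F)) (hfr : Module.finrank ℚ F = m)
    (htop : IntermediateField.adjoin ℚ {(x : F)} = ⊤) :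
    minpoly ℤ (x : F) = X ^ m - C (b : ℤ) := by
  obtain ⟨B, _, _, h⟩ := locB_pb F m b hm x hx hfr htop
  have h2 := minpoly.isIntegrallyClosed_eq_field_fractions' ℚ
    (RingOfIntegers.isIntegral_coe x)
  rw [h] at h2
  apply Polynomial.map_injective (algebraMap ℤ ℚ) (RingHom.injective_int _)
  rw [← h2]
  simp

lemma locB_mem (F : Type) [Field F] [NumberField F] (x y : 𝓞 F) :
    y ∈ Algebra.adjoin ℤ {x} ↔ (y : F) ∈ Algebra.adjoin ℤ {(x : F)} := by
  have h := AlgHom.map_adjoin_singleton (IsScalarTower.toAlgHom ℤ (𝓞 F) F) x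
  have h3 : (IsScalarTower.toAlgHom ℤ (𝓞 F) F) x = (x : F) := rfl
  rw [h3] at h
  rw [← h]
  constructor
  · intro hy
    exact ⟨y, hy, rfl⟩
  · rintro ⟨z, hz, hzy⟩
    have : z = y := RingOfIntegers.ext hzy
    rwa [← this]

theorem locB (F : Type) [Field F] [NumberField F] (m b q : ℕ) (hm : 1 ≤ m) (hq : q.Prime)
    (hqb : q ∣ b) (hsq : Squarefree b) (x : 𝓞 F)
    (hx : x ^ m = (b : 𝓞 F)) (hfr : Module.finrank ℚ F = m)
    (htop : IntermediateField.adjoin ℚ {(x : F)} = ⊤) (y : 𝓞 F)
    (hy : (q : 𝓞 F) * y ∈ Algebra.adjoin ℤ {x}) : y ∈ Algebra.adjoin ℤ {x} := by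
  obtain ⟨B, hgen, hdim, hmin⟩ := locB_pb F m b hm x hx hfr htop
  have hminZ := locB_minpolyZ F m b hm x hx hfr htop
  rw [locB_mem] at hy ⊢
  have hqp : Prime (q : ℤ) := Nat.prime_iff_prime_int.mp hq
  have hei : (minpoly ℤ B.gen).IsEisensteinAt (Submodule.span ℤ {(q : ℤ)}) := by
    rw [hgen, hminZ]
    constructor
    · rw [Polynomial.leadingCoeff_X_pow_sub_C (by omega)]
      intro h
      exact hqp.not_unit ((Ideal.span_singleton_eq_top).1 ((Ideal.eq_top_iff_one _).2 h))
    · intro n hn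
      rw [natDegree_X_pow_sub_C] at hn
      rw [coeff_sub, coeff_X_pow, if_neg (by omega), coeff_C, zero_sub]
      split_ifs with h0
      · apply neg_mem
        exact Ideal.mem_span_singleton.2 (by exact_mod_cast hqb)
      · simp
    · rw [coeff_sub, coeff_X_pow, if_neg (by omega), coeff_C, if_pos rfl, zero_sub]
      intro h
      rw [neg_mem_iff] at h
      have h' : (b : ℤ) ∈ (Ideal.span {(q : ℤ)}) ^ 2 := h
      rw [Ideal.span_singleton_pow, Ideal.mem_span_singleton] at h'
      have h2 : q ^ 2 ∣ b := by exact_mod_cast h'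
      have h3 := hsq q (by rw [← sq]; exact h2)
      exact hq.not_isUnit h3
  have hBint : IsIntegral ℤ B.gen := by rw [hgen]; exact RingOfIntegers.isIntegral_coe x
  have key := mem_adjoin_of_smul_prime_smul_of_minpoly_isEisensteinAt (B := B) hqp hBint
    (z := (y : F)) (RingOfIntegers.isIntegral_coe y)
    (by
      rw [hgen]
      have h4 : (q : ℤ) • (y : F) = (((q : 𝓞 F) * y : 𝓞 F) : F) := by
        rw [zsmul_eq_mul]
        simp
      rw [h4]
      exact hy) hei
  rw [hgen] at key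
  exact key

theorem exists_denominator (F : Type) [Field F] [NumberField F] (m b : ℕ) (hm : 1 ≤ m)
    (hb : 1 ≤ b) (x : 𝓞 F) (hx : x ^ m = (b : 𝓞 F)) (hfr : Module.finrank ℚ F = m)
    (htop : IntermediateField.adjoin ℚ {(x : F)} = ⊤) :
    ∃ d : ℤ, d ≠ 0 ∧ (∀ p : ℕ, p.Prime → (p : ℤ) ∣ d → p ∣ m * b) ∧
      (∀ y : 𝓞 F, (d : 𝓞 F) * y ∈ Algebra.adjoin ℤ {x}) ∧ discr F ∣ d := by
  obtain ⟨B, hgen, hdim, hmin⟩ := locB_pb F m b hm x hx hfr htop
  -- the discriminant
  have hnorm : Algebra.norm ℚ B.gen = (-1) ^ m * (-(b : ℚ)) := by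
    rw [Algebra.PowerBasis.norm_gen_eq_coeff_zero_minpoly, hdim, hgen, hmin, coeff_sub,
      coeff_X_pow, if_neg (by omega), coeff_C, if_pos rfl, zero_sub]
  have hdis : Algebra.discr ℚ B.basis =
      (-1) ^ (m * (m - 1) / 2) * ((m : ℚ) ^ m * ((-1) ^ m * (-(b : ℚ))) ^ (m - 1)) := by
    rw [Algebra.discr_powerBasis_eq_norm, PowerBasis.finrank B, hdim]
    congr 1
    rw [← hnorm, hgen, hmin]
    rw [derivative_sub, derivative_C, sub_zero, derivative_X_pow, map_mul, map_pow, aeval_X,
      aeval_C, map_mul, map_pow, Algebra.norm_algebraMap, hfr]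
  let d : ℤ := (-1) ^ (m * (m - 1) / 2) * ((m : ℤ) ^ m * ((-1) ^ m * (-(b : ℤ))) ^ (m - 1))
  have hd : (d : ℚ) = Algebra.discr ℚ B.basis := by
    rw [hdis]
    simp [d]
  have hd0 : d ≠ 0 := by
    intro h
    have h2 := Algebra.discr_not_zero_of_basis ℚ B.basis
    rw [← hd, h] at h2
    exact h2 (by simp)
  refine ⟨d, hd0, ?_, ?_, ?_⟩
  · intro p hp hpd
    have hpp : Prime (p : ℤ) := Nat.prime_iff_prime_int.mp hp
    have hu : ∀ k : ℕ, ¬ (p : ℤ) ∣ (-1) ^ k := by
      intro k h
      have := hpp.dvd_of_dvd_pow h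
      rw [dvd_neg] at this
      exact hpp.not_unit (isUnit_of_dvd_one this)
    rcases hpp.dvd_or_dvd hpd with h | h
    · exact absurd h (hu _)
    · rcases hpp.dvd_or_dvd h with h | h
      · have h1 := hpp.dvd_of_dvd_pow h
        have h2 : p ∣ m := by exact_mod_cast h1
        exact dvd_mul_of_dvd_left h2 b
      · have h1 := hpp.dvd_of_dvd_pow h
        rcases hpp.dvd_or_dvd h1 with h2 | h2
        · exact absurd h2 (hu _)
        · rw [dvd_neg] at h2
          have h3 : p ∣ b := by exact_mod_cast h2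
          exact dvd_mul_of_dvd_right h3 m
  · intro y
    rw [locB_mem]
    have hBint : IsIntegral ℤ B.gen := by rw [hgen]; exact RingOfIntegers.isIntegral_coe x
    have key := Algebra.discr_mul_isIntegral_mem_adjoin (R := ℤ) (K := ℚ) (B := B) hBint
      (z := (y : F)) (RingOfIntegers.isIntegral_coe y)
    rw [hgen, ← hd] at key
    have h4 : (d : ℚ) • (y : F) = (((d : 𝓞 F) * y : 𝓞 F) : F) := by
      rw [Algebra.smul_def]
      simp
    rw [← h4]
    exact key
  · have hcard : Fintype.card (Module.Free.ChooseBasisIndex ℤ (𝓞 F)) = B.dim := by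
      rw [← Module.finrank_eq_card_chooseBasisIndex, RingOfIntegers.rank, hfr, hdim]
    let e : Module.Free.ChooseBasisIndex ℤ (𝓞 F) ≃ Fin B.dim := Fintype.equivFinOfCardEq hcard
    let c : Module.Basis (Fin B.dim) ℚ F := (integralBasis F).reindex e
    let P : Matrix (Fin B.dim) (Fin B.dim) ℤ := Matrix.of fun i j =>
      (RingOfIntegers.basis F).repr (x ^ (j : ℕ)) (e.symm i)
    have hQ : c.toMatrix B.basis = P.map (Int.castRingHom ℚ) := by
      ext i j
      rw [Module.Basis.toMatrix_apply, Matrix.map_apply]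
      have h5 : B.basis j = algebraMap (𝓞 F) F (x ^ (j : ℕ)) := by
        rw [B.basis_eq_pow, hgen, map_pow]
      rw [h5]
      simp only [c, Module.Basis.repr_reindex_apply, integralBasis_repr_apply, P, Matrix.of_apply]
      rfl
    have hvec : (B.basis : Fin B.dim → F) =
        Matrix.vecMul (c : Fin B.dim → F) ((c.toMatrix B.basis).map (algebraMap ℚ F)) := by
      funext j
      have h6 := c.sum_toMatrix_smul_self B.basis j
      rw [← h6]
      simp only [Matrix.vecMul, dotProduct, Matrix.map_apply]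
      refine Finset.sum_congr rfl (fun i _ => ?_)
      rw [Algebra.smul_def, mul_comm]
    have h7 : Algebra.discr ℚ B.basis = (c.toMatrix B.basis).det ^ 2 * Algebra.discr ℚ c := by
      rw [← Algebra.discr_of_matrix_vecMul, ← hvec]
    have h8 : Algebra.discr ℚ (c : Fin B.dim → F) = (NumberField.discr F : ℚ) := by
      rw [NumberField.coe_discr]
      simp only [c, Module.Basis.coe_reindex]
      exact Algebra.discr_reindex ℚ (integralBasis F) e
    have h9 : (c.toMatrix B.basis).det = ((P.det : ℤ) : ℚ) := by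
      rw [hQ]
      exact (RingHom.map_det (Int.castRingHom ℚ) P).symm
    have h10 : (d : ℚ) = ((P.det ^ 2 * NumberField.discr F : ℤ) : ℚ) := by
      rw [hd, h7, h8, h9]
      push_cast
      ring
    have h11 : d = P.det ^ 2 * NumberField.discr F := by exact_mod_cast h10
    exact ⟨P.det ^ 2, by rw [h11]; ring⟩

end Pool.Agent.H4.RR
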