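import Pool.Agent.H4.RR.LocQ
import Pool.Agent.H4.RR.LocB

/-!
# Module Maximal (MP_187c26_nt, real radical towers)

`ℤ[b^(1/m)]` is the full ring of integers for `b` squarefree and `m` free of primes `q` with
`q^2 ∣ b^(q-1) - 1`.

Proof: take `d` from `exists_denominator`. Claim: for every nonzero natural number `d` all of whose
prime factors divide `m * b`: `(d : 𝓞 F) * y ∈ A → y ∈ A` (`A = ℤ[x]`). Induction on `d`
(`Nat.recOnMul`, `induction_on_primes`, or strong induction): `d = 1` clear; `d = q * d'`: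
`q * (d' y) ∈ A`, `q ∣ m b`. If `q ∣ b` use `locB`, otherwise `q ∣ m` and `locQ` (hypothesis `hW`).
Use `d.natAbs`. The prime divisors of `discr F` divide `d`, hence `m * b`.
The basis: `Algebra.adjoin ℤ {x} = ⊤` and `X^m - b` the minimal polynomial give an integral power
basis (`PowerBasis.ofAdjoinEqTop`, `Algebra.adjoin.powerBasis'`, …) whose basis vectors are `x^i`;
its dimension is `m` (reindex with `finCongr`), or build it with `Module.Basis.mk` from linear
independence of `1, x, …, x^(m-1)` over `ℤ` and span `= adjoin = ⊤`.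
-/

set_option autoImplicit false

open NumberField Polynomial

namespace Pool.Agent.H4.RR

theorem adjoin_eq_top (F : Type) [Field F] [NumberField F] (m b : ℕ) (hm : 1 ≤ m)
    (hb : 2 ≤ b) (hsq : Squarefree b)
    (hW : ∀ q : ℕ, q.Prime → q ∣ m → ¬ q ^ 2 ∣ b ^ (q - 1) - 1) (x : 𝓞 F)
    (hx : x ^ m = (b : 𝓞 F)) (hfr : Module.finrank ℚ F = m)
    (htop : IntermediateField.adjoin ℚ {(x : F)} = ⊤) :
    Algebra.adjoin ℤ {x} = ⊤ ∧ ∀ p : ℕ, p.Prime → (p : ℤ) ∣ discr F → p ∣ m * b := by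
  obtain ⟨d, hd0, hdp, hdA, hdF⟩ := exists_denominator F m b hm (by omega) x hx hfr htop
  have key : ∀ e : ℕ, e ≠ 0 → (∀ p : ℕ, p.Prime → p ∣ e → p ∣ m * b) → ∀ y : 𝓞 F,
      (e : 𝓞 F) * y ∈ Algebra.adjoin ℤ {x} → y ∈ Algebra.adjoin ℤ {x} := by
    intro e
    induction e using Nat.strong_induction_on with
    | _ e ih =>
      intro he hp y hy
      by_cases h1 : e = 1
      · subst h1
        simpa using hy
      · obtain ⟨q, hq, e', rfl⟩ := Nat.exists_prime_and_dvd h1
        have he' : e' ≠ 0 := by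
          rintro rfl
          simp at he
        have hlt : e' < q * e' := by
          have := hq.two_le
          have : 0 < e' := Nat.pos_of_ne_zero he'
          nlinarith
        refine ih e' hlt he' (fun p hpp hpe => hp p hpp (hpe.mul_left q)) y ?_
        have hqmb : q ∣ m * b := hp q hq (Dvd.intro _ rfl)
        have hy' : (q : 𝓞 F) * ((e' : 𝓞 F) * y) ∈ Algebra.adjoin ℤ {x} := by
          rw [← mul_assoc, ← Nat.cast_mul]
          exact hy
        by_cases hqb : q ∣ b
        · exact locB F m b q hm hq hqb hsq x hx hfr htop _ hy'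
        · have hqm : q ∣ m := (hq.dvd_mul.1 hqmb).resolve_right hqb
          exact locQ F m b q hm hq hqm hqb (hW q hq hqm) x hx hfr htop _ hy'
  refine ⟨?_, fun p hp hpd => hdp p hp (hpd.trans hdF)⟩
  rw [eq_top_iff]
  intro y _
  have hdn : d.natAbs ≠ 0 := Int.natAbs_ne_zero.2 hd0
  refine key d.natAbs hdn (fun p hp hpd => hdp p hp (Int.natCast_dvd.2 hpd)) y ?_
  have h := hdA y
  rcases Int.natAbs_eq d with h' | h'
  · have e : ((d.natAbs : ℕ) : 𝓞 F) = (d : 𝓞 F) := by
      conv_rhs => rw [h']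
      simp
    rw [e]
    exact h
  · have e : ((d.natAbs : ℕ) : 𝓞 F) * y = -((d : 𝓞 F) * y) := by
      conv_rhs => rw [h']
      simp
    rw [e]
    exact neg_mem h

theorem exists_int_basis (F : Type) [Field F] [NumberField F] (m b : ℕ) (hm : 1 ≤ m)
    (hb : 2 ≤ b) (hsq : Squarefree b)
    (hW : ∀ q : ℕ, q.Prime → q ∣ m → ¬ q ^ 2 ∣ b ^ (q - 1) - 1) (x : 𝓞 F)
    (hx : x ^ m = (b : 𝓞 F)) (hfr : Module.finrank ℚ F = m)
    (htop : IntermediateField.adjoin ℚ {(x : F)} = ⊤) :
    ∃ bas : Module.Basis (Fin m) ℤ (𝓞 F), ∀ i, bas i = x ^ (i : ℕ) := by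
  obtain ⟨hA, -⟩ := adjoin_eq_top F m b hm hb hsq hW x hx hfr htop
  have hint : IsIntegral ℤ x := ⟨X ^ m - C (b : ℤ), monic_X_pow_sub_C _ (by omega), by simp [hx]⟩
  let pb : PowerBasis ℤ (𝓞 F) := PowerBasis.ofAdjoinEqTop' hint hA
  have hgen : pb.gen = x := PowerBasis.ofAdjoinEqTop'_gen hint hA
  have hdim : pb.dim = m := by
    rw [← PowerBasis.finrank pb, RingOfIntegers.rank, hfr]
  refine ⟨pb.basis.reindex (finCongr hdim), fun i => ?_⟩
  rw [Module.Basis.reindex_apply, PowerBasis.coe_basis, hgen]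
  rfl

end Pool.Agent.H4.RR
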