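import Pool.Agent.H4.RR.Irred
import Pool.Agent.H4.RR.Maximal

/-!
# Module Compos (MP_187c26_nt, real radical towers)

`F = K(x)`, `x^m = b` squarefree, `discr K` prime to `m b`, `m` free of Wieferich primes to base `b`:
`[F:K] = m`, `𝓞 F` has `𝓞 K`-basis `1, x, …, x^(m-1)`, and primes dividing `discr F` divide
`discr K * m * b`.

Proof. `[F:K] = m` is `finrank_eq`. In `F` consider the intermediate fields of `F/ℚ`:
`F₁ = ` image of `K` (`(algebraMap K F).fieldRange` as an `IntermediateField ℚ F`) and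
`F₂ = ℚ⟮x⟯`; `[F₂:ℚ] = m` by `finrank_eq ℚ F₂` (`discr ℚ = 1`). `F₁ ⊔ F₂ = ⊤` and
`[F:ℚ] = [K:ℚ] m = [F₁:ℚ][F₂:ℚ]`, so they are linearly disjoint
(`IntermediateField.LinearDisjoint.of_finrank_sup` or similar). `exists_int_basis` for `F₂` gives a
`ℤ`-basis `x^i` of `𝓞 F₂` and primes dividing `discr F₂` divide `m b`, so the discriminants of `K`
(`= discr F₁`, `NumberField.discr_eq_discr_of_ringEquiv`/`discr_eq_discr_of_algEquiv`) and `F₂` are
coprime, `NumberField.isCoprime_differentIdeal_of_isCoprime_discr` gives coprime differents, and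
`Module.Basis.ofIsCoprimeDifferentIdeal ℤ (𝓞 F) (𝓞 F₁ or 𝓞 K) (𝓞 F₂) …` is the wanted basis
(`ofIsCoprimeDifferentIdeal_apply`). For the last claim use
`NumberField.natAbs_discr_eq_natAbs_discr_pow_mul_natAbs_discr_pow`.
If it is easier to work with `𝓞 F₁` first, transport the basis along the ring isomorphism
`𝓞 K ≃+* 𝓞 F₁` (`Module.Basis.mapCoeffs`, or rebuild it from linear independence and span).
See `Mathlib/NumberTheory/NumberField/Cyclotomic/Basic.lean` (around line 720-760) for a model.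
-/

set_option autoImplicit false

open NumberField Polynomial

namespace Pool.Agent.H4.RR

/-- the copy of `K` in `F` -/
private noncomputable def cpF1 (K F : Type) [Field K] [NumberField K] [Field F] [NumberField F]
    [Algebra K F] : IntermediateField ℚ F := (IsScalarTower.toAlgHom ℚ K F).fieldRange

private theorem cp_sup (K F : Type) [Field K] [NumberField K] [Field F] [NumberField F]
    [Algebra K F] (x : F) (htop : IntermediateField.adjoin K {x} = ⊤) :
    cpF1 K F ⊔ IntermediateField.adjoin ℚ {x} = ⊤ := by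
  rw [eq_top_iff]
  intro y _
  have hy : y ∈ IntermediateField.adjoin K {x} := by rw [htop]; trivial
  refine IntermediateField.adjoin_induction K
    (p := fun z _ => z ∈ cpF1 K F ⊔ IntermediateField.adjoin ℚ {x})
    ?_ ?_ ?_ ?_ ?_ hy
  · intro z hz
    rw [Set.mem_singleton_iff] at hz
    subst hz
    exact (le_sup_right : _ ≤ cpF1 K F ⊔ IntermediateField.adjoin ℚ {z})
      (IntermediateField.mem_adjoin_simple_self ℚ z)
  · intro k
    refine (le_sup_left : cpF1 K F ≤ cpF1 K F ⊔ IntermediateField.adjoin ℚ {x}) ?_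
    exact ⟨k, rfl⟩
  · intro a b _ _ ha hb
    exact add_mem ha hb
  · intro a _ ha
    exact inv_mem ha
  · intro a b _ _ ha hb
    exact mul_mem ha hb

private theorem cp_gen_top (F : Type) [Field F] [NumberField F] (x : F)
    (x' : IntermediateField.adjoin ℚ {x}) (hx' : (x' : F) = x) :
    IntermediateField.adjoin ℚ {x'} = ⊤ := by
  rw [eq_top_iff]
  rintro ⟨y, hy⟩ _
  refine IntermediateField.adjoin_induction ℚ
    (p := fun z hz => (⟨z, hz⟩ : IntermediateField.adjoin ℚ {x}) ∈ IntermediateField.adjoin ℚ {x'})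
    ?_ ?_ ?_ ?_ ?_ hy
  · intro z hz
    have h1 : (⟨z, IntermediateField.subset_adjoin ℚ {x} hz⟩ : IntermediateField.adjoin ℚ {x}) = x' :=
      Subtype.ext ((Set.mem_singleton_iff.1 hz).trans hx'.symm)
    exact h1 ▸ IntermediateField.mem_adjoin_simple_self ℚ x'
  · intro q
    have h1 : (⟨algebraMap ℚ F q, IntermediateField.algebraMap_mem _ _⟩ :
        IntermediateField.adjoin ℚ {x}) = (q : IntermediateField.adjoin ℚ {x}) := by
      apply Subtype.ext
      simp
    rw [h1]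
    have h2 := IntermediateField.algebraMap_mem (IntermediateField.adjoin ℚ {x'}) q
    rwa [eq_ratCast] at h2
  · intro a b ha hb h1 h2
    exact add_mem h1 h2
  · intro a ha h1
    exact inv_mem h1
  · intro a b ha hb h1 h2
    exact mul_mem h1 h2

theorem compos (K F : Type) [Field K] [NumberField K] [Field F] [NumberField F]
    [Algebra K F] (m b : ℕ) (hm : 1 ≤ m) (hb : 2 ≤ b) (hsq : Squarefree b)
    (hW : ∀ q : ℕ, q.Prime → q ∣ m → ¬ q ^ 2 ∣ b ^ (q - 1) - 1)
    (hcop : IsCoprime (discr K) ((m * b : ℕ) : ℤ)) (x : 𝓞 F) (hx : x ^ m = (b : 𝓞 F))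
    (htop : IntermediateField.adjoin K {(x : F)} = ⊤) :
    Module.finrank K F = m ∧
    (∃ bas : Module.Basis (Fin m) (𝓞 K) (𝓞 F), ∀ i, bas i = x ^ (i : ℕ)) ∧
    (∀ p : ℕ, p.Prime → (p : ℤ) ∣ discr F → (p : ℤ) ∣ discr K ∨ p ∣ m * b) := by
  have hxF : (x : F) ^ m = (b : F) := by
    have := congrArg (algebraMap (𝓞 F) F) hx
    simpa using this
  have hcopb : IsCoprime (discr K) (b : ℤ) := by
    push_cast at hcop
    exact hcop.of_mul_right_right
  have hfin : Module.finrank K F = m := finrank_eq K F m b hm hb hsq hcopb (x : F) hxF htop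
  set F₁ : IntermediateField ℚ F := cpF1 K F with hF₁
  set F₂ : IntermediateField ℚ F := IntermediateField.adjoin ℚ {(x : F)} with hF₂
  have hsup : F₁ ⊔ F₂ = ⊤ := cp_sup K F (x : F) htop
  let e : K ≃ₐ[ℚ] F₁ := AlgEquiv.ofInjectiveField (IsScalarTower.toAlgHom ℚ K F)
  have he : ∀ k : K, ((e k : F₁) : F) = algebraMap K F k := fun k => rfl
  have hd1 : discr F₁ = discr K := (discr_eq_discr_of_algEquiv K e).symm
  -- the generator of `F₂`
  let x' : F₂ := ⟨(x : F), IntermediateField.mem_adjoin_simple_self ℚ (x : F)⟩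
  have hx' : (x' : F) = (x : F) := rfl
  have hx'int : IsIntegral ℤ x' := by
    have h1 : IsIntegral ℤ ((algebraMap F₂ F) x') := RingOfIntegers.isIntegral_coe x
    exact (isIntegral_algebraMap_iff (algebraMap F₂ F).injective).1 h1
  let x₂ : 𝓞 F₂ := ⟨x', hx'int⟩
  have hx₂ : ((x₂ : F₂) : F) = (x : F) := rfl
  have hx₂pow : x₂ ^ m = (b : 𝓞 F₂) := by
    apply RingOfIntegers.ext
    apply (algebraMap F₂ F).injective
    have h1 : ((algebraMap (𝓞 F₂) F₂ x₂ : F₂) : F) ^ m = (b : F) := hxF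
    simpa using h1
  have hx'pow : x' ^ m = (b : F₂) := by
    apply (algebraMap F₂ F).injective
    have : ((x' : F₂) : F) ^ m = (b : F) := hxF
    simpa using this
  have htop₂ : IntermediateField.adjoin ℚ {(x₂ : F₂)} = ⊤ := cp_gen_top F (x : F) x' rfl
  have hfin₂ : Module.finrank ℚ F₂ = m := by
    refine finrank_eq ℚ F₂ m b hm hb hsq ?_ x' hx'pow htop₂
    rw [discr_rat]
    exact isCoprime_one_left
  obtain ⟨bas₂, hbas₂⟩ := exists_int_basis F₂ m b hm hb hsq hW x₂ hx₂pow hfin₂ htop₂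
  have hdd := (adjoin_eq_top F₂ m b hm hb hsq hW x₂ hx₂pow hfin₂ htop₂).2
  have hcpr : IsCoprime (discr F₁) (discr F₂) := by
    rw [hd1, Int.isCoprime_iff_gcd_eq_one]
    by_contra hne
    obtain ⟨p, hp, hpd⟩ := Nat.exists_prime_and_dvd hne
    have h1 : (p : ℤ) ∣ discr K := (Int.natCast_dvd_natCast.2 hpd).trans (Int.gcd_dvd_left _ _)
    have h2 : (p : ℤ) ∣ discr F₂ := (Int.natCast_dvd_natCast.2 hpd).trans (Int.gcd_dvd_right _ _)
    have h3 : (p : ℤ) ∣ ((m * b : ℕ) : ℤ) := Int.natCast_dvd_natCast.2 (hdd p hp h2)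
    have h4 : IsUnit (p : ℤ) := hcop.isUnit_of_dvd' h1 h3
    have h5 : (p : ℤ).natAbs = 1 := Int.isUnit_iff_natAbs_eq.1 h4
    rw [Int.natAbs_natCast] at h5
    exact hp.one_lt.ne' h5
  have hdisj : F₁.LinearDisjoint F₂ := by
    apply IntermediateField.LinearDisjoint.of_finrank_sup
    rw [hsup, hfin₂, ← e.toLinearEquiv.finrank_eq, IntermediateField.finrank_top', ← hfin,
      Module.finrank_mul_finrank]
  have hcd := isCoprime_differentIdeal_of_isCoprime_discr F hcpr
  have htop' : F₁.toSubalgebra ⊔ F₂.toSubalgebra = ⊤ := by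
    rw [← IntermediateField.sup_toSubalgebra_of_left, hsup, IntermediateField.top_toSubalgebra]
  refine ⟨hfin, ?_, ?_⟩
  · let bas₁ : Module.Basis (Fin m) (𝓞 F₁) (𝓞 F) :=
      bas₂.ofIsCoprimeDifferentIdeal ℤ (𝓞 F) (𝓞 F₁) (𝓞 F₂) hdisj htop' hcd
    have hbas₁ : ∀ i, bas₁ i = x ^ (i : ℕ) := by
      intro i
      have h1 : bas₁ i = algebraMap (𝓞 F₂) (𝓞 F) (bas₂ i) :=
        Module.Basis.ofIsCoprimeDifferentIdeal_apply ℤ (𝓞 F) (𝓞 F₁) (𝓞 F₂) hdisj htop' hcd bas₂ i
      rw [h1, hbas₂, map_pow]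
      congr 1
    let f : 𝓞 K ≃+* 𝓞 F₁ := RingOfIntegers.mapRingEquiv e.toRingEquiv
    refine ⟨bas₁.mapCoeffs f.symm ?_, fun i => ?_⟩
    · intro c y
      rw [Algebra.smul_def, Algebra.smul_def]
      congr 1
      apply RingOfIntegers.ext
      have h1 : f (f.symm c) = c := f.apply_symm_apply c
      have h2 : ((f (f.symm c) : 𝓞 F₁) : F₁) = (c : F₁) := by rw [h1]
      have h3 : (((f (f.symm c) : 𝓞 F₁) : F₁) : F) = algebraMap K F ((f.symm c : 𝓞 K) : K) := rfl
      rw [h2] at h3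
      exact h3.symm
    · rw [Module.Basis.mapCoeffs_apply, hbas₁]
  · intro p hp hpd
    have h1 := natAbs_discr_eq_natAbs_discr_pow_mul_natAbs_discr_pow F F₁ F₂ hdisj hsup hcd
    have h2 : p ∣ (discr F).natAbs := by
      have := Int.natAbs_dvd_natAbs.2 hpd
      rwa [Int.natAbs_natCast] at this
    rw [h1] at h2
    rcases (Nat.Prime.dvd_mul hp).1 h2 with h3 | h3
    · left
      have h4 := hp.dvd_of_dvd_pow h3
      rw [hd1] at h4
      exact Int.natCast_dvd.2 h4
    · right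
      have h4 := hp.dvd_of_dvd_pow h3
      exact hdd p hp (Int.natCast_dvd.2 h4)

end Pool.Agent.H4.RR
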