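import Pool.Agent.H4.RR.FiniteStep
import Pool.Agent.H4.RR.Compos
import Pool.Agent.H4.RR.AbsHeight

/-!
# The step theorem inside a fixed field (MP_187c26_nt, real radical towers)
-/

set_option autoImplicit false

open NumberField Polynomial IntermediateField

namespace Pool.Agent.H4.RR

variable {Ω : Type} [Field Ω] [CharZero Ω]

/-- Elements of `E` outside `S` have absolute logarithmic height at least `κ`. -/
def Bog (E : IntermediateField ℚ Ω) (S : Subgroup Ωˣ) (κ : ℝ) : Prop :=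
  ∀ a : Ωˣ, (a : Ω) ∈ E → a ∉ S → κ ≤ absLogHeight₁ (a : Ω)

/-- Elements of `S ∩ E` are quotients of integers of `E` with small conjugates. -/
def Den (E : IntermediateField ℚ Ω) (S : Subgroup Ωˣ) (θ : ℝ) : Prop :=
  ∀ s ∈ S, (s : Ω) ∈ E → ∃ g1 g2 : 𝓞 E, g1 ≠ 0 ∧ g2 ≠ 0 ∧
    (s : Ω) * ((g2 : E) : Ω) = ((g1 : E) : Ω) ∧
    ∀ τ : E →+* ℂ, ‖τ (g1 : E)‖ ≤ Real.exp (θ * absLogHeight₁ (s : Ω)) ∧
      ‖τ (g2 : E)‖ ≤ Real.exp (θ * absLogHeight₁ (s : Ω))

lemma isIntegral_of_pow_eq {A : Type} [CommRing A] (x : A) (m b : ℕ) (hm : 1 ≤ m)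
    (hx : x ^ m = (b : A)) : IsIntegral ℤ x := by
  refine ⟨X ^ m - C (b : ℤ), monic_X_pow_sub_C _ (by omega), ?_⟩
  simp [hx]

lemma numberField_sup (E : IntermediateField ℚ Ω) [NumberField E] (x : Ω) (hx : IsIntegral ℚ x) :
    NumberField (E ⊔ ℚ⟮x⟯ : IntermediateField ℚ Ω) := by
  have h1 : FiniteDimensional ℚ E := inferInstance
  have h2 : FiniteDimensional ℚ ℚ⟮x⟯ := adjoin.finiteDimensional hx
  have h3 : FiniteDimensional ℚ (E ⊔ ℚ⟮x⟯ : IntermediateField ℚ Ω) :=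
    IntermediateField.finiteDimensional_sup E ℚ⟮x⟯
  exact { to_charZero := inferInstance, to_finiteDimensional := h3 }

theorem step (E E' : IntermediateField ℚ Ω) [NumberField E] [NumberField E'] (S : Subgroup Ωˣ)
    (κ θ : ℝ) (hκ : 0 < κ) (hθ : 0 ≤ θ) (hB : Bog E S κ) (hD : Den E S θ)
    (m b : ℕ) (hm : 1 ≤ m) (hb : 2 ≤ b) (hsq : Squarefree b)
    (hW : ∀ q : ℕ, q.Prime → q ∣ m → ¬ q ^ 2 ∣ b ^ (q - 1) - 1)
    (hcop : IsCoprime (discr E) ((m * b : ℕ) : ℤ)) (x : Ωˣ) (hx : (x : Ω) ^ m = (b : Ω))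
    (hE' : E' = E ⊔ ℚ⟮(x : Ω)⟯) :
    Bog E' (S ⊔ Subgroup.zpowers x) (min κ (Real.log (5 / 4) / (2 + 2 * θ))
      - min κ (Real.log (5 / 4) / (2 + 2 * θ)) ^ 2 / Real.log b) ∧
    (∀ p : ℕ, p.Prime → (p : ℤ) ∣ discr E' → (p : ℤ) ∣ discr E ∨ p ∣ m * b) := by
  have hle : E ≤ E' := by rw [hE']; exact le_sup_left
  have hxE' : (x : Ω) ∈ E' := by
    rw [hE']
    exact (le_sup_right : ℚ⟮(x : Ω)⟯ ≤ _) (mem_adjoin_simple_self ℚ _)
  letI : Algebra E E' := (IntermediateField.inclusion hle).toRingHom.toAlgebra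
  have hmap : ∀ y : E, ((algebraMap E E' y : E') : Ω) = (y : Ω) := fun y => rfl
  have : IsScalarTower ℚ E E' := IsScalarTower.of_algebraMap_eq (fun r => rfl)
  let x' : E' := ⟨(x : Ω), hxE'⟩
  have hx' : x' ^ m = (b : E') := by
    apply Subtype.ext
    simp [x', hx]
  let xo : 𝓞 E' := ⟨x', isIntegral_of_pow_eq x' m b hm hx'⟩
  have hxo : xo ^ m = (b : 𝓞 E') := by
    apply RingOfIntegers.ext
    simpa [xo] using hx'
  have hxoc : ((xo : 𝓞 E') : E') = x' := rfl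
  have htop : IntermediateField.adjoin E {(xo : E')} = ⊤ := by
    rw [hxoc, eq_top_iff]
    intro y _
    let T : IntermediateField ℚ Ω :=
      ((IntermediateField.adjoin E {x'}).restrictScalars ℚ).map E'.val
    have h1 : E' ≤ T := by
      rw [hE']
      apply sup_le
      · intro z hz
        refine ⟨algebraMap E E' ⟨z, hz⟩, ?_, rfl⟩
        exact (IntermediateField.adjoin E {x'}).algebraMap_mem _
      · rw [adjoin_le_iff]
        intro z hz
        rw [Set.mem_singleton_iff] at hz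
        rw [hz]
        exact ⟨x', mem_adjoin_simple_self E x', rfl⟩
    obtain ⟨z, hz, hzy⟩ := h1 y.2
    have : z = y := Subtype.ext hzy
    rw [← this]
    exact hz
  obtain ⟨hrank, ⟨bas, hbas⟩, hdisc⟩ := compos E E' m b hm hb hsq hW hcop xo hxo htop
  refine ⟨?_, hdisc⟩
  intro a haE' haS
  set SK : Subgroup Eˣ := S.comap (Units.map (E.val : E →* Ω)) with hSK
  have hN : (0 : ℝ) < Module.finrank ℚ E := by exact_mod_cast Module.finrank_pos
  have hN' : (0 : ℝ) < Module.finrank ℚ E' := by exact_mod_cast Module.finrank_pos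
  have habs : ∀ y : E, absLogHeight₁ (y : Ω) = Height.logHeight₁ y / Module.finrank ℚ E :=
    fun y => absLogHeight_eq E Ω (E.val : E →+* Ω) y
  have habs' : ∀ y : E', absLogHeight₁ (y : Ω) = Height.logHeight₁ y / Module.finrank ℚ E' :=
    fun y => absLogHeight_eq E' Ω (E'.val : E' →+* Ω) y
  have hBog : ∀ a : Eˣ, a ∉ SK → κ * Module.finrank ℚ E ≤ Height.logHeight₁ (a : E) := by
    intro c hc
    have h1 := hB (Units.map (E.val : E →* Ω) c) (c : E).2 hc
    have h2 : absLogHeight₁ ((Units.map (E.val : E →* Ω) c : Ωˣ) : Ω)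
        = Height.logHeight₁ (c : E) / Module.finrank ℚ E := habs c
    rw [h2, le_div_iff₀ hN] at h1
    exact h1
  have hDen : ∀ s ∈ SK, ∃ g1 g2 : 𝓞 E, g1 ≠ 0 ∧ g2 ≠ 0 ∧ (s : E) * (g2 : E) = (g1 : E) ∧
      ∀ τ : E →+* ℂ,
        ‖τ (g1 : E)‖ ≤ Real.exp (θ * (Height.logHeight₁ (s : E) / Module.finrank ℚ E)) ∧
        ‖τ (g2 : E)‖ ≤ Real.exp (θ * (Height.logHeight₁ (s : E) / Module.finrank ℚ E)) := by
    intro s hs
    obtain ⟨g1, g2, h1, h2, h3, h4⟩ := hD (Units.map (E.val : E →* Ω) s) hs (s : E).2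
    refine ⟨g1, g2, h1, h2, Subtype.ext h3, fun τ => ?_⟩
    have h5 := h4 τ
    have h6 : absLogHeight₁ ((Units.map (E.val : E →* Ω) s : Ωˣ) : Ω)
        = Height.logHeight₁ (s : E) / Module.finrank ℚ E := habs s
    rw [h6] at h5
    exact h5
  set α : E' := ⟨(a : Ω), haE'⟩ with hα
  have hα0 : α ≠ 0 := by
    intro h
    have := congrArg (fun z : E' => (z : Ω)) h
    exact a.ne_zero this
  have hαS : ∀ s ∈ SK, ∀ j : ℤ, α ≠ algebraMap E E' (s : E) * (xo : E') ^ j := by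
    intro s hs j h
    apply haS
    have h1 : a = Units.map (E.val : E →* Ω) s * x ^ j := by
      apply Units.ext
      have h2 := congrArg (fun z : E' => (z : Ω)) h
      rw [Units.val_mul, Units.val_zpow_eq_zpow_val]
      rw [hxoc] at h2
      have h8 : ((x' ^ j : E') : Ω) = (x : Ω) ^ j := map_zpow₀ (E'.val : E' →+* Ω) x' j
      have h9 : ((algebraMap E E' (s : E) * x' ^ j : E') : Ω)
          = ((algebraMap E E' (s : E) : E') : Ω) * ((x' ^ j : E') : Ω) := rfl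
      calc (a : Ω) = ((algebraMap E E' (s : E) * x' ^ j : E') : Ω) := h2
        _ = _ := by rw [h9, h8]; rfl
    rw [h1]
    exact Subgroup.mul_mem_sup hs (Subgroup.zpow_mem_zpowers x j)
  have hfin := finiteStep E E' m b hm hb xo hxo hrank htop bas hbas SK κ θ hκ hθ hBog hDen α hα0 hαS
  have h7 : absLogHeight₁ (a : Ω) = Height.logHeight₁ α / Module.finrank ℚ E' := habs' α
  rw [h7, le_div_iff₀ hN']
  exact hfin

end Pool.Agent.H4.RR
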