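import Mathlib

/-!
# Real radical towers: definitions and basic facts

`beta m b = b^(1/m)`, `node m b j = b^(1/m) exp(2 pi i j/m)` are the `m`-th roots of `b`;
`nsq` is a weighted mean square of a polynomial at the nodes; `fam`, `famDet`, `rho` are the
polynomial families and determinants used in the proof.
-/

set_option autoImplicit false

open Polynomial

namespace Pool.Agent.H4.RR

/-- The positive real number `b^(1/m)`. -/
noncomputable def beta (m b : ℕ) : ℝ := (b : ℝ) ^ (1 / (m : ℝ))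

/-- The `m`-th roots of `b`: `node m b j = b^(1/m) * exp (2 pi i j / m)`. -/
noncomputable def node (m b : ℕ) (j : Fin m) : ℂ :=
  (beta m b : ℂ) * Complex.exp (2 * Real.pi * Complex.I * ((j : ℕ) : ℂ) / (m : ℂ))

/-- Weighted mean square of a polynomial at the nodes. -/
noncomputable def nsq (m b : ℕ) (M : Fin m → ℝ) (w : ℂ[X]) : ℝ :=
  (1 / (m : ℝ)) * ∑ j, ‖w.eval (node m b j)‖ ^ 2 / (M j) ^ 2

/-- The family `X^r u` (`r < D`), `X^(r-D) v` (`D ≤ r < 2D`), `X^(r-n) w` (`2D ≤ r`). -/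
noncomputable def fam {R : Type*} [CommRing R] (D n : ℕ) (u v w : R[X]) (r : ℕ) : R[X] :=
  if r < D then X ^ r * u else if r < 2 * D then X ^ (r - D) * v else X ^ (r - n) * w

/-- Determinant of the coefficients of the family `fam D n u v w r`, `r < m`. -/
noncomputable def famDet {R : Type*} [CommRing R] (m D n : ℕ) (u v w : R[X]) : R :=
  (Matrix.of fun r i : Fin m => (fam D n u v w (r : ℕ)).coeff (i : ℕ)).det

/-- The Sylvester determinant of `u, v` (formal degree `D`). -/
noncomputable def rho {R : Type*} [CommRing R] (D : ℕ) (u v : R[X]) : R :=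
  (Matrix.of fun r i : Fin (2 * D) => (fam D 0 u v 0 (r : ℕ)).coeff (i : ℕ)).det

lemma beta_pow (m b : ℕ) (hm : 1 ≤ m) : beta m b ^ m = (b : ℝ) := by
  unfold beta
  rw [← Real.rpow_natCast, ← Real.rpow_mul (Nat.cast_nonneg b)]
  have : (m : ℝ) ≠ 0 := by exact_mod_cast Nat.one_le_iff_ne_zero.mp hm
  rw [one_div_mul_cancel this, Real.rpow_one]

lemma beta_pos (m b : ℕ) (hb : 1 ≤ b) : 0 < beta m b := by
  unfold beta
  apply Real.rpow_pos_of_pos
  exact_mod_cast hb

lemma one_le_beta (m b : ℕ) (hb : 1 ≤ b) : 1 ≤ beta m b := by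
  unfold beta
  apply Real.one_le_rpow
  · exact_mod_cast hb
  · positivity

lemma log_beta (m b : ℕ) (hb : 1 ≤ b) : Real.log (beta m b) = Real.log b / m := by
  unfold beta
  rw [Real.log_rpow (by exact_mod_cast hb)]
  ring

lemma norm_node (m b : ℕ) (hb : 1 ≤ b) (j : Fin m) : ‖node m b j‖ = beta m b := by
  unfold node
  rw [norm_mul, Complex.norm_real, Real.norm_eq_abs, abs_of_pos (beta_pos m b hb)]
  have : (2 * (Real.pi : ℂ) * Complex.I * ((j : ℕ) : ℂ) / (m : ℂ))
      = ((2 * Real.pi * (j : ℕ) / m : ℝ) : ℂ) * Complex.I := by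
    push_cast
    ring
  rw [this, Complex.norm_exp_ofReal_mul_I, mul_one]

lemma node_pow (m b : ℕ) (hm : 1 ≤ m) (j : Fin m) : node m b j ^ m = (b : ℂ) := by
  unfold node
  have hm' : (m : ℂ) ≠ 0 := by exact_mod_cast Nat.one_le_iff_ne_zero.mp hm
  rw [mul_pow, ← Complex.exp_nat_mul]
  have h1 : (m : ℂ) * (2 * (Real.pi : ℂ) * Complex.I * ((j : ℕ) : ℂ) / (m : ℂ))
      = ((j : ℕ) : ℂ) * (2 * (Real.pi : ℂ) * Complex.I) := by
    field_simp
  rw [h1, Complex.exp_nat_mul_two_pi_mul_I, mul_one, ← Complex.ofReal_pow, beta_pow m b hm]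
  simp

lemma node_ne_zero (m b : ℕ) (hb : 1 ≤ b) (j : Fin m) : node m b j ≠ 0 := by
  rw [← norm_pos_iff, norm_node m b hb]
  exact beta_pos m b hb

lemma nsq_nonneg (m b : ℕ) (M : Fin m → ℝ) (w : ℂ[X]) : 0 ≤ nsq m b M w := by
  unfold nsq
  positivity

/-- Multiplication by `X^a` scales `nsq` by `beta^(2a)`. -/
lemma nsq_X_pow_mul (m b : ℕ) (hb : 1 ≤ b) (M : Fin m → ℝ) (a : ℕ) (w : ℂ[X]) :
    nsq m b M (X ^ a * w) = beta m b ^ (2 * a) * nsq m b M w := by
  unfold nsq
  have h : ∀ j : Fin m, ‖(X ^ a * w).eval (node m b j)‖ ^ 2 / (M j) ^ 2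
      = beta m b ^ (2 * a) * (‖w.eval (node m b j)‖ ^ 2 / (M j) ^ 2) := by
    intro j
    rw [eval_mul, eval_pow, eval_X, norm_mul, norm_pow, norm_node m b hb]
    ring
  simp only [h]
  rw [← Finset.mul_sum]
  ring

/-- If the weights dominate the values of `w`, then `nsq ≤ 1`. -/
lemma nsq_le_one (m b : ℕ) (M : Fin m → ℝ) (hM : ∀ j, 0 < M j) (w : ℂ[X])
    (hw : ∀ j, ‖w.eval (node m b j)‖ ≤ M j) : nsq m b M w ≤ 1 := by
  unfold nsq
  rcases Nat.eq_zero_or_pos m with hm | hm
  · subst hm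
    simp
  · have h1 : ∑ j, ‖w.eval (node m b j)‖ ^ 2 / (M j) ^ 2 ≤ ∑ _j : Fin m, (1 : ℝ) := by
      apply Finset.sum_le_sum
      intro j _
      rw [div_le_one (by have := hM j; positivity)]
      exact pow_le_pow_left₀ (norm_nonneg _) (hw j) 2
    have h2 : (∑ _j : Fin m, (1 : ℝ)) = m := by simp
    rw [h2] at h1
    have hm' : (0 : ℝ) < m := by exact_mod_cast hm
    calc (1 / (m : ℝ)) * ∑ j, ‖w.eval (node m b j)‖ ^ 2 / (M j) ^ 2
        ≤ (1 / (m : ℝ)) * m := by gcongr
      _ = 1 := by field_simp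

section Fam

variable {R : Type*} [CommRing R]

lemma fam_map {R' : Type*} [CommRing R'] (f : R →+* R') (D n : ℕ) (u v w : R[X]) (r : ℕ) :
    (fam D n u v w r).map f = fam D n (u.map f) (v.map f) (w.map f) r := by
  unfold fam
  split_ifs <;> simp

lemma famDet_map {R' : Type*} [CommRing R'] (f : R →+* R') (m D n : ℕ) (u v w : R[X]) :
    f (famDet m D n u v w) = famDet m D n (u.map f) (v.map f) (w.map f) := by
  unfold famDet
  rw [RingHom.map_det]
  congr 1
  ext r i
  simp [← fam_map]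

lemma rho_map {R' : Type*} [CommRing R'] (f : R →+* R') (D : ℕ) (u v : R[X]) :
    f (rho D u v) = rho D (u.map f) (v.map f) := by
  unfold rho
  rw [RingHom.map_det]
  congr 1
  ext r i
  have h0 : (0 : R'[X]) = (0 : R[X]).map f := by simp
  simp only [RingHom.mapMatrix_apply, Matrix.map_apply, Matrix.of_apply]
  rw [h0, ← fam_map, coeff_map]

/-- All members of the family have degree `< m`. -/
lemma fam_natDegree_lt (m D n : ℕ) (hD : 2 * D ≤ m) (hn : n ≤ 2 * D) (u v w : R[X])
    (hu : u.natDegree ≤ D) (hv : v.natDegree ≤ D) (hw : w.natDegree ≤ n) (r : ℕ) (hr : r < m) :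
    (fam D n u v w r).natDegree < m := by
  unfold fam
  have key : ∀ (a : ℕ) (p : R[X]), (X ^ a * p).natDegree ≤ a + p.natDegree := by
    intro a p
    refine le_trans natDegree_mul_le ?_
    gcongr
    exact natDegree_X_pow_le a
  split_ifs with h1 h2
  · have := key r u
    omega
  · have := key (r - D) v
    omega
  · have := key (r - n) w
    omega

end Fam

end Pool.Agent.H4.RR
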