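import Pool.Agent.H4.RR.Defs

/-!
# Module Vander (MP_187c26_nt, real radical towers)

The Vandermonde determinant of the nodes `x_j = b^(1/m) e(j/m)` has absolute value squared
`m^m * beta^(m(m-1))`.

Proof: let `V i j = x_j^i`. `V * Vᴴ` is diagonal: `∑_j x_j^i conj(x_j)^k = beta^(i+k) ∑_j e(j(i-k)/m)`
which is `0` for `i ≠ k` (`|i-k| < m`, geometric sum of a nontrivial `m`-th root of unity) and
`m * beta^(2i)` for `i = k`. Hence `|det V|^2 = det (V * Vᴴ) = ∏_i m beta^(2i)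
= m^m beta^(2 * (0+1+...+(m-1))) = m^m beta^(m(m-1))` (`Finset.sum_range_id_mul_two`).
Alternatively use `Complex.isPrimitiveRoot_exp` and known DFT facts.
-/

set_option autoImplicit false

namespace Pool.Agent.H4.RR

open Matrix in
theorem vander (m b : ℕ) (hm : 1 ≤ m) (hb : 1 ≤ b) :
    ‖(Matrix.of fun i j : Fin m => node m b j ^ (i : ℕ)).det‖ ^ 2
      = (m : ℝ) ^ m * beta m b ^ (m * (m - 1)) := by
  classical
  have hm0 : m ≠ 0 := Nat.one_le_iff_ne_zero.mp hm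
  have hmC : (m : ℂ) ≠ 0 := by exact_mod_cast hm0
  set ζ : ℂ := Complex.exp (2 * Real.pi * Complex.I / (m : ℂ)) with hζ
  have hprim : IsPrimitiveRoot ζ m := Complex.isPrimitiveRoot_exp m hm0
  have hnode : ∀ j : Fin m, node m b j = (beta m b : ℂ) * ζ ^ (j : ℕ) := by
    intro j
    unfold node
    rw [hζ, ← Complex.exp_nat_mul]
    congr 2
    ring
  have hζn : ‖ζ‖ = 1 := hprim.norm'_eq_one hm0
  have hζ0 : ζ ≠ 0 := hprim.ne_zero hm0
  have hconj : star ζ = ζ⁻¹ := by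
    rw [Complex.star_def, Complex.inv_eq_conj hζn]
  set V : Matrix (Fin m) (Fin m) ℂ := Matrix.of fun i j : Fin m => node m b j ^ (i : ℕ) with hV
  have hdiag : V * Vᴴ = Matrix.diagonal (fun i : Fin m => (m : ℂ) * (beta m b : ℂ) ^ (2 * (i : ℕ))) := by
    ext i k
    rw [Matrix.mul_apply, Matrix.diagonal_apply]
    have hterm : ∀ j : Fin m, V i j * (Vᴴ) j k
        = (beta m b : ℂ) ^ ((i : ℕ) + (k : ℕ)) * (ζ ^ (i : ℕ) * (ζ⁻¹) ^ (k : ℕ)) ^ (j : ℕ) := by
      intro j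
      rw [Matrix.conjTranspose_apply, hV, Matrix.of_apply, Matrix.of_apply, hnode, star_pow,
        star_mul', star_pow, hconj, Complex.star_def, Complex.conj_ofReal]
      ring
    rw [Finset.sum_congr rfl (fun j _ => hterm j), ← Finset.mul_sum]
    by_cases hik : i = k
    · subst hik
      rw [if_pos rfl]
      have : ζ ^ (i : ℕ) * (ζ⁻¹) ^ (i : ℕ) = 1 := by
        rw [← mul_pow, mul_inv_cancel₀ hζ0, one_pow]
      rw [this]
      simp
      ring
    · rw [if_neg hik]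
      have hne : ζ ^ (i : ℕ) * (ζ⁻¹) ^ (k : ℕ) ≠ 1 := by
        intro h
        have h1 : ζ ^ (i : ℕ) = ζ ^ (k : ℕ) := by
          have h2 : ζ ^ (i : ℕ) * (ζ⁻¹) ^ (k : ℕ) * ζ ^ (k : ℕ) = ζ ^ (k : ℕ) := by rw [h, one_mul]
          rwa [mul_assoc, ← mul_pow, inv_mul_cancel₀ hζ0, one_pow, mul_one] at h2
        exact hik (Fin.ext (hprim.pow_inj i.2 k.2 h1))
      have hpow : (ζ ^ (i : ℕ) * (ζ⁻¹) ^ (k : ℕ)) ^ m = 1 := by
        rw [mul_pow, ← pow_mul, ← pow_mul, mul_comm (i : ℕ), mul_comm (k : ℕ), pow_mul, pow_mul,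
          inv_pow, hprim.pow_eq_one]
        simp
      rw [Fin.sum_univ_eq_sum_range (fun j => (ζ ^ (i : ℕ) * (ζ⁻¹) ^ (k : ℕ)) ^ j) m,
        geom_sum_eq hne, hpow]
      simp
  have hdet : (V.det) * star (V.det) = ∏ i : Fin m, (m : ℂ) * (beta m b : ℂ) ^ (2 * (i : ℕ)) := by
    rw [← Matrix.det_conjTranspose, ← Matrix.det_mul, hdiag, Matrix.det_diagonal]
  have hprod : (∏ i : Fin m, (m : ℂ) * (beta m b : ℂ) ^ (2 * (i : ℕ)))
      = (m : ℂ) ^ m * (beta m b : ℂ) ^ (m * (m - 1)) := by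
    rw [Finset.prod_mul_distrib, Finset.prod_const, Finset.card_univ, Fintype.card_fin,
      Finset.prod_pow_eq_pow_sum]
    congr 2
    rw [← Finset.mul_sum, Fin.sum_univ_eq_sum_range (fun j => j) m, mul_comm 2,
      Finset.sum_range_id_mul_two]
  rw [hprod, Complex.star_def, Complex.mul_conj, Complex.normSq_eq_norm_sq] at hdet
  exact_mod_cast hdet

end Pool.Agent.H4.RR
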