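import Pool.Agent.H4.RR.Hadamard
import Pool.Agent.H4.RR.Vander

/-!
# Module DetLe (MP_187c26_nt, real radical towers)

Weighted Hadamard inequality for coefficient determinants.

Proof: for `deg W_r < m` we have `W_r(x_j) = ∑_{i<m} coeff_i x_j^i`, i.e. the matrix
`E r j = W_r(x_j)` is `C * V` with `C r i = coeff (W r) i` and `V i j = x_j^i`
(`Polynomial.eval_eq_sum_range'` and `Fin.sum_univ_eq_sum_range`). Apply `hadamard` to
`A r j = W_r(x_j) / M_j` (`= C * V * diagonal (1/M)`): 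
`|det C|^2 |det V|^2 / ∏ M_j^2 ≤ ∏_r ∑_j |W_r(x_j)|^2/M_j^2 = ∏_r (m * nsq (W r)) = m^m ∏_r nsq (W r)`
and `|det V|^2 = m^m beta^(m(m-1))` by `vander`. Cancel `m^m > 0`.
-/

set_option autoImplicit false

open Polynomial

namespace Pool.Agent.H4.RR

private lemma eval_eq_fin (m : ℕ) (w : ℂ[X]) (hw : w.natDegree < m) (x : ℂ) :
    w.eval x = ∑ i : Fin m, w.coeff (i : ℕ) * x ^ (i : ℕ) := by
  rw [Polynomial.eval_eq_sum_range' hw, Fin.sum_univ_eq_sum_range (fun i => w.coeff i * x ^ i) m]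

theorem det_le (m b : ℕ) (hm : 1 ≤ m) (hb : 1 ≤ b) (M : Fin m → ℝ) (hM : ∀ j, 0 < M j)
    (W : Fin m → ℂ[X]) (hW : ∀ r, (W r).natDegree < m) :
    ‖(Matrix.of fun r i : Fin m => (W r).coeff (i : ℕ)).det‖ ^ 2 * beta m b ^ (m * (m - 1))
      ≤ (∏ j, (M j) ^ 2) * ∏ r, nsq m b M (W r) := by
  classical
  have hm0 : (0 : ℝ) < m := by exact_mod_cast hm
  set C : Matrix (Fin m) (Fin m) ℂ := Matrix.of fun r i : Fin m => (W r).coeff (i : ℕ) with hC
  set V : Matrix (Fin m) (Fin m) ℂ := Matrix.of fun i j : Fin m => node m b j ^ (i : ℕ) with hV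
  set D : Matrix (Fin m) (Fin m) ℂ := Matrix.diagonal fun j => (((M j)⁻¹ : ℝ) : ℂ) with hD
  have hA : ∀ r j, (C * V * D) r j = (W r).eval (node m b j) * (((M j)⁻¹ : ℝ) : ℂ) := by
    intro r j
    rw [hD, Matrix.mul_diagonal]
    congr 1
    rw [eval_eq_fin m (W r) (hW r), Matrix.mul_apply]
    rfl
  have h1 := hadamard (C * V * D)
  have h2 : ∏ i, ∑ j, ‖(C * V * D) i j‖ ^ 2 = (m : ℝ) ^ m * ∏ r, nsq m b M (W r) := by
    have : (m : ℝ) ^ m = ∏ _r : Fin m, (m : ℝ) := by simp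
    rw [this, ← Finset.prod_mul_distrib]
    apply Finset.prod_congr rfl
    intro r _
    unfold nsq
    rw [← mul_assoc, mul_one_div_cancel hm0.ne', one_mul]
    apply Finset.sum_congr rfl
    intro j _
    rw [hA, norm_mul, Complex.norm_real, Real.norm_eq_abs, abs_of_pos (inv_pos.mpr (hM j)), mul_pow,
      inv_pow, div_eq_mul_inv]
  have h3 : ‖(C * V * D).det‖ ^ 2
      = ‖C.det‖ ^ 2 * ((m : ℝ) ^ m * beta m b ^ (m * (m - 1))) * ∏ j, ((M j) ^ 2)⁻¹ := by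
    rw [Matrix.det_mul, Matrix.det_mul, norm_mul, norm_mul, mul_pow, mul_pow, ← vander m b hm hb]
    congr 1
    rw [hD, Matrix.det_diagonal, norm_prod, ← Finset.prod_pow]
    apply Finset.prod_congr rfl
    intro j _
    rw [Complex.norm_real, Real.norm_eq_abs, abs_of_pos (inv_pos.mpr (hM j)), inv_pow]
  rw [h2, h3] at h1
  have hP : 0 < ∏ j, (M j) ^ 2 := Finset.prod_pos fun j _ => pow_pos (hM j) 2
  rw [Finset.prod_inv_distrib] at h1
  have hmm : (0 : ℝ) < (m : ℝ) ^ m := pow_pos hm0 m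
  have h4 : (m : ℝ) ^ m * (‖C.det‖ ^ 2 * beta m b ^ (m * (m - 1)))
      ≤ (m : ℝ) ^ m * ((∏ j, (M j) ^ 2) * ∏ r, nsq m b M (W r)) := by
    have h5 := mul_le_mul_of_nonneg_right h1 hP.le
    have e1 : ‖C.det‖ ^ 2 * ((m : ℝ) ^ m * beta m b ^ (m * (m - 1))) * (∏ j, (M j) ^ 2)⁻¹
        * (∏ j, (M j) ^ 2) = (m : ℝ) ^ m * (‖C.det‖ ^ 2 * beta m b ^ (m * (m - 1))) := by
      field_simp
    rw [e1] at h5
    refine h5.trans (le_of_eq ?_)
    ring
  exact le_of_mul_le_mul_left h4 hmm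

end Pool.Agent.H4.RR
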