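import Pool.Agent.H4.RR.Defs

/-!
# Module Embed (MP_187c26_nt, real radical towers)

The embeddings of `F = K(x)`, `x^m = b`, `[F:K] = m`, are parametrised by pairs `(τ, j)`:
`τ` on `K` and `x ↦ node m b j`.

Proof: define `g : (F →+* ℂ) → (K →+* ℂ) × Fin m` by `σ ↦ (σ ∘ algebraMap, j)` where `σ x = node j`:
`(σ x)^m = b`, so `σ x / beta` is an `m`-th root of unity, a power of the primitive root
`exp(2 pi i/m)` (`Complex.isPrimitiveRoot_exp`, `IsPrimitiveRoot.eq_pow_of_pow_eq_one`).
`g` is injective since `F = K(x)` (two ring homs agreeing on `K` and on `x` are equal: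
`IntermediateField.adjoin`-induction or consider the equalizer as a subfield / use
`IntermediateField.algHom_ext_of_eq_adjoin`). Cardinalities: `Fintype.card (F →+* ℂ) = finrank ℚ F
= finrank ℚ K * m` (`NumberField.Embeddings.card`, `Module.finrank_mul_finrank`), so `g` is
bijective (`Fintype.bijective_iff_injective_and_card`). Take `e = (Equiv.ofBijective g _).symm`.
-/

set_option autoImplicit false

open NumberField

namespace Pool.Agent.H4.RR

lemma node_eq_mul_pow (m b : ℕ) (j : Fin m) :
    node m b j = (beta m b : ℂ) * (Complex.exp (2 * Real.pi * Complex.I / (m : ℂ))) ^ (j : ℕ) := by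
  unfold node
  rw [← Complex.exp_nat_mul]
  congr 2
  ring

lemma exists_node_eq (m b : ℕ) (hm : 1 ≤ m) (hb : 1 ≤ b) (z : ℂ) (hz : z ^ m = (b : ℂ)) :
    ∃ j : Fin m, z = node m b j := by
  have hm0 : m ≠ 0 := Nat.one_le_iff_ne_zero.mp hm
  have hbeta : (beta m b : ℂ) ≠ 0 := by
    exact_mod_cast (beta_pos m b hb).ne'
  have hprim := Complex.isPrimitiveRoot_exp m hm0
  have h1 : (z / (beta m b : ℂ)) ^ m = 1 := by
    rw [div_pow, hz, ← Complex.ofReal_pow, beta_pow m b hm]
    have : ((b : ℝ) : ℂ) ≠ 0 := by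
      have : (b : ℝ) ≠ 0 := by exact_mod_cast Nat.one_le_iff_ne_zero.mp hb
      exact_mod_cast this
    rw [Complex.ofReal_natCast] at this ⊢
    exact div_self this
  have : NeZero m := ⟨hm0⟩
  obtain ⟨i, hi, hi'⟩ := hprim.eq_pow_of_pow_eq_one h1
  refine ⟨⟨i, hi⟩, ?_⟩
  rw [node_eq_mul_pow, hi']
  field_simp

theorem exists_embed_equiv (K F : Type) [Field K] [NumberField K] [Field F] [NumberField F]
    [Algebra K F] (m b : ℕ) (hm : 1 ≤ m) (hb : 1 ≤ b) (x : F) (hx : x ^ m = (b : F))
    (hrank : Module.finrank K F = m) (htop : IntermediateField.adjoin K {x} = ⊤) :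
    ∃ e : ((K →+* ℂ) × Fin m) ≃ (F →+* ℂ), ∀ (τ : K →+* ℂ) (j : Fin m),
      (∀ a : K, e (τ, j) (algebraMap K F a) = τ a) ∧ e (τ, j) x = node m b j := by
  classical
  have hex : ∀ σ : F →+* ℂ, ∃ j : Fin m, σ x = node m b j := by
    intro σ
    apply exists_node_eq m b hm hb
    rw [← map_pow, hx, map_natCast]
  choose J hJ using hex
  let g : (F →+* ℂ) → (K →+* ℂ) × Fin m := fun σ => (σ.comp (algebraMap K F), J σ)
  have hinj : Function.Injective g := by
    intro σ σ' h
    have h1 : σ.comp (algebraMap K F) = σ'.comp (algebraMap K F) := congrArg Prod.fst h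
    have h2 : J σ = J σ' := congrArg Prod.snd h
    have h3 : σ x = σ' x := by rw [hJ, hJ, h2]
    let E : IntermediateField K F :=
      { (RingHom.eqLocusField σ σ') with
        algebraMap_mem' := fun r => by
          have := RingHom.congr_fun h1 r
          simpa using this }
    have hxE : x ∈ E := h3
    have hE : (⊤ : IntermediateField K F) ≤ E := by
      rw [← htop, IntermediateField.adjoin_le_iff]
      simpa using hxE
    ext y
    have : y ∈ E := hE IntermediateField.mem_top
    exact this
  have hcard : Fintype.card (F →+* ℂ) = Fintype.card ((K →+* ℂ) × Fin m) := by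
    rw [Fintype.card_prod, NumberField.Embeddings.card, NumberField.Embeddings.card,
      Fintype.card_fin, ← Module.finrank_mul_finrank ℚ K F, hrank]
  have hbij : Function.Bijective g := (Fintype.bijective_iff_injective_and_card g).2 ⟨hinj, hcard⟩
  refine ⟨(Equiv.ofBijective g hbij).symm, fun τ j => ?_⟩
  have hg : g ((Equiv.ofBijective g hbij).symm (τ, j)) = (τ, j) :=
    (Equiv.ofBijective g hbij).apply_symm_apply (τ, j)
  set σ := (Equiv.ofBijective g hbij).symm (τ, j) with hσ
  have h1 : σ.comp (algebraMap K F) = τ := congrArg Prod.fst hg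
  have h2 : J σ = j := congrArg Prod.snd hg
  refine ⟨fun a => ?_, ?_⟩
  · rw [← h1]; rfl
  · rw [hJ, h2]

end Pool.Agent.H4.RR
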