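import Mathlib

/-!
# Module RelNorm (MP_187c26_nt, real radical towers)

If all `a i` lie in an ideal `I` of `𝓞 F` then the determinant of their coordinates with respect
to an `𝓞 K`-basis of `𝓞 F` lies in the relative norm of `I`.

Proof: if `I = ⊥` all `a i = 0`; then `bas.det a = 0` if the index type is nonempty (it is nonempty
since `𝓞 F` is nontrivial). Let `0 ≠ g ∈ I`. By Dedekind, `I ∣ span {g}`: `span {g} = I * J`
(`Ideal.dvd_iff_le`), `J ≠ ⊥`. For `c ∈ J`: `c * a i ∈ I * J = span {g}`, so `c * a i = g * s i`.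
Coordinates: `bas.det (fun i => c * a i) = Algebra.norm (𝓞 K) c * bas.det a` and
`bas.det (fun i => g * s i) = Algebra.norm (𝓞 K) g * bas.det s` (e.g. `Module.Basis.det_comp` with
the linear map `Algebra.lmul _ _ c` and `Algebra.norm_apply`; `LinearMap.det`). So
`Norm c * det a ∈ span {Norm g} = relNorm (span {g}) = relNorm I * relNorm J`
(`Ideal.relNorm_singleton`, `Algebra.intNorm_eq_norm`, `map_mul`).
As `relNorm J` is spanned by the `intNorm c`, `c ∈ J` (`Ideal.relNorm_apply`),
`relNorm J * span {det a} ≤ relNorm I * relNorm J`, and cancelling the nonzero ideal `relNorm J`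
(`Ideal.relNorm_eq_bot_iff`, `mul_dvd_mul_iff_left`, `Ideal.dvd_iff_le`) gives
`span {det a} ≤ relNorm I`.
-/

set_option autoImplicit false

open NumberField

namespace Pool.Agent.H4.RR

theorem relNorm_det_smul {A B : Type} [CommRing A] [CommRing B] [Algebra A B]
    {ι : Type} [Fintype ι] [DecidableEq ι]
    (bas : Module.Basis ι A B) (c : B) (a : ι → B) :
    bas.det (fun i => c * a i) = Algebra.norm A c * bas.det a := by
  have h := bas.det_comp (Algebra.lmul A B c) a
  rw [Algebra.norm_apply]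
  exact h

theorem det_mem_relNorm (K F : Type) [Field K] [NumberField K] [Field F] [NumberField F]
    [Algebra K F] {ι : Type} [Fintype ι] [DecidableEq ι]
    (bas : Module.Basis ι (𝓞 K) (𝓞 F)) (I : Ideal (𝓞 F)) (a : ι → 𝓞 F) (ha : ∀ i, a i ∈ I) :
    bas.det a ∈ Ideal.relNorm (𝓞 K) I := by
  have : Module.Free (𝓞 K) (𝓞 F) := Module.Free.of_basis bas
  have : Nonempty ι := bas.index_nonempty
  by_cases hI : I = ⊥
  · have h0 : a = 0 := by
      funext i
      have := ha i
      rw [hI] at this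
      simpa using this
    have : bas.det a = 0 := by
      rw [h0]
      exact bas.det.map_zero
    rw [this]
    exact Submodule.zero_mem _
  obtain ⟨g, hgI, hg0⟩ := Submodule.exists_mem_ne_zero_of_ne_bot hI
  have hdvd : I ∣ Ideal.span {g} := by
    rw [Ideal.dvd_iff_le, Ideal.span_singleton_le_iff_mem]
    exact hgI
  obtain ⟨J, hJ⟩ := hdvd
  have hJ0 : J ≠ ⊥ := by
    rintro rfl
    rw [Ideal.mul_bot, Ideal.span_singleton_eq_bot] at hJ
    exact hg0 hJ
  have hnorm : Ideal.span {Algebra.norm (𝓞 K) g} =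
      Ideal.relNorm (𝓞 K) I * Ideal.relNorm (𝓞 K) J := by
    rw [← map_mul, ← hJ, Ideal.relNorm_singleton, Algebra.intNorm_eq_norm]
  have key : ∀ c ∈ J, Algebra.norm (𝓞 K) c * bas.det a ∈
      Ideal.relNorm (𝓞 K) I * Ideal.relNorm (𝓞 K) J := by
    intro c hc
    have h1 : ∀ i, ∃ s : 𝓞 F, c * a i = g * s := by
      intro i
      have h2 : a i * c ∈ I * J := Ideal.mul_mem_mul (ha i) hc
      rw [← hJ, Ideal.mem_span_singleton] at h2
      obtain ⟨s, hs⟩ := h2
      exact ⟨s, by rw [mul_comm, hs]⟩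
    choose s hs using h1
    rw [← relNorm_det_smul, funext hs, relNorm_det_smul, ← hnorm]
    exact Ideal.mul_mem_right _ _ (Ideal.mem_span_singleton_self _)
  have hle : Ideal.relNorm (𝓞 K) J * Ideal.span {bas.det a} ≤
      Ideal.relNorm (𝓞 K) J * Ideal.relNorm (𝓞 K) I := by
    conv_lhs => rw [Ideal.relNorm_apply, Ideal.span_mul_span']
    rw [Ideal.span_le]
    rintro _ ⟨_, ⟨c, hc, rfl⟩, _, rfl, rfl⟩
    have := key c hc
    rw [mul_comm (Ideal.relNorm (𝓞 K) J)]
    simpa [Algebra.intNorm_eq_norm] using this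
  have hne : Ideal.relNorm (𝓞 K) J ≠ 0 := by
    intro h
    exact hJ0 (Ideal.relNorm_eq_bot_iff.1 h)
  rw [← Ideal.dvd_iff_le, mul_dvd_mul_iff_left hne, Ideal.dvd_iff_le,
    Ideal.span_singleton_le_iff_mem] at hle
  exact hle

end Pool.Agent.H4.RR
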