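import Mathlib

/-!
# Module Rep (MP_187c26_nt, real radical towers)

Every `α ∈ F = K(x)`, `[F:K] = m`, is `v(x)/u(x)` with coprime `u, v ∈ 𝓞_K[X]` of degree `≤ D`,
one of them of degree exactly `D`, and `2D ≤ m`.

Proof. Let `P D` be: there are `u v : K[X]`, not both zero, of degree `≤ D`, with
`aeval x v = α * aeval x u`. `P (m/2)` holds: the `K`-linear map
`(u,v) ↦ aeval x v - α * aeval x u` from `degreeLE × degreeLE` (dimension `2(m/2+1) > m`) to `F`
(dimension `m`) has a nonzero kernel vector (`LinearMap.exists_ne_zero_of_...`,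
`LinearMap.ker_ne_bot_of_finrank_lt`). Let `D` be minimal (`Nat.find`), so `D ≤ m/2`, `2D ≤ m`.
As `deg u, deg v ≤ D < m` (note `m ≥ 1`) and the minimal polynomial of `x` has degree `m`, a nonzero
polynomial of degree `< m` does not vanish at `x`. So `u ≠ 0` (otherwise `v(x) = 0`, `v = 0`) and
`u(x) ≠ 0`. By minimality `natDegree u = D` or `natDegree v = D` (otherwise `P (D-1)`; for `D = 0`
trivial). Coprime: let `g = gcd u v` (`EuclideanDomain.gcd`), `u = g u'`, `v = g v'`; `g(x) ≠ 0`, so
`(u', v')` is again a solution, with degrees `≤ D - deg g`; by minimality `deg g = 0`, `g` a unit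
(`EuclideanDomain.gcd_isUnit_iff` / `isCoprime_of_...`).
Finally clear denominators: multiply both by a common nonzero `d ∈ 𝓞 K`
(`IsLocalization.integerNormalization` or `IsLocalization.exist_integer_multiples_of_finset` for the
finitely many coefficients): `u₁, v₁ ∈ (𝓞 K)[X]` with `u₁.map = C d * u`, `v₁.map = C d * v`;
coprimality and degrees are unchanged (`C d` is a unit).
-/

set_option autoImplicit false

open NumberField Polynomial

namespace Pool.Agent.H4.RR

/-- `u`, `v` of degree at most `D`, not both zero, with `v(x) = α u(x)` -/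
def RepP (K F : Type) [Field K] [Field F] [Algebra K F] (x α : F) (D : ℕ) : Prop :=
  ∃ u v : K[X], (u ≠ 0 ∨ v ≠ 0) ∧ u.natDegree ≤ D ∧ v.natDegree ≤ D ∧
    aeval x v = α * aeval x u

theorem repP_half (K F : Type) [Field K] [Field F] [Algebra K F] [FiniteDimensional K F]
    (m : ℕ) (x : F) (hrank : Module.finrank K F = m) (α : F) : RepP K F x α (m / 2) := by
  set d := m / 2 with hd
  let e : (Fin (d + 1) → K) →ₗ[K] K[X] :=
    (degreeLT K (d + 1)).subtype ∘ₗ (degreeLTEquiv K (d + 1)).symm.toLinearMap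
  let ax : K[X] →ₗ[K] F := (aeval x : K[X] →ₐ[K] F).toLinearMap
  let L : ((Fin (d + 1) → K) × (Fin (d + 1) → K)) →ₗ[K] F :=
    (ax ∘ₗ e) ∘ₗ LinearMap.snd K _ _ -
      (LinearMap.mulLeft K α) ∘ₗ (ax ∘ₗ e) ∘ₗ LinearMap.fst K _ _
  have hlt : Module.finrank K F < Module.finrank K ((Fin (d + 1) → K) × (Fin (d + 1) → K)) := by
    rw [hrank, Module.finrank_prod, Module.finrank_fin_fun]
    omega
  have hker := LinearMap.ker_ne_bot_of_finrank_lt (f := L) hlt
  obtain ⟨w, hw, hw0⟩ := Submodule.exists_mem_ne_zero_of_ne_bot hker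
  have hw' : ax (e w.2) - α * ax (e w.1) = 0 := hw
  have hdeg : ∀ z : Fin (d + 1) → K, (e z).natDegree ≤ d := by
    intro z
    have h1 : e z ∈ degreeLT K (d + 1) := ((degreeLTEquiv K (d + 1)).symm z).2
    rw [mem_degreeLT] at h1
    have h2 : (e z).degree ≤ d := by
      rw [← Order.lt_succ_iff]
      exact_mod_cast h1
    exact natDegree_le_of_degree_le h2
  have hinj : ∀ z : Fin (d + 1) → K, e z = 0 → z = 0 := by
    intro z hz
    have h1 : (degreeLTEquiv K (d + 1)).symm z = 0 := Subtype.ext hz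
    exact (LinearEquiv.map_eq_zero_iff _).1 h1
  refine ⟨e w.1, e w.2, ?_, hdeg _, hdeg _, sub_eq_zero.1 hw'⟩
  by_contra hcon
  push Not at hcon
  exact hw0 (Prod.ext (hinj _ hcon.1) (hinj _ hcon.2))

theorem aeval_ne_zero_of_lt (K F : Type) [Field K] [Field F] [Algebra K F] [FiniteDimensional K F]
    (m : ℕ) (x : F) (hrank : Module.finrank K F = m)
    (htop : IntermediateField.adjoin K {x} = ⊤) {p : K[X]} (hp : p ≠ 0) (hd : p.natDegree < m) :
    aeval x p ≠ 0 := by
  intro h0
  have h1 := minpoly.degree_le_of_ne_zero K x hp h0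
  have h2 : (minpoly K x).natDegree ≤ p.natDegree := natDegree_le_natDegree h1
  have hx : IsIntegral K x := Algebra.IsIntegral.isIntegral x
  have h3 := IntermediateField.adjoin.finrank hx
  rw [htop, IntermediateField.finrank_top', hrank] at h3
  omega

theorem exists_rep (K F : Type) [Field K] [NumberField K] [Field F] [NumberField F]
    [Algebra K F] (m : ℕ) (hm : 1 ≤ m) (x : F) (hrank : Module.finrank K F = m)
    (htop : IntermediateField.adjoin K {x} = ⊤) (α : F) :
    ∃ (D : ℕ) (u v : (𝓞 K)[X]), 2 * D ≤ m ∧ u.natDegree ≤ D ∧ v.natDegree ≤ D ∧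
      (u.natDegree = D ∨ v.natDegree = D) ∧
      IsCoprime (u.map (algebraMap (𝓞 K) K)) (v.map (algebraMap (𝓞 K) K)) ∧
      aeval x (u.map (algebraMap (𝓞 K) K)) ≠ 0 ∧
      aeval x (v.map (algebraMap (𝓞 K) K)) = α * aeval x (u.map (algebraMap (𝓞 K) K)) := by
  classical
  have hfd : FiniteDimensional K F := Module.finite_of_finrank_pos (by omega)
  have hex : ∃ D, RepP K F x α D := ⟨m / 2, repP_half K F m x hrank α⟩
  set D := Nat.find hex with hD
  have hDle : D ≤ m / 2 := Nat.find_min' hex (repP_half K F m x hrank α)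
  have hmin : ∀ E, RepP K F x α E → D ≤ E := fun E hE => Nat.find_min' hex hE
  obtain ⟨u, v, hne, hu, hv, huv⟩ := Nat.find_spec hex
  rw [← hD] at hu hv
  have hnv : ∀ p : K[X], p ≠ 0 → p.natDegree ≤ D → aeval x p ≠ 0 := fun p hp hd =>
    aeval_ne_zero_of_lt K F m x hrank htop hp (by omega)
  have hu0 : u ≠ 0 := by
    rintro rfl
    rw [map_zero, mul_zero] at huv
    rcases hne with h | h
    · exact h rfl
    · exact hnv v h hv huv
  have hux := hnv u hu0 hu
  -- degrees
  have hdeg : u.natDegree = D ∨ v.natDegree = D := by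
    by_contra hcon
    push Not at hcon
    have h1 : u.natDegree ≤ D - 1 := by omega
    have h2 : v.natDegree ≤ D - 1 := by omega
    have h3 := hmin (D - 1) ⟨u, v, hne, h1, h2, huv⟩
    omega
  -- coprimality
  have hcop : IsCoprime u v := by
    set g := EuclideanDomain.gcd u v with hg
    obtain ⟨u', hu'⟩ := EuclideanDomain.gcd_dvd_left u v
    obtain ⟨v', hv'⟩ := EuclideanDomain.gcd_dvd_right u v
    rw [← hg] at hu' hv'
    have hg0 : g ≠ 0 := by
      intro h
      rw [h, zero_mul] at hu'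
      exact hu0 hu'
    have hu'0 : u' ≠ 0 := by
      intro h
      rw [h, mul_zero] at hu'
      exact hu0 hu'
    have hgu : g.natDegree + u'.natDegree ≤ D := by
      have := natDegree_mul hg0 hu'0
      rw [← hu'] at this
      omega
    have hgv : v' = 0 ∨ g.natDegree + v'.natDegree ≤ D := by
      by_cases hv'0 : v' = 0
      · exact Or.inl hv'0
      · right
        have := natDegree_mul hg0 hv'0
        rw [← hv'] at this
        omega
    have hgx : aeval x g ≠ 0 := hnv g hg0 (by omega)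
    have huv' : aeval x v' = α * aeval x u' := by
      have h1 : aeval x g * aeval x v' = aeval x g * (α * aeval x u') := by
        rw [← map_mul, ← hv', huv, hu', map_mul]
        ring
      exact mul_left_cancel₀ hgx h1
    have h4 := hmin (D - g.natDegree) ⟨u', v', Or.inl hu'0, by omega, by
      rcases hgv with h | h
      · rw [h, natDegree_zero]; omega
      · omega, huv'⟩
    have hgd : g.natDegree = 0 := by omega
    have hgu : IsUnit g := by
      rw [natDegree_eq_zero] at hgd
      obtain ⟨c, hc⟩ := hgd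
      rw [← hc]
      refine isUnit_C.2 (isUnit_iff_ne_zero.2 ?_)
      rintro rfl
      rw [map_zero] at hc
      exact hg0 hc.symm
    exact EuclideanDomain.gcd_isUnit_iff.1 hgu
  -- clear denominators
  obtain ⟨b, hb⟩ := IsLocalization.exist_integer_multiples_of_finset (nonZeroDivisors (𝓞 K))
    (Finset.image u.coeff (Finset.range (D + 1)) ∪ Finset.image v.coeff (Finset.range (D + 1)))
  have hb0 : algebraMap (𝓞 K) K (b : 𝓞 K) ≠ 0 := by
    have := nonZeroDivisors.coe_ne_zero b
    exact fun h => this (FaithfulSMul.algebraMap_injective (𝓞 K) K (by rw [h, map_zero]))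
  have key : ∀ p : K[X], p.natDegree ≤ D →
      (∀ i ≤ D, IsLocalization.IsInteger (𝓞 K) ((b : 𝓞 K) • p.coeff i)) →
      ∃ p₁ : (𝓞 K)[X], p₁.map (algebraMap (𝓞 K) K) = C (algebraMap (𝓞 K) K (b : 𝓞 K)) * p ∧
        p₁.natDegree = p.natDegree := by
    intro p hp hint
    have hl : C (algebraMap (𝓞 K) K (b : 𝓞 K)) * p ∈ lifts (algebraMap (𝓞 K) K) := by
      rw [lifts_iff_coeff_lifts]
      intro i
      rw [coeff_C_mul]
      by_cases hi : i ≤ D
      · obtain ⟨z, hz⟩ := hint i hi
        rw [Algebra.smul_def] at hz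
        exact ⟨z, hz⟩
      · rw [coeff_eq_zero_of_natDegree_lt (by omega), mul_zero]
        exact ⟨0, map_zero _⟩
    obtain ⟨q, hq⟩ := (mem_lifts _).1 hl
    refine ⟨q, hq, ?_⟩
    rw [← natDegree_map_eq_of_injective (FaithfulSMul.algebraMap_injective (𝓞 K) K) q, hq,
      natDegree_C_mul hb0]
  obtain ⟨u₁, hu₁, hu₁d⟩ := key u hu (fun i hi => hb _ (Finset.mem_union_left _
    (Finset.mem_image_of_mem _ (Finset.mem_range.2 (by omega)))))
  obtain ⟨v₁, hv₁, hv₁d⟩ := key v hv (fun i hi => hb _ (Finset.mem_union_right _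
    (Finset.mem_image_of_mem _ (Finset.mem_range.2 (by omega)))))
  have hbx : algebraMap K F (algebraMap (𝓞 K) K (b : 𝓞 K)) ≠ 0 := by
    intro h
    exact hb0 (FaithfulSMul.algebraMap_injective K F (by rw [h, map_zero]))
  refine ⟨D, u₁, v₁, by omega, by omega, by omega, by omega, ?_, ?_, ?_⟩
  · rw [hu₁, hv₁]
    have hbu : IsUnit (C (algebraMap (𝓞 K) K (b : 𝓞 K))) :=
      isUnit_C.2 (isUnit_iff_ne_zero.2 hb0)
    exact (isCoprime_mul_unit_left hbu u v).2 hcop
  · rw [hu₁, map_mul, aeval_C]
    exact mul_ne_zero hbx hux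
  · rw [hu₁, hv₁, map_mul, map_mul, aeval_C, huv]
    ring

end Pool.Agent.H4.RR
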