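import Pool.Agent.H4.RR.Core
import Pool.Agent.H4.RR.RelNorm
import Pool.Agent.H4.RR.Embed
import Pool.Agent.H4.RR.Rep
import Pool.Agent.H4.RR.RhoNe

/-!
# The step theorem for number fields (MP_187c26_nt, real radical towers)
-/

set_option autoImplicit false
set_option linter.unusedSectionVars false

open NumberField Polynomial

namespace Pool.Agent.H4.RR

section

variable (K F : Type) [Field K] [NumberField K] [Field F] [NumberField F] [Algebra K F]

/-- Coordinates of a polynomial in `x` of degree `< m`. -/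
lemma repr_aeval (m : ℕ) (x : 𝓞 F) (bas : Module.Basis (Fin m) (𝓞 K) (𝓞 F))
    (hbas : ∀ i, bas i = x ^ (i : ℕ)) (w : (𝓞 K)[X]) (hw : w.natDegree < m) (i : Fin m) :
    bas.repr (aeval x w) i = w.coeff i := by
  have h1 : aeval x w = ∑ i : Fin m, w.coeff i • bas i := by
    rw [aeval_eq_sum_range' hw, ← Fin.sum_univ_eq_sum_range (fun i => w.coeff i • x ^ i) m]
    exact Finset.sum_congr rfl (fun i _ => by rw [hbas])
  rw [h1]
  exact congrFun (bas.repr_sum_self (fun i : Fin m => w.coeff (i : ℕ))) i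

lemma famDet_eq_det (m D n : ℕ) (hD : 2 * D ≤ m) (hn : n ≤ 2 * D) (x : 𝓞 F)
    (bas : Module.Basis (Fin m) (𝓞 K) (𝓞 F)) (hbas : ∀ i, bas i = x ^ (i : ℕ))
    (u v w : (𝓞 K)[X]) (hu : u.natDegree ≤ D) (hv : v.natDegree ≤ D) (hw : w.natDegree ≤ n) :
    famDet m D n u v w = bas.det (fun r : Fin m => aeval x (fam D n u v w (r : ℕ))) := by
  rw [Module.Basis.det_apply, famDet, ← Matrix.det_transpose]
  congr 1
  ext i r
  rw [Matrix.transpose_apply, Matrix.of_apply, Module.Basis.toMatrix_apply,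
    repr_aeval K F m x bas hbas _ (fam_natDegree_lt m D n hD hn u v w hu hv hw r r.2)]

lemma fam_mem (D n : ℕ) (x : 𝓞 F) (u v w : (𝓞 K)[X]) (I : Ideal (𝓞 F)) (hu : aeval x u ∈ I)
    (hv : aeval x v ∈ I) (hw : aeval x w ∈ I) (r : ℕ) : aeval x (fam D n u v w r) ∈ I := by
  unfold fam
  split_ifs
  · rw [map_mul]; exact I.mul_mem_left _ hu
  · rw [map_mul]; exact I.mul_mem_left _ hv
  · rw [map_mul]; exact I.mul_mem_left _ hw

lemma coe_aeval (x : 𝓞 F) (w : (𝓞 K)[X]) :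
    ((aeval x w : 𝓞 F) : F) = aeval (x : F) (w.map (algebraMap (𝓞 K) K)) := by
  rw [aeval_map_algebraMap]
  exact (aeval_algebraMap_apply F x w).symm

variable (m b : ℕ)

lemma eval_cmap (x : 𝓞 F) (e : ((K →+* ℂ) × Fin m) ≃ (F →+* ℂ))
    (he : ∀ (τ : K →+* ℂ) (j : Fin m),
      (∀ a : K, e (τ, j) (algebraMap K F a) = τ a) ∧ e (τ, j) (x : F) = node m b j)
    (w : (𝓞 K)[X]) (τ : K →+* ℂ) (j : Fin m) :
    (cmap τ w).eval (node m b j) = e (τ, j) ((aeval x w : 𝓞 F) : F) := by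
  rw [coe_aeval, cmap, ← Polynomial.map_map, eval_map, aeval_def, hom_eval₂, (he τ j).2]
  congr 1
  ext a
  exact ((he τ j).1 a).symm

/-- The step theorem, normalised so that `u` has degree `D`. -/
lemma finiteStep_aux (hm : 1 ≤ m) (hb : 2 ≤ b) (x : 𝓞 F) (hx : x ^ m = (b : 𝓞 F))
    (hrank : Module.finrank K F = m) (htop : IntermediateField.adjoin K {(x : F)} = ⊤)
    (bas : Module.Basis (Fin m) (𝓞 K) (𝓞 F)) (hbas : ∀ i, bas i = x ^ (i : ℕ))
    (S : Subgroup Kˣ) (κ θ : ℝ) (hκ : 0 < κ) (hθ : 0 ≤ θ)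
    (hBog : ∀ a : Kˣ, a ∉ S → κ * Module.finrank ℚ K ≤ Height.logHeight₁ (a : K))
    (hDen : ∀ s ∈ S, ∃ g1 g2 : 𝓞 K, g1 ≠ 0 ∧ g2 ≠ 0 ∧ (s : K) * (g2 : K) = (g1 : K) ∧
      ∀ τ : K →+* ℂ,
        ‖τ (g1 : K)‖ ≤ Real.exp (θ * (Height.logHeight₁ (s : K) / Module.finrank ℚ K)) ∧
        ‖τ (g2 : K)‖ ≤ Real.exp (θ * (Height.logHeight₁ (s : K) / Module.finrank ℚ K)))
    (α : F) (hα : α ≠ 0)
    (hαS : ∀ s ∈ S, ∀ j : ℤ, α ≠ algebraMap K F s * (x : F) ^ j)
    (D : ℕ) (u v : (𝓞 K)[X]) (hD : 2 * D ≤ m) (hu : u.natDegree = D) (hv : v.natDegree ≤ D)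
    (hcop : IsCoprime (u.map (algebraMap (𝓞 K) K)) (v.map (algebraMap (𝓞 K) K)))
    (hux : aeval (x : F) (u.map (algebraMap (𝓞 K) K)) ≠ 0)
    (hvx : aeval (x : F) (v.map (algebraMap (𝓞 K) K))
      = α * aeval (x : F) (u.map (algebraMap (𝓞 K) K))) :
    (min κ (Real.log (5 / 4) / (2 + 2 * θ))
      - min κ (Real.log (5 / 4) / (2 + 2 * θ)) ^ 2 / Real.log b) * Module.finrank ℚ F
      ≤ Height.logHeight₁ α := by
  have hb1 : 1 ≤ b := by omega
  have hxF : (x : F) ^ m = (b : F) := by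
    have := congrArg (algebraMap (𝓞 F) F) hx
    simpa using this
  obtain ⟨e, he⟩ := exists_embed_equiv K F m b hm hb1 (x : F) hxF hrank htop
  set U : 𝓞 F := aeval x u with hU
  set V : 𝓞 F := aeval x v with hV
  have hUF : (U : F) = aeval (x : F) (u.map (algebraMap (𝓞 K) K)) := coe_aeval K F x u
  have hVF : (V : F) = aeval (x : F) (v.map (algebraMap (𝓞 K) K)) := coe_aeval K F x v
  rw [← hUF] at hux hvx
  rw [← hVF] at hvx
  have hU0 : U ≠ 0 := by
    intro h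
    apply hux
    rw [h]; simp
  have hVFne : (V : F) ≠ 0 := by rw [hvx]; exact mul_ne_zero hα hux
  have hV0 : V ≠ 0 := by
    intro h
    apply hVFne
    rw [h]; simp
  have hu0 : u ≠ 0 := by
    intro h
    apply hU0
    rw [hU, h, map_zero]
  have hv0 : v ≠ 0 := by
    intro h
    apply hV0
    rw [hV, h, map_zero]
  have hαeq : α = (V : F) / (U : F) := by rw [hvx]; field_simp
  -- rho
  have hinj : Function.Injective (algebraMap (𝓞 K) K) := IsFractionRing.injective (𝓞 K) K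
  have hrho : rho D u v ≠ 0 := by
    intro h
    have h1 := rho_ne_zero D (u.map (algebraMap (𝓞 K) K)) (v.map (algebraMap (𝓞 K) K))
      (by rw [natDegree_map_eq_of_injective hinj]; exact hu.le)
      (by rw [natDegree_map_eq_of_injective hinj]; exact hv)
      (Or.inl (by rw [natDegree_map_eq_of_injective hinj]; exact hu)) hcop
    apply h1
    rw [← rho_map, h, map_zero]
  -- weights
  have hwt : ∀ (τ : K →+* ℂ) (j : Fin m), wt m b u v τ j
      = max ‖e (τ, j) (U : F)‖ ‖e (τ, j) (V : F)‖ := by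
    intro τ j
    rw [wt, eval_cmap K F m b x e he u τ j, eval_cmap K F m b x e he v τ j]
  have hpos : ∀ (τ : K →+* ℂ) (j : Fin m), 0 < wt m b u v τ j := by
    intro τ j
    rw [hwt]
    apply lt_max_of_lt_left
    rw [norm_pos_iff]
    exact (_root_.map_ne_zero _).mpr hux
  set 𝔞 : Ideal (𝓞 F) := Ideal.span {U, V} with h𝔞
  have h𝔞0 : 𝔞 ≠ ⊥ := by
    intro h0
    apply hU0
    have : U ∈ 𝔞 := Ideal.subset_span (by simp)
    rw [h0] at this
    exact (Submodule.mem_bot _).mp this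
  set 𝔫 : Ideal (𝓞 K) := Ideal.relNorm (𝓞 K) 𝔞 with h𝔫
  have hn0 : 𝔫 ≠ ⊥ := by
    rw [h𝔫, Ne, Ideal.relNorm_eq_bot_iff]
    exact h𝔞0
  have hnorm : Ideal.absNorm 𝔫 = Ideal.absNorm 𝔞 := Ideal.absNorm_relNorm (𝓞 K) (𝓞 F) 𝔞
  have hH : (Ideal.absNorm 𝔫 : ℝ) * Height.mulHeight₁ α
      = ∏ τ : K →+* ℂ, ∏ j, wt m b u v τ j := by
    rw [hnorm, mul_comm, hαeq, height_mul_absNorm F U V hU0, ← e.prod_comp, Fintype.prod_prod_type]
    exact Finset.prod_congr rfl (fun τ _ => Finset.prod_congr rfl (fun j _ => (hwt τ j).symm))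
  have hdet : ∀ (n : ℕ) (s t : (𝓞 K)[X]), (s * u + t * v).natDegree ≤ n → n ≤ 2 * D →
      famDet m D n u v (s * u + t * v) ∈ 𝔫 := by
    intro n s t hdeg hn
    rw [famDet_eq_det K F m D n hD hn x bas hbas u v _ hu.le hv hdeg]
    apply det_mem_relNorm K F bas 𝔞
    intro r
    have hUm : U ∈ 𝔞 := Ideal.subset_span (by simp)
    have hVm : V ∈ 𝔞 := Ideal.subset_span (by simp)
    apply fam_mem K F D n x u v _ 𝔞 hUm hVm
    rw [map_add, map_mul, map_mul]
    exact 𝔞.add_mem (𝔞.mul_mem_left _ hUm) (𝔞.mul_mem_left _ hVm)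
  have hx0 : (x : F) ≠ 0 := by
    intro h
    rw [h, zero_pow (by omega)] at hxF
    have : (b : F) ≠ 0 := by exact_mod_cast (show b ≠ 0 by omega)
    exact this hxF.symm
  have hne : ∀ (s : Kˣ) (g1 g2 : 𝓞 K), s ∈ S → g1 ≠ 0 → g2 ≠ 0 →
      (s : K) * (g2 : K) = (g1 : K) → ∀ e : ℕ, C g2 * u ≠ C g1 * X ^ e * v := by
    intro s g1 g2 hs hg1 hg2 hg e' heq
    apply hαS s⁻¹ (S.inv_mem hs) (-(e' : ℤ))
    have h1 : algebraMap (𝓞 K) (𝓞 F) g2 * U = algebraMap (𝓞 K) (𝓞 F) g1 * x ^ e' * V := by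
      have := congrArg (aeval x) heq
      simpa using this
    have h2 : algebraMap K F (g2 : K) * (U : F) = algebraMap K F (g1 : K) * (x : F) ^ e' * (V : F) := by
      have hcomm : ∀ g : 𝓞 K, algebraMap (𝓞 F) F (algebraMap (𝓞 K) (𝓞 F) g)
          = algebraMap K F (g : K) := fun g => by
        rw [← IsScalarTower.algebraMap_apply (𝓞 K) (𝓞 F) F, IsScalarTower.algebraMap_apply (𝓞 K) K F]
      have := congrArg (algebraMap (𝓞 F) F) h1
      simp only [map_mul, map_pow, hcomm] at this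
      exact this
    have hg1F : algebraMap K F (g1 : K) ≠ 0 := by
      rw [Ne, map_eq_zero]
      exact_mod_cast hg1
    have hg2F : algebraMap K F (g2 : K) ≠ 0 := by
      rw [Ne, map_eq_zero]
      exact_mod_cast hg2
    have hsF : algebraMap K F (s : K) * algebraMap K F (g2 : K) = algebraMap K F (g1 : K) := by
      rw [← map_mul, hg]
    have hs0 : algebraMap K F (s : K) ≠ 0 := by
      rw [Ne, map_eq_zero]
      exact s.ne_zero
    have h3 : (U : F) = algebraMap K F (s : K) * (x : F) ^ e' * (V : F) := by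
      apply mul_left_cancel₀ hg2F
      rw [h2, ← hsF]
      ring
    rw [hαeq, h3, zpow_neg, zpow_natCast, Units.val_inv_eq_inv_val, map_inv₀]
    field_simp
  have hcore := core m b D u v hm hb hD hu hu0 hv hv0 hrho hpos 𝔫 hn0 (Height.mulHeight₁ α) hH hdet
    S κ θ hκ hθ hBog hDen hne
  have hFK : (Module.finrank ℚ F : ℝ) = Module.finrank ℚ K * m := by
    rw [← hrank]
    exact_mod_cast (Module.finrank_mul_finrank ℚ K F).symm
  rw [hFK]
  refine le_trans ?_ hcore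
  set κ' := min κ (Real.log (5 / 4) / (2 + 2 * θ))
  have hlogb : 0 < Real.log b := Real.log_pos (by exact_mod_cast hb)
  have hmR : (0 : ℝ) < m := by exact_mod_cast hm
  have hN : (0 : ℝ) ≤ Module.finrank ℚ K := Nat.cast_nonneg _
  have hsq : (κ' - κ' ^ 2 / Real.log b) * m
      ≤ (D : ℝ) ^ 2 / m * Real.log b + ((m : ℝ) - 2 * D) * κ' := by
    have h1 : (D : ℝ) ^ 2 / m * Real.log b + ((m : ℝ) - 2 * D) * κ'
        - (κ' - κ' ^ 2 / Real.log b) * m
        = (D * Real.log b - m * κ') ^ 2 / (m * Real.log b) := by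
      field_simp
      ring
    have h2 : 0 ≤ (D * Real.log b - m * κ') ^ 2 / (m * Real.log b) := by positivity
    linarith
  calc (κ' - κ' ^ 2 / Real.log b) * (Module.finrank ℚ K * m)
      = Module.finrank ℚ K * ((κ' - κ' ^ 2 / Real.log b) * m) := by ring
    _ ≤ _ := by gcongr

/-- The step theorem: a lower bound for heights on `F = K(b^(1/m))` outside `S * x^ℤ`. -/
theorem finiteStep (hm : 1 ≤ m) (hb : 2 ≤ b) (x : 𝓞 F) (hx : x ^ m = (b : 𝓞 F))
    (hrank : Module.finrank K F = m) (htop : IntermediateField.adjoin K {(x : F)} = ⊤)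
    (bas : Module.Basis (Fin m) (𝓞 K) (𝓞 F)) (hbas : ∀ i, bas i = x ^ (i : ℕ))
    (S : Subgroup Kˣ) (κ θ : ℝ) (hκ : 0 < κ) (hθ : 0 ≤ θ)
    (hBog : ∀ a : Kˣ, a ∉ S → κ * Module.finrank ℚ K ≤ Height.logHeight₁ (a : K))
    (hDen : ∀ s ∈ S, ∃ g1 g2 : 𝓞 K, g1 ≠ 0 ∧ g2 ≠ 0 ∧ (s : K) * (g2 : K) = (g1 : K) ∧
      ∀ τ : K →+* ℂ,
        ‖τ (g1 : K)‖ ≤ Real.exp (θ * (Height.logHeight₁ (s : K) / Module.finrank ℚ K)) ∧
        ‖τ (g2 : K)‖ ≤ Real.exp (θ * (Height.logHeight₁ (s : K) / Module.finrank ℚ K)))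
    (α : F) (hα : α ≠ 0)
    (hαS : ∀ s ∈ S, ∀ j : ℤ, α ≠ algebraMap K F s * (x : F) ^ j) :
    (min κ (Real.log (5 / 4) / (2 + 2 * θ))
      - min κ (Real.log (5 / 4) / (2 + 2 * θ)) ^ 2 / Real.log b) * Module.finrank ℚ F
      ≤ Height.logHeight₁ α := by
  obtain ⟨D, u, v, hD, hu, hv, huv, hcop, hux, hvx⟩ := exists_rep K F m hm (x : F) hrank htop α
  by_cases hu' : u.natDegree = D
  · exact finiteStep_aux K F m b hm hb x hx hrank htop bas hbas S κ θ hκ hθ hBog hDen α hα hαS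
      D u v hD hu' hv hcop hux hvx
  · have hv' : v.natDegree = D := huv.resolve_left hu'
    rw [← Height.logHeight₁_inv]
    apply finiteStep_aux K F m b hm hb x hx hrank htop bas hbas S κ θ hκ hθ hBog hDen α⁻¹
      (inv_ne_zero hα) _ D v u hD hv' hu hcop.symm
    · rw [hvx]
      exact mul_ne_zero hα hux
    · rw [hvx, ← mul_assoc, inv_mul_cancel₀ hα, one_mul]
    · intro s hs j hj
      apply hαS s⁻¹ (S.inv_mem hs) (-j)
      rw [← inv_inv α, hj, mul_inv, zpow_neg, Units.val_inv_eq_inv_val, map_inv₀]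

end

end Pool.Agent.H4.RR
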