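import Mathlib

/-!
# Module Hadamard (MP_187c26_nt, real radical towers)

Hadamard's inequality for complex matrices: `|det A|^2 ≤ ∏_i ∑_j |A i j|^2`.

Proof suggestions (any is fine):
(a) If `det A = 0` trivial. Otherwise the rows `f i := WithLp.toLp 2 (A i) : EuclideanSpace ℂ n`
are linearly independent, a basis. After `Fintype.equivFin`, use Mathlib's Gram-Schmidt
(`InnerProductSpace.gramSchmidtOrthonormalBasis`, `gramSchmidtOrthonormalBasis_det`:
`(gramSchmidtOrthonormalBasis h f).toBasis.det f = ∏ i, ⟪e i, f i⟫`), so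
`|det A| = |det of f w.r.t. the standard orthonormal basis| = |det w.r.t. e| * |unitary| ≤ ∏ ‖f i‖`
by Cauchy-Schwarz (`norm_inner_le_norm`, `‖e i‖ = 1`); two orthonormal bases have change of basis
determinant of absolute value 1 (`OrthonormalBasis.det_to_matrix_orthonormalBasis` or similar).
(b) AM-GM: scale rows to norm one, `P = A * Aᴴ` is positive semidefinite with trace `n`, so
`det P = ∏ eigenvalues ≤ (trace/n)^n = 1` (`Matrix.IsHermitian.det_eq_prod_eigenvalues`,
`Real.inner_le_nnorm_mul_nnorm` / `Real.geom_mean_le_arith_mean_weighted`), and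
`det P = |det A|^2`.
-/

set_option autoImplicit false

namespace Pool.Agent.H4.RR

private lemma hadamard_fin {k : ℕ} (A : Matrix (Fin k) (Fin k) ℂ) :
    ‖A.det‖ ^ 2 ≤ ∏ i, ∑ j, ‖A i j‖ ^ 2 := by
  classical
  let f : Fin k → EuclideanSpace ℂ (Fin k) := fun i => WithLp.toLp 2 (A i)
  have h : Module.finrank ℂ (EuclideanSpace ℂ (Fin k)) = Fintype.card (Fin k) := by simp
  let e := InnerProductSpace.gramSchmidtOrthonormalBasis h f
  let s := EuclideanSpace.basisFun (Fin k) ℂ
  have hdet : s.toBasis.det f = A.det := by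
    rw [Module.Basis.det_apply]
    have : s.toBasis.toMatrix f = A.transpose := by
      ext i j
      simp [Module.Basis.toMatrix_apply, s, f]
    rw [this, Matrix.det_transpose]
  have h1 : s.toBasis.toMatrix e * e.toBasis.toMatrix f = s.toBasis.toMatrix f := by
    have := Module.Basis.toMatrix_mul_toMatrix s.toBasis e.toBasis f
    simpa using this
  have h2 : s.toBasis.det f = s.toBasis.det e * e.toBasis.det f := by
    rw [Module.Basis.det_apply, Module.Basis.det_apply, Module.Basis.det_apply, ← Matrix.det_mul, h1]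
  have h3 : ‖s.toBasis.det e‖ = 1 := OrthonormalBasis.det_to_matrix_orthonormalBasis s e
  have h4 : e.toBasis.det f = ∏ i, inner ℂ (e i) (f i) :=
    InnerProductSpace.gramSchmidtOrthonormalBasis_det h f
  have h5 : ‖A.det‖ ≤ ∏ i, ‖f i‖ := by
    rw [← hdet, h2, norm_mul, h3, one_mul, h4, norm_prod]
    apply Finset.prod_le_prod
    · intro i _
      exact norm_nonneg _
    · intro i _
      have := norm_inner_le_norm (𝕜 := ℂ) (e i) (f i)
      rwa [e.orthonormal.1 i, one_mul] at this
  calc ‖A.det‖ ^ 2 ≤ (∏ i, ‖f i‖) ^ 2 := by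
        apply pow_le_pow_left₀ (norm_nonneg _) h5
    _ = ∏ i, ∑ j, ‖A i j‖ ^ 2 := by
        rw [← Finset.prod_pow]
        apply Finset.prod_congr rfl
        intro i _
        rw [EuclideanSpace.norm_sq_eq]

theorem hadamard {n : Type*} [Fintype n] [DecidableEq n] (A : Matrix n n ℂ) :
    ‖A.det‖ ^ 2 ≤ ∏ i, ∑ j, ‖A i j‖ ^ 2 := by
  have e := Fintype.equivFin n
  have h := hadamard_fin (A.submatrix e.symm e.symm)
  rw [Matrix.det_submatrix_equiv_self] at h
  refine h.trans (le_of_eq ?_)
  rw [← Equiv.prod_comp e]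
  apply Finset.prod_congr rfl
  intro i _
  rw [← Equiv.sum_comp e]
  simp

end Pool.Agent.H4.RR
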