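import Pool.Agent.H4.RR.Tower
import Pool.Agent.H4.RR.Radical

/-!
# The infinite level (MP_187c26_nt, real radical towers)
-/

set_option autoImplicit false

open NumberField Polynomial IntermediateField

namespace Pool.Agent.H4.RR

lemma adjoin_subset {K Ω : Type} [Field K] [Field Ω] [CharZero Ω] [Algebra K Ω]
    (E' : IntermediateField ℚ Ω) (hK : ∀ k : K, algebraMap K Ω k ∈ E') (S : Set Ω)
    (hS : ∀ y ∈ S, y ∈ E') (a : Ω) (ha : a ∈ IntermediateField.adjoin K S) : a ∈ E' := by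
  let E'' : IntermediateField K Ω := E'.toSubfield.toIntermediateField hK
  have h1 : IntermediateField.adjoin K S ≤ E'' := by
    rw [IntermediateField.adjoin_le_iff]
    intro y hy
    exact hS y hy
  exact h1 ha

lemma zpowers_mem {Ω : Type} [Field Ω] [CharZero Ω] (E' : IntermediateField ℚ Ω) (x y : Ωˣ)
    (hx : (x : Ω) ∈ E') (hy : y ∈ Subgroup.zpowers x) : (y : Ω) ∈ E' := by
  obtain ⟨k, rfl⟩ := Subgroup.mem_zpowers_iff.mp hy
  rw [Units.val_zpow_eq_zpow_val]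
  exact zpow_mem hx k

/-- The saturation (division closure) of a subgroup. -/
def sat {G : Type} [Group G] (Γ : Subgroup G) : Set G := {x | ∃ n : ℕ, 1 ≤ n ∧ x ^ n ∈ Γ}

lemma torsion_sup_sub_sat {G : Type} [CommGroup G] (Γ : Subgroup G) {ι : Type} [Fintype ι]
    (x : ι → G) (hx : ∀ i, x i ∈ Γ) (a : G)
    (ha : a ∈ CommGroup.torsion G ⊔ ⨆ i ∈ (Finset.univ : Finset ι), Subgroup.zpowers (x i)) :
    a ∈ sat Γ := by
  obtain ⟨z, hz, w, hw, rfl⟩ := Subgroup.mem_sup.mp ha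
  have h1 : w ∈ Γ := by
    have : (⨆ i ∈ (Finset.univ : Finset ι), Subgroup.zpowers (x i)) ≤ Γ := by
      apply iSup₂_le
      intro i _
      rw [Subgroup.zpowers_le]
      exact hx i
    exact this hw
  have h2 : IsOfFinOrder z := by
    rwa [CommGroup.mem_torsion] at hz
  obtain ⟨n, hn, hzn⟩ := isOfFinOrder_iff_pow_eq_one.mp h2
  refine ⟨n, hn, ?_⟩
  rw [mul_pow, hzn, one_mul]
  exact Γ.pow_mem h1 n

theorem bog_infinite (K Ω : Type) [Field K] [Field Ω] [CharZero Ω]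
    [Algebra K Ω] (r : ℕ) (b : Fin r → ℕ) (T : Fin r → Set ℕ)
    (Γ0 : Subgroup Ωˣ) (Γ : Fin r → Subgroup Ωˣ)
    (hb : ∀ i, 2 ≤ b i) (hsq : ∀ i, Squarefree (b i))
    (hbb : ∀ i j, i ≠ j → Nat.Coprime (b i) (b j))
    (hT : ∀ i, ∀ q ∈ T i, ¬ q ^ 2 ∣ b i ^ (q - 1) - 1)
    (hTT : ∀ i j, i ≠ j → Disjoint (T i) (T j))
    (hTb : ∀ i j, i ≠ j → ∀ q ∈ T i, ¬ q ∣ b j)
    (hΓ : ∀ i, IsRadicalGroup (b i) (T i) (Γ i))
    (c0 : ℝ) (hc0 : 0 < c0)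
    (hbase : ∀ s : Finset Ωˣ, (∀ y ∈ s, y ∈ Γ0) →
      ∃ (E0 : IntermediateField ℚ Ω) (_ : NumberField E0), (∀ k : K, algebraMap K Ω k ∈ E0) ∧
        (∀ y ∈ s, (y : Ω) ∈ E0) ∧ Bog E0 (CommGroup.torsion Ωˣ) c0 ∧
        ∀ i (m : ℕ), 1 ≤ m → (∀ q : ℕ, q.Prime → q ∣ m → q ∈ T i) →
          IsCoprime (discr E0) ((m * b i : ℕ) : ℤ))
    (a : Ωˣ)
    (ha : (a : Ω) ∈ IntermediateField.adjoin K {y : Ω | ∃ γ ∈ Γ0 ⊔ ⨆ i, Γ i, y = (γ : Ω)})
    (hasat : a ∉ sat (Γ0 ⊔ ⨆ i, Γ i)) : cseq c0 r ≤ absLogHeight₁ (a : Ω) := by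
  classical
  obtain ⟨s, hs, has⟩ := mem_adjoin_finite (Γ0 ⊔ ⨆ i, Γ i) (a : Ω) ha
  -- decompose the elements of s
  have hdec : ∀ y : Ωˣ, y ∈ Γ0 ⊔ ⨆ i, Γ i →
      ∃ (y0 : Ωˣ) (f : Fin r → Ωˣ), y0 ∈ Γ0 ∧ (∀ i, f i ∈ Γ i) ∧ y = y0 * ∏ i, f i := by
    intro y hy
    obtain ⟨y0, hy0, w, hw, rfl⟩ := Subgroup.mem_sup.mp hy
    obtain ⟨f, hf, rfl⟩ := mem_iSup_fin Γ w hw
    exact ⟨y0, f, hy0, hf, rfl⟩
  choose! y0 f hy0 hf hyf using hdec
  -- base field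
  obtain ⟨E0, hNF, hKE0, hsE0, hB0, hdisc0⟩ := hbase (s.image y0) (by
    intro y hy
    obtain ⟨z, hz, rfl⟩ := Finset.mem_image.mp hy
    exact hy0 z (hs z hz))
  -- cyclic groups
  have hcyc : ∀ i, ∃ x ∈ Γ i, ∃ m : ℕ, 1 ≤ m ∧ (∀ q : ℕ, q.Prime → q ∣ m → q ∈ T i) ∧
      (x : Ω) ^ m = (b i : Ω) ∧ ∀ y ∈ s.image (fun z => f z i), y ∈ Subgroup.zpowers x := by
    intro i
    apply radical_cyclic (b i) (hb i) (T i) (Γ i) (hΓ i)
    intro y hy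
    obtain ⟨z, hz, rfl⟩ := Finset.mem_image.mp hy
    exact hf z (hs z hz) i
  choose x hxΓ m hm hmT hxm hxs using hcyc
  have hcop : ∀ i ∈ (Finset.univ : Finset (Fin r)), ∀ j ∈ (Finset.univ : Finset (Fin r)), i ≠ j →
      Nat.Coprime (m i * b i) (m j * b j) := by
    intro i _ j _ hij
    rw [Nat.coprime_iff_isRelPrime]
    intro d hd1 hd2
    rw [Nat.isUnit_iff]
    by_contra hd
    obtain ⟨p, hp, hpd⟩ := Nat.exists_prime_and_dvd hd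
    rcases (hp.dvd_mul).mp (hpd.trans hd1) with h1 | h1
    · have h1' := hmT i p hp h1
      rcases (hp.dvd_mul).mp (hpd.trans hd2) with h2 | h2
      · exact (Set.disjoint_left.mp (hTT i j hij)) h1' (hmT j p hp h2)
      · exact hTb i j hij p h1' h2
    · rcases (hp.dvd_mul).mp (hpd.trans hd2) with h2 | h2
      · exact hTb j i (Ne.symm hij) p (hmT j p hp h2) h1
      · exact hp.one_lt.ne' (Nat.eq_one_of_dvd_coprimes (hbb i j hij) h1 h2)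
  obtain ⟨hNF', hB', -⟩ := tower E0 c0 hc0 hB0 b m x Finset.univ (fun i _ => hb i)
    (fun i _ => hsq i) (fun i _ => hm i) (fun i _ => hxm i)
    (fun i _ q hq hqm => hT i q (hmT i q hq hqm)) hcop (fun i _ => hdisc0 i (m i) (hm i) (hmT i))
    _ rfl
  rw [Finset.card_univ, Fintype.card_fin] at hB'
  set E' : IntermediateField ℚ Ω := E0 ⊔ ⨆ i ∈ (Finset.univ : Finset (Fin r)), ℚ⟮(x i : Ω)⟯
    with hE'
  have hE0E' : E0 ≤ E' := le_sup_left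
  have hxE' : ∀ i, (x i : Ω) ∈ E' := by
    intro i
    have h1 : ℚ⟮(x i : Ω)⟯ ≤ E' := by
      rw [hE']
      exact le_sup_of_le_right (le_iSup₂_of_le i (Finset.mem_univ i) le_rfl)
    exact h1 (mem_adjoin_simple_self ℚ _)
  apply hB' a
  · apply adjoin_subset E' (fun k => hE0E' (hKE0 k)) _ _ (a : Ω) has
    rintro y ⟨γ, hγ, rfl⟩
    rw [hyf γ (hs γ hγ)]
    rw [Units.val_mul, Units.coe_prod]
    apply mul_mem
    · exact hE0E' (hsE0 _ (Finset.mem_image_of_mem y0 hγ))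
    · apply prod_mem
      intro i _
      exact zpowers_mem E' (x i) _ (hxE' i)
        (hxs i _ (Finset.mem_image_of_mem (fun z => f z i) hγ))
  · intro haS
    apply hasat
    apply torsion_sup_sub_sat (Γ0 ⊔ ⨆ i, Γ i) x _ a haS
    intro i
    have h1 : Γ i ≤ Γ0 ⊔ ⨆ i, Γ i := le_sup_of_le_right (le_iSup Γ i)
    exact h1 (hxΓ i)

end Pool.Agent.H4.RR
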