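import Mathlib

/-!
# Module Irred (MP_187c26_nt, real radical towers)

`X^m - b` is irreducible over a number field `K` whose discriminant is prime to the squarefree
integer `b ≥ 2`; consequently `[K(x):K] = m` for `x^m = b`.

Proof. Let `l` be a prime factor of `b`, `P` a prime of `𝓞 K` above `l`. As `l ∤ discr K`, `P` is
unramified over `l` (`NumberField.not_dvd_discr_iff_forall_liesOver` or
`NumberField.not_dvd_discr_iff_forall_mem`), so `l ∉ P^2` (ramification index one). Write
`b = l * b'`, `l ∤ b'` (squarefree), so `b' ∉ P` and `b ∉ P^2` (if `l b' ∈ P^2` with `b' ∉ P`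
then `l ∈ P^2`, e.g. `Ideal.IsPrime.mem_pow_mul` or multiplicities). So `X^m - C b ∈ (𝓞 K)[X]` is
Eisenstein at `P` (`Polynomial.irreducible_of_eisenstein_criterion` /
`Polynomial.IsEisensteinAt.irreducible`), hence irreducible; it is monic and `𝓞 K` is integrally
closed so it stays irreducible over `K` (`Polynomial.Monic.irreducible_iff_irreducible_map_fraction_map`).
(`K = ℚ` is the case `discr = 1`, `NumberField.discr_rat`.)
Second statement: the minimal polynomial of `x` over `K` is `X^m - C b`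
(`minpoly.eq_of_irreducible_of_monic`), and `finrank K K⟮x⟯ = natDegree (minpoly)`
(`IntermediateField.adjoin.finrank`), `K⟮x⟯ = ⊤`.
-/

set_option autoImplicit false

open NumberField Polynomial

namespace Pool.Agent.H4.RR

theorem irreducible_X_pow_sub (K : Type) [Field K] [NumberField K] (m b : ℕ) (hm : 1 ≤ m)
    (hb : 2 ≤ b) (hsq : Squarefree b) (hcop : IsCoprime (discr K) (b : ℤ)) :
    Irreducible (X ^ m - C (b : K) : K[X]) := by
  obtain ⟨l, hl, hlb⟩ := Nat.exists_prime_and_dvd (n := b) (by omega)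
  obtain ⟨b', rfl⟩ := hlb
  have hlZ : Prime (l : ℤ) := Nat.prime_iff_prime_int.1 hl
  have hlb' : ¬ l ∣ b' := by
    rintro ⟨c, rfl⟩
    have := hsq l ⟨c, by ring⟩
    exact hl.one_lt.ne' (Nat.isUnit_iff.1 this)
  have hnd : ¬ (l : ℤ) ∣ discr K := by
    intro h
    have h2 : (l : ℤ) ∣ ((l * b' : ℕ) : ℤ) := by
      push_cast
      exact dvd_mul_right _ _
    have h3 := hcop.isUnit_of_dvd' h h2
    exact hlZ.not_isUnit h3
  -- a prime above l
  have hne : (Ideal.span {(l : 𝓞 K)}) ≠ ⊤ := by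
    rw [Ne, Ideal.span_singleton_eq_top]
    intro hu
    have hu2 : IsUnit (Algebra.norm ℤ (l : 𝓞 K)) := hu.map _
    have h3 : Algebra.norm ℤ (l : 𝓞 K) = (l : ℤ) ^ Module.finrank ℤ (𝓞 K) := by
      have := Algebra.norm_algebraMap (R := ℤ) (S := 𝓞 K) (l : ℤ)
      simpa using this
    rw [h3] at hu2
    have h4 : 0 < Module.finrank ℤ (𝓞 K) := by
      rw [RingOfIntegers.rank]
      exact Module.finrank_pos
    exact hlZ.not_isUnit ((isUnit_pow_iff h4.ne').1 hu2)
  obtain ⟨P, hPmax, hlP⟩ := Ideal.exists_le_maximal _ hne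
  have hlP' : (l : 𝓞 K) ∈ P := hlP (Ideal.mem_span_singleton_self _)
  have hPprime : P.IsPrime := hPmax.isPrime
  have hunr : Algebra.IsUnramifiedAt ℤ P :=
    (not_dvd_discr_iff_forall_mem K (𝓞 K) hlZ).1 hnd P hPprime (by simpa using hlP')
  have hl0 : (l : 𝓞 K) ≠ 0 := by exact_mod_cast hl.ne_zero
  have hover : P.LiesOver (Ideal.span {(l : ℤ)}) :=
    (Ideal.liesOver_span_iff hPprime.ne_top hlZ).2 (by simpa using hlP')
  have hmapspan : Ideal.map (algebraMap ℤ (𝓞 K)) (Ideal.span {(l : ℤ)}) = Ideal.span {(l : 𝓞 K)} := by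
    rw [Ideal.map_span]
    simp
  have hl2 : (l : 𝓞 K) ∉ P ^ 2 := by
    intro h2
    have e1 : Ideal.ramificationIdx P ℤ = 1 := Ideal.ramificationIdx_eq_one P ℤ
    have e2 := Ideal.ramificationIdx'_eq_ramificationIdx (Ideal.span {(l : ℤ)}) P
    have e3 : (Ideal.span {(l : ℤ)}).ramificationIdx' P = 1 := by
      rw [e2]
      · exact e1
      · simpa using hl.ne_zero
    have hle : Ideal.map (algebraMap ℤ (𝓞 K)) (Ideal.span {(l : ℤ)}) ≤ P := by
      rw [hmapspan]; exact hlP
    have e4 := Ideal.ramificationIdx'_ne_one_iff hle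
    apply e4.2 ?_ e3
    rw [hmapspan, Ideal.span_singleton_le_iff_mem]
    exact h2
  have hb'P : (b' : 𝓞 K) ∉ P := by
    intro h
    have hc : Nat.Coprime l b' := (Nat.Prime.coprime_iff_not_dvd hl).2 hlb'
    have hc' : IsCoprime (l : ℤ) (b' : ℤ) := Nat.isCoprime_iff_coprime.2 hc
    obtain ⟨x, y, hxy⟩ := hc'
    have : (1 : 𝓞 K) = (x : 𝓞 K) * l + (y : 𝓞 K) * b' := by
      have := congrArg (fun z : ℤ => (z : 𝓞 K)) hxy
      push_cast at this
      exact this.symm
    apply hPprime.ne_top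
    rw [Ideal.eq_top_iff_one, this]
    exact P.add_mem (P.mul_mem_left _ hlP') (P.mul_mem_left _ h)
  have hbP : ((l * b' : ℕ) : 𝓞 K) ∈ P := by
    push_cast
    exact P.mul_mem_right _ hlP'
  have hbP2 : ((l * b' : ℕ) : 𝓞 K) ∉ P ^ 2 := by
    push_cast
    intro h
    rcases Ideal.IsPrime.mem_pow_mul P h with h1 | h1
    · exact hl2 h1
    · exact hb'P h1
  have hmon : (X ^ m - C ((l * b' : ℕ) : 𝓞 K) : (𝓞 K)[X]).Monic := monic_X_pow_sub_C _ (by omega)
  have hdeg : (X ^ m - C ((l * b' : ℕ) : 𝓞 K) : (𝓞 K)[X]).natDegree = m := natDegree_X_pow_sub_C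
  have hirr : Irreducible (X ^ m - C ((l * b' : ℕ) : 𝓞 K) : (𝓞 K)[X]) := by
    refine irreducible_of_eisenstein_criterion hPprime ?_ ?_ ?_ ?_ hmon.isPrimitive
    · rw [hmon.leadingCoeff]
      exact fun h => hPprime.ne_top ((Ideal.eq_top_iff_one _).2 h)
    · intro n hn
      rw [degree_eq_natDegree hmon.ne_zero, hdeg] at hn
      have hn' : n < m := by exact_mod_cast hn
      rw [coeff_sub, coeff_X_pow, if_neg hn'.ne, zero_sub, coeff_C]
      split_ifs
      · exact P.neg_mem hbP
      · simp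
    · rw [degree_eq_natDegree hmon.ne_zero, hdeg]
      exact_mod_cast hm
    · rw [coeff_sub, coeff_X_pow, if_neg (by omega), zero_sub, coeff_C, if_pos rfl]
      intro h
      exact hbP2 (by simpa using (P ^ 2).neg_mem h)
  have h5 := (hmon.irreducible_iff_irreducible_map_fraction_map (K := K)).1 hirr
  simpa using h5

theorem finrank_eq (K F : Type) [Field K] [NumberField K] [Field F] [NumberField F]
    [Algebra K F] (m b : ℕ) (hm : 1 ≤ m) (hb : 2 ≤ b) (hsq : Squarefree b)
    (hcop : IsCoprime (discr K) (b : ℤ)) (x : F) (hx : x ^ m = (b : F))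
    (htop : IntermediateField.adjoin K {x} = ⊤) : Module.finrank K F = m := by
  have hirr := irreducible_X_pow_sub K m b hm hb hsq hcop
  have hmon : (X ^ m - C (b : K) : K[X]).Monic := monic_X_pow_sub_C _ (by omega)
  have haev : aeval x (X ^ m - C (b : K) : K[X]) = 0 := by
    simp [hx]
  have hmin := minpoly.eq_of_irreducible_of_monic hirr haev hmon
  have hint : IsIntegral K x := ⟨_, hmon, by simpa [aeval_def] using haev⟩
  have h1 := IntermediateField.adjoin.finrank hint
  rw [← hmin, natDegree_X_pow_sub_C] at h1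
  rw [← h1, htop]
  exact IntermediateField.finrank_top'.symm

end Pool.Agent.H4.RR
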