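import Mathlib

/-!
# Module KFrob (MP_187c26_nt, real radical towers)

Frobenius elements for `E = K(ζ_M)` over `K`, modulo a prime `P` of `K` above `p ∤ M`.

Proof. `E/K` is Galois (`IsCyclotomicExtension {M} K E`, or splitting field of `X^M - 1`), and
`G = E ≃ₐ[K] E` acts on `𝓞 E` with invariants `𝓞 K` (`Algebra.IsInvariant (𝓞 K) (𝓞 E) G`, Mathlib has
`Algebra.isInvariant_of_isGalois'` or similar). Let `Q` be a prime of `𝓞 E` above `P`. By
`IsArithFrobAt.exists_of_isInvariant` there is `σ ∈ G` with `σ y ≡ y^q mod Q` for all `y`,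
`q = #(𝓞 K / P) = absNorm P`; `σ ζ = ζ^q` by `AlgHom.IsArithFrobAt.apply_of_pow_eq_one` (`M ∉ Q` since
`p ∈ Q` and `p ∤ M`). For `z ∈ 𝓞 K[ζ]` (`Algebra.adjoin (𝓞 K) {ζ}`) one has `z^q ≡ σ z mod P 𝓞 E`:
true for `ζ` (equality), for elements of `𝓞 K` (Fermat in `𝓞 K / P`), compatible with products, and
with sums because `q` is a power of `p ∈ P` (`add_pow_char_pow` in `𝓞 E / P 𝓞 E`, or
`exists_add_pow_prime_eq` iterated). For general `y ∈ 𝓞 E` there is a power `M^t` with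
`M^t y ∈ 𝓞 K[ζ]`: the discriminant of the power basis (or `f'(ζ)`, `f` the minimal polynomial) divides
a power of `M` (`X^M - 1 = f g`, so `f'(ζ) g(ζ) = M ζ^(M-1)`, and `f'(ζ) y ∈ 𝓞 K[ζ]`; e.g.
`Algebra.discr_mul_isIntegral_mem_adjoin`, `conductor`/`differentIdeal` lemmas
`conductor_mul_differentIdeal`, `aeval_derivative_mem_differentIdeal`). Then
`M^t (y^q - σ y) ≡ (M^t y)^q - σ (M^t y) ≡ 0 mod P 𝓞 E` using `M^(tq) ≡ M^t mod p`; as `M` is invertible
modulo `p`, `y^q - σ y ∈ P 𝓞 E`.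
-/

set_option autoImplicit false

open NumberField

namespace Pool.Agent.H4.RR

private theorem kf_add {R : Type} [CommRing R] (I : Ideal R) {p : ℕ} (hp : p.Prime)
    (hpI : (p : R) ∈ I) (k : ℕ) (x y : R) :
    (x + y) ^ p ^ k - (x ^ p ^ k + y ^ p ^ k) ∈ I := by
  rcases eq_or_ne I ⊤ with rfl | hI
  · trivial
  · have : Nontrivial (R ⧸ I) := Ideal.Quotient.nontrivial_iff.2 hI
    have h0 : ((p : ℕ) : R ⧸ I) = 0 := by
      rw [← map_natCast (Ideal.Quotient.mk I) p]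
      exact Ideal.Quotient.eq_zero_iff_mem.2 hpI
    have : CharP (R ⧸ I) p := (CharP.charP_iff_prime_eq_zero hp).2 h0
    have : Fact p.Prime := ⟨hp⟩
    rw [← Ideal.Quotient.eq_zero_iff_mem]
    rw [map_sub, map_add, map_pow, map_pow, map_pow, map_add, add_pow_char_pow, sub_self]

/-- a power of a prime number -/
private theorem kf_card (K : Type) [Field K] [NumberField K] (p : ℕ) (hp : p.Prime)
    (P : Ideal (𝓞 K)) (hPm : P.IsMaximal) (hP : (p : 𝓞 K) ∈ P) :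
    (∃ k : ℕ, Ideal.absNorm P = p ^ k ∧ k ≠ 0) ∧ ∀ r : 𝓞 K, r ^ Ideal.absNorm P - r ∈ P := by
  have hp0 : (p : 𝓞 K) ≠ 0 := by exact_mod_cast hp.ne_zero
  have hP0 : P ≠ ⊥ := fun h => hp0 (by rw [h] at hP; exact hP)
  have hfin : Finite (𝓞 K ⧸ P) := Ideal.finiteQuotientOfFreeOfNeBot P hP0
  have hft : Fintype (𝓞 K ⧸ P) := Fintype.ofFinite _
  let _ : Field (𝓞 K ⧸ P) := Ideal.Quotient.field P
  have h0 : ((p : ℕ) : 𝓞 K ⧸ P) = 0 := by
    rw [← map_natCast (Ideal.Quotient.mk P) p]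
    exact Ideal.Quotient.eq_zero_iff_mem.2 hP
  have : CharP (𝓞 K ⧸ P) p := (CharP.charP_iff_prime_eq_zero hp).2 h0
  obtain ⟨n, -, hn⟩ := FiniteField.card (𝓞 K ⧸ P) p
  have hq : Ideal.absNorm P = Fintype.card (𝓞 K ⧸ P) := by
    rw [Ideal.absNorm_apply, Submodule.cardQuot_apply, Nat.card_eq_fintype_card]
  refine ⟨⟨n, by rw [hq, hn], n.ne_zero⟩, fun r => ?_⟩
  rw [← Ideal.Quotient.eq_zero_iff_mem, hq, map_sub, map_pow, FiniteField.pow_card, sub_self]

private theorem kf_conductor (K E : Type) [Field K] [NumberField K] [Field E] [NumberField E]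
    [Algebra K E] (M : ℕ) (hM : 1 ≤ M) (z : 𝓞 E) (hz : z ^ M = 1)
    (hadj : Algebra.adjoin K {(algebraMap (𝓞 E) E z)} = ⊤) (y : 𝓞 E) :
    (M : 𝓞 E) * y ∈ Algebra.adjoin (𝓞 K) {z} := by
  have hi : IsIntegral (𝓞 K) z := Algebra.IsIntegral.isIntegral z
  have h1 := conductor_mul_differentIdeal (𝓞 K) K E z hadj
  have h2 : Polynomial.aeval z (Polynomial.derivative (minpoly (𝓞 K) z)) ∈ conductor (𝓞 K) z := by
    have h3 : Polynomial.aeval z (Polynomial.derivative (minpoly (𝓞 K) z)) ∈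
        conductor (𝓞 K) z * differentIdeal (𝓞 K) (𝓞 E) := by
      rw [h1]
      exact Ideal.mem_span_singleton_self _
    exact Ideal.mul_le_left h3
  have h4 : minpoly (𝓞 K) z ∣ (Polynomial.X ^ M - 1 : Polynomial (𝓞 K)) := by
    apply minpoly.isIntegrallyClosed_dvd hi
    simp [hz]
  obtain ⟨g, hg⟩ := h4
  have h5 := congrArg (fun f => Polynomial.aeval z (Polynomial.derivative f)) hg
  simp only [Polynomial.derivative_sub, Polynomial.derivative_X_pow, Polynomial.derivative_one,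
    sub_zero, Polynomial.derivative_mul, map_add, map_mul, minpoly.aeval, zero_mul, add_zero] at h5
  have h6 : (M : 𝓞 E) ∈ conductor (𝓞 K) z := by
    have h7 : (M : 𝓞 E) = (Polynomial.aeval z g * z) *
        Polynomial.aeval z (Polynomial.derivative (minpoly (𝓞 K) z)) := by
      have h8 : z ^ (M - 1) * z = 1 := by
        rw [← pow_succ, Nat.sub_add_cancel hM, hz]
      have h9 : Polynomial.aeval z (Polynomial.C (M : 𝓞 K) * Polynomial.X ^ (M - 1)) =
          (M : 𝓞 E) * z ^ (M - 1) := by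
        simp
      have h10 : (M : 𝓞 E) * z ^ (M - 1) = Polynomial.aeval z (Polynomial.derivative
          (minpoly (𝓞 K) z)) * Polynomial.aeval z g := by
        rw [← h5]
        simp
      linear_combination z * h10 - (M : 𝓞 E) * h8
    rw [h7]
    exact Ideal.mul_mem_left _ _ h2
  exact mem_conductor_iff.1 h6 y

theorem kcyc_frob (K E : Type) [Field K] [NumberField K] [Field E] [NumberField E] [Algebra K E]
    (M p : ℕ) (hM : 1 ≤ M) (hp : p.Prime) (hpM : ¬ p ∣ M) (ζ : E) (hζ : IsPrimitiveRoot ζ M)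
    (htop : IntermediateField.adjoin K {ζ} = ⊤) (P : Ideal (𝓞 K)) (hPm : P.IsMaximal)
    (hP : (p : 𝓞 K) ∈ P) :
    ∃ s : E ≃+* E, ∀ y : 𝓞 E,
      y ^ (Ideal.absNorm P) - RingOfIntegers.mapRingEquiv s y
        ∈ P.map (algebraMap (𝓞 K) (𝓞 E)) := by
  classical
  have hM0 : NeZero M := ⟨by omega⟩
  have hadj : Algebra.adjoin K {ζ} = ⊤ := by
    have h2 := IntermediateField.adjoin_simple_toSubalgebra_of_isAlgebraic
      (Algebra.IsAlgebraic.isAlgebraic (R := K) ζ)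
    rw [htop, IntermediateField.top_toSubalgebra] at h2
    exact h2.symm
  have hcyc : IsCyclotomicExtension {M} K E := by
    rw [IsCyclotomicExtension.iff_adjoin_eq_top]
    refine ⟨fun n hn _ => ⟨ζ, by rw [Set.mem_singleton_iff.1 hn]; exact hζ⟩, ?_⟩
    rw [eq_top_iff, ← hadj]
    apply Algebra.adjoin_mono
    rw [Set.singleton_subset_iff]
    exact ⟨M, rfl, by omega, hζ.pow_eq_one⟩
  have hgal : IsGalois K E := IsCyclotomicExtension.isGalois {M} K E
  obtain ⟨⟨k, hk, hk0⟩, hPq⟩ := kf_card K p hp P hPm hP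
  have hp0 : (p : 𝓞 E) ≠ 0 := by exact_mod_cast hp.ne_zero
  obtain ⟨Q, hQm, hQP⟩ := Ideal.exists_ideal_over_maximal_of_isIntegral (S := 𝓞 E) P (by
    rw [(RingHom.injective_iff_ker_eq_bot _).1 (FaithfulSMul.algebraMap_injective (𝓞 K) (𝓞 E))]
    exact bot_le)
  have hpQ : (p : 𝓞 E) ∈ Q := by
    have h1 : (p : 𝓞 K) ∈ Q.comap (algebraMap (𝓞 K) (𝓞 E)) := by rw [hQP]; exact hP
    rw [Ideal.mem_comap, map_natCast] at h1
    exact h1
  have hQ0 : Q ≠ ⊥ := fun h => hp0 (by rw [h] at hpQ; exact hpQ)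
  have hfin : Finite (𝓞 E ⧸ Q) := Ideal.finiteQuotientOfFreeOfNeBot Q hQ0
  obtain ⟨a, b, hab⟩ : ∃ a b : 𝓞 E, a * M + b * p = 1 := by
    have h1 : IsCoprime (M : ℤ) (p : ℤ) :=
      Nat.isCoprime_iff_coprime.2 ((Nat.Prime.coprime_iff_not_dvd hp).2 hpM).symm
    obtain ⟨a, b, h2⟩ := h1
    exact ⟨a, b, by exact_mod_cast congrArg (fun t : ℤ => (t : 𝓞 E)) h2⟩
  have hMQ : ((M : ℕ) : 𝓞 E) ∉ Q := by
    intro hMQ
    apply hQm.ne_top
    rw [Ideal.eq_top_iff_one, ← hab]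
    exact add_mem (Ideal.mul_mem_left _ _ hMQ) (Ideal.mul_mem_left _ _ hpQ)
  obtain ⟨σ, hσ⟩ := IsArithFrobAt.exists_of_isInvariant (𝓞 K) (E ≃ₐ[K] E) Q
  have hcard : Nat.card (𝓞 K ⧸ Q.under (𝓞 K)) = Ideal.absNorm P := by
    rw [Ideal.absNorm_apply, Submodule.cardQuot_apply, ← hQP]
  set z : 𝓞 E := hζ.toInteger with hz
  have hzM : z ^ M = 1 := hζ.toInteger_isPrimitiveRoot.pow_eq_one
  have hσz : σ • z = z ^ Ideal.absNorm P := by
    have h1 := hσ.apply_of_pow_eq_one hzM hMQ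
    rw [hcard] at h1
    exact h1
  have hpI : (p : 𝓞 E) ∈ P.map (algebraMap (𝓞 K) (𝓞 E)) := by
    have h1 := Ideal.mem_map_of_mem (algebraMap (𝓞 K) (𝓞 E)) hP
    rw [map_natCast] at h1
    exact h1
  set I : Ideal (𝓞 E) := P.map (algebraMap (𝓞 K) (𝓞 E)) with hI
  set q : ℕ := Ideal.absNorm P with hq
  have hmap : ∀ y : 𝓞 E, RingOfIntegers.mapRingEquiv σ.toRingEquiv y = σ • y := by
    intro y
    apply RingOfIntegers.ext
    rfl
  have hA : ∀ w ∈ Algebra.adjoin (𝓞 K) {z}, w ^ q - σ • w ∈ I := by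
    intro w hw
    induction hw using Algebra.adjoin_induction with
    | mem x hx =>
      rw [Set.mem_singleton_iff] at hx
      rw [hx, hσz, sub_self]
      exact zero_mem _
    | algebraMap r =>
      have h1 : σ • (algebraMap (𝓞 K) (𝓞 E) r) = algebraMap (𝓞 K) (𝓞 E) r := smul_algebraMap _ _
      rw [h1, ← map_pow, ← map_sub]
      exact Ideal.mem_map_of_mem _ (hPq r)
    | add x y _ _ ihx ihy =>
      have h1 := kf_add I hp hpI k x y
      rw [← hk] at h1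
      rw [smul_add]
      have h2 : (x + y) ^ q - (σ • x + σ • y) = ((x + y) ^ q - (x ^ q + y ^ q)) +
        ((x ^ q - σ • x) + (y ^ q - σ • y)) := by ring
      rw [h2]
      exact add_mem h1 (add_mem ihx ihy)
    | mul x y _ _ ihx ihy =>
      rw [smul_mul']
      have h2 : (x * y) ^ q - (σ • x) * (σ • y) = y ^ q * (x ^ q - σ • x) +
        (σ • x) * (y ^ q - σ • y) := by ring
      rw [h2]
      exact add_mem (Ideal.mul_mem_left _ _ ihx) (Ideal.mul_mem_left _ _ ihy)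
  refine ⟨σ.toRingEquiv, fun y => ?_⟩
  rw [hmap]
  have h1 := hA _ (kf_conductor K E M hM z hzM (by
    have h9 : algebraMap (𝓞 E) E z = ζ := hζ.coe_toInteger
    rw [h9]
    exact hadj) y)
  have h0 : σ • (M : 𝓞 E) = M := map_natCast (MulSemiringAction.toRingHom (E ≃ₐ[K] E) (𝓞 E) σ) M
  have h2 : ((M : 𝓞 E) ^ q - M) ∈ I := by
    have h3 : (M : 𝓞 E) ∈ Algebra.adjoin (𝓞 K) {z} := natCast_mem _ M
    have h4 := hA _ h3
    rw [h0] at h4
    exact h4
  have h3 : (M : 𝓞 E) * (y ^ q - σ • y) ∈ I := by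
    have h4 : (M : 𝓞 E) * (y ^ q - σ • y) = ((M * y) ^ q - σ • ((M : 𝓞 E) * y)) -
      y ^ q * ((M : 𝓞 E) ^ q - M) := by
      rw [smul_mul', h0]
      ring
    rw [h4]
    exact sub_mem h1 (Ideal.mul_mem_left _ _ h2)
  have h4 : y ^ q - σ • y = a * ((M : 𝓞 E) * (y ^ q - σ • y)) + (b * (y ^ q - σ • y)) * p := by
    linear_combination (-(y ^ q - σ • y)) * hab
  rw [h4]
  exact add_mem (Ideal.mul_mem_left _ _ h3) (Ideal.mul_mem_left _ _ hpI)

end Pool.Agent.H4.RR
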