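import Mathlib

/-!
# Module LocQ (MP_187c26_nt, real radical towers)

`A = ℤ[x]`, `x^m = b`, `F = ℚ(x)` of degree `m`, is maximal at a prime `q ∣ m`, `q ∤ b`,
`q^2 ∤ b^(q-1) - 1`.

Proof. `m = q^n m'`, `q ∤ m'`, `n ≥ 1`; `π = x^{m'} - b ∈ A`, `N = q^n`.
(F1) `(π + b)^N = x^m = b`, and `(π + b)^N = π^N + q π b r + b^N`, so `π^N = - q (c₀ + π θ)` with
`c₀ = (b^N - b)/q` prime to `q` (`locQ_c0`).
(F3) If `γ ∈ A`, `γ^s ∈ πA + qA` then `γ ∈ πA + qA` (`locQ_rad`): `γ = g(x)`, `g ∈ ℤ[X]`; modulo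
`q`, `X^m - b = (X^{m'} - b)^N` and `X^{m'} - b` is squarefree, hence radical.
(Core, `locQ_core`) Let `y` be integral, `q y ∈ A`, `v = c₀ + πθ`. Then `π^N y = - v (q y) ∈ A`.
If `j ≥ 1` and `z = v^k π^j y ∈ A` then `z^s ∈ πA` by the integral equation of `y`, so
`z = πα + qβ` and `v z = π v α - π^N β`, so `v^(k+1) π^(j-1) y ∈ A`. So `v^k y ∈ A` for some `k`.
The ideal `J = {a ∈ A : a y ∈ A}` has `q, π, v` in its radical, so `c₀`, so `1`.
-/

set_option autoImplicit false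

open NumberField Polynomial

namespace Pool.Agent.H4.RR

/-- The Wieferich condition: `(b^(q^n) - b)/q` is prime to `q`. -/
lemma locQ_c0 (b q n : ℕ) (hq : q.Prime) (hqb : ¬ q ∣ b) (hW : ¬ q ^ 2 ∣ b ^ (q - 1) - 1)
    (hn : 1 ≤ n) :
    ∃ c : ℤ, (b : ℤ) ^ (q ^ n) - b = q * c ∧ ¬ (q : ℤ) ∣ c := by
  have := Fact.mk hq
  have fermat : ∀ k : ℕ, (q : ℤ) ∣ (b : ℤ) ^ (q ^ k) - b := by
    intro k
    rw [← ZMod.intCast_zmod_eq_zero_iff_dvd]
    push_cast
    rw [ZMod.pow_card_pow, sub_self]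
  obtain ⟨c, hc⟩ := fermat n
  refine ⟨c, hc, ?_⟩
  intro hqc
  obtain ⟨k, rfl⟩ : ∃ k, n = k + 1 := ⟨n - 1, by omega⟩
  have h1 : ((q : ℤ) ^ 2) ∣ (b : ℤ) ^ (q ^ (k + 1)) - b := by
    rw [hc, pow_two]
    exact mul_dvd_mul_left _ hqc
  have h2 : ((q : ℤ) ^ 2) ∣ (b : ℤ) ^ (q ^ (k + 1)) - (b : ℤ) ^ q := by
    have := dvd_sub_pow_of_dvd_sub (p := q) (fermat k) 1
    rw [← pow_mul, ← pow_add, pow_one] at this
    exact this
  have h3 : ((q : ℤ) ^ 2) ∣ (b : ℤ) ^ q - b := by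
    have := dvd_sub h1 h2
    have h4 : (b : ℤ) ^ (q ^ (k + 1)) - b - ((b : ℤ) ^ (q ^ (k + 1)) - (b : ℤ) ^ q)
        = (b : ℤ) ^ q - b := by ring
    rwa [h4] at this
  have hb : 1 ≤ b := by
    rcases Nat.eq_zero_or_pos b with h | h
    · subst h
      exact absurd (dvd_zero q) hqb
    · exact h
  have h5 : (b : ℤ) ^ q - b = b * ((b ^ (q - 1) - 1 : ℕ) : ℤ) := by
    rw [Nat.cast_sub (Nat.one_le_pow _ _ hb)]
    push_cast
    have h6 : (b : ℤ) ^ q = b * (b : ℤ) ^ (q - 1) := by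
      rw [← pow_succ']
      congr 1
      have := hq.one_lt
      omega
    rw [h6]
    ring
  rw [h5] at h3
  have hcop : IsCoprime ((q : ℤ) ^ 2) (b : ℤ) := by
    apply IsCoprime.pow_left
    rw [Nat.isCoprime_iff_coprime]
    exact (Nat.Prime.coprime_iff_not_dvd hq).2 hqb
  have h7 := hcop.dvd_of_dvd_mul_left h3
  apply hW
  exact_mod_cast h7

/-- The core of the argument, in any integral domain. -/
lemma locQ_core {R : Type*} [CommRing R] [IsDomain R] (A : Subalgebra ℤ R) (p t : R)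
    (hp : p ∈ A) (ht : t ∈ A) (hp0 : p ≠ 0) (q N : ℕ) (c0 : ℤ) (hN : 1 ≤ N)
    (hc : IsCoprime (q : ℤ) c0)
    (hrel : p ^ N = -((q : R) * ((c0 : R) + p * t)))
    (hrad : ∀ z ∈ A, ∀ s : ℕ, (∃ a ∈ A, z ^ s = p * a) → ∃ a ∈ A, ∃ b ∈ A, z = p * a + q * b)
    (y : R) (hy : IsIntegral ℤ y) (hqy : (q : R) * y ∈ A) : y ∈ A := by
  set v : R := (c0 : R) + p * t with hv
  have hvA : v ∈ A := A.add_mem (A.intCast_mem c0) (A.mul_mem hp ht)
  have hqA : (q : R) ∈ A := A.natCast_mem q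
  -- integral equation
  have hint : ∀ w ∈ A, w * y ∈ A → ∃ s : ℕ, ∃ a ∈ A, (w * y) ^ s = w * a := by
    intro w hw hwy
    obtain ⟨f, hf, hfy⟩ := hy
    refine ⟨f.natDegree, -∑ l ∈ Finset.range f.natDegree,
      ((f.coeff l : ℤ) : R) * (w ^ (f.natDegree - 1 - l) * (w * y) ^ l), ?_, ?_⟩
    · apply A.neg_mem
      apply A.sum_mem
      intro l _
      exact A.mul_mem (A.intCast_mem _) (A.mul_mem (A.pow_mem hw _) (A.pow_mem hwy _))
    · have h1 : y ^ f.natDegree = -∑ l ∈ Finset.range f.natDegree,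
          ((f.coeff l : ℤ) : R) * y ^ l := by
        have h2 := hfy
        rw [hf.as_sum] at h2
        simp only [eval₂_add, eval₂_pow, eval₂_X, eval₂_finsetSum, eval₂_mul, eval₂_C] at h2
        simp only [eq_intCast] at h2
        exact eq_neg_of_add_eq_zero_left h2
      rw [mul_pow, h1, mul_neg, mul_neg, Finset.mul_sum, Finset.mul_sum]
      congr 1
      apply Finset.sum_congr rfl
      intro l hl
      have hl' := Finset.mem_range.1 hl
      have h3 : w ^ f.natDegree = w * w ^ (f.natDegree - 1 - l) * w ^ l := by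
        rw [← pow_succ', ← pow_add]
        congr 1
        omega
      rw [h3, mul_pow]
      ring
  have step : ∀ j ≤ N, ∃ k : ℕ, v ^ k * p ^ (N - j) * y ∈ A := by
    intro j
    induction j with
    | zero =>
      intro _
      refine ⟨0, ?_⟩
      rw [Nat.sub_zero, pow_zero, one_mul, hrel]
      have : -((q : R) * v) * y = -(v * ((q : R) * y)) := by ring
      rw [this]
      exact A.neg_mem (A.mul_mem hvA hqy)
    | succ j ih =>
      intro hj
      obtain ⟨k, hk⟩ := ih (by omega)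
      obtain ⟨i, hi⟩ : ∃ i, N - j = i + 1 := ⟨N - j - 1, by omega⟩
      have hi' : N - (j + 1) = i := by omega
      rw [hi'] 
      rw [hi] at hk
      obtain ⟨s, a, ha, hsa⟩ := hint (v ^ k * p ^ (i + 1))
        (A.mul_mem (A.pow_mem hvA _) (A.pow_mem hp _)) hk
      obtain ⟨α, hα, β, hβ, hz⟩ := hrad _ hk s
        ⟨v ^ k * p ^ i * a, A.mul_mem (A.mul_mem (A.pow_mem hvA _) (A.pow_mem hp _)) ha, by
          rw [hsa]; ring⟩
      refine ⟨k + 1, ?_⟩
      obtain ⟨M, rfl⟩ : ∃ M, N = M + 1 := ⟨N - 1, by omega⟩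
      have h1 : p * (v ^ (k + 1) * p ^ i * y) = p * (v * α - p ^ M * β) := by
        have h2 : p * (v ^ (k + 1) * p ^ i * y) = v * (v ^ k * p ^ (i + 1) * y) := by ring
        rw [h2, hz]
        have h3 : v * (p * α + (q : R) * β) = p * (v * α) + ((q : R) * v) * β := by ring
        rw [h3]
        have h4 : (q : R) * v = -p ^ (M + 1) := by rw [hrel]; ring
        rw [h4]
        ring
      rw [mul_left_cancel₀ hp0 h1]
      exact A.sub_mem (A.mul_mem hvA hα) (A.mul_mem (A.pow_mem hp _) hβ)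
  obtain ⟨k, hk⟩ := step N le_rfl
  rw [Nat.sub_self, pow_zero, mul_one] at hk
  have hpN : p ^ N * y ∈ A := by
    rw [hrel]
    have : -((q : R) * v) * y = -(v * ((q : R) * y)) := by ring
    rw [this]
    exact A.neg_mem (A.mul_mem hvA hqy)
  -- the ideal J
  let J : Ideal A :=
    { carrier := {a : A | (a : R) * y ∈ A}
      add_mem' := by
        intro a b ha hb
        simp only [Set.mem_ofPred_eq] at ha hb ⊢
        push_cast
        rw [add_mul]
        exact A.add_mem ha hb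
      zero_mem' := by simp
      smul_mem' := by
        intro c a ha
        simp only [Set.mem_ofPred_eq, smul_eq_mul] at ha ⊢
        push_cast
        rw [mul_assoc]
        exact A.mul_mem c.2 ha }
  have hJ : ∀ a : A, a ∈ J ↔ (a : R) * y ∈ A := fun a => Iff.rfl
  have r1 : (⟨p, hp⟩ : A) ∈ J.radical := ⟨N, by rw [hJ]; simpa using hpN⟩
  have r2 : (⟨v, hvA⟩ : A) ∈ J.radical := ⟨k, by rw [hJ]; simpa using hk⟩
  have r3 : (⟨(q : R), hqA⟩ : A) ∈ J.radical := Ideal.le_radical (by rw [hJ]; exact hqy)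
  have r4 : (⟨(c0 : R), A.intCast_mem c0⟩ : A) ∈ J.radical := by
    have : (⟨(c0 : R), A.intCast_mem c0⟩ : A) = ⟨v, hvA⟩ - ⟨p, hp⟩ * ⟨t, ht⟩ := by
      apply Subtype.ext
      simp [hv]
    rw [this]
    exact J.radical.sub_mem r2 (J.radical.mul_mem_right _ r1)
  have r5 : (1 : A) ∈ J.radical := by
    obtain ⟨a, b, hab⟩ := hc
    have : (1 : A) = (a : A) * ⟨(q : R), hqA⟩ + (b : A) * ⟨(c0 : R), A.intCast_mem c0⟩ := by
      apply Subtype.ext
      have h1 : ((a * q + b * c0 : ℤ) : R) = 1 := by rw [hab]; simp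
      push_cast at h1
      push_cast
      exact h1.symm
    rw [this]
    exact J.radical.add_mem (J.radical.mul_mem_left _ r3) (J.radical.mul_mem_left _ r4)
  have r6 : (1 : A) ∈ J := by
    obtain ⟨s, hs⟩ := r5
    rwa [one_pow] at hs
  rw [hJ] at r6
  simpa using r6

/-- The kernel of `ℤ[X] → ℤ[x]` is generated by `X^m - b`. -/
lemma locQ_ker (F : Type) [Field F] [NumberField F] (m b : ℕ) (hm : 1 ≤ m) (x : 𝓞 F)
    (hx : x ^ m = (b : 𝓞 F)) (hfr : Module.finrank ℚ F = m)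
    (htop : IntermediateField.adjoin ℚ {(x : F)} = ⊤) (g : ℤ[X]) (hg : aeval x g = 0) :
    ∃ h : ℤ[X], g = (X ^ m - C (b : ℤ)) * h := by
  have hmon : (X ^ m - C (b : ℤ) : ℤ[X]).Monic := monic_X_pow_sub_C _ (by omega)
  set P : ℤ[X] := X ^ m - C (b : ℤ) with hP
  have hPx : aeval x P = 0 := by
    rw [hP, map_sub, map_pow, aeval_X, aeval_C, hx]
    simp
  have hdeg : (minpoly ℚ (x : F)).natDegree = m := by
    have hint : IsIntegral ℚ (x : F) := Algebra.IsIntegral.isIntegral _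
    rw [← IntermediateField.adjoin.finrank hint, htop, IntermediateField.finrank_top', hfr]
  have hr : g %ₘ P = 0 := by
    by_contra hne
    have h1 : aeval x (g %ₘ P) = 0 := by
      have h2 := modByMonic_add_div g P
      have h3 := congrArg (aeval x) h2
      rw [map_add, map_mul, hPx, zero_mul, add_zero, hg] at h3
      exact h3
    have h4 : aeval (x : F) ((g %ₘ P).map (Int.castRingHom ℚ)) = 0 := by
      have h5 : aeval (x : F) ((g %ₘ P).map (Int.castRingHom ℚ)) = aeval (x : F) (g %ₘ P) := by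
        exact aeval_map_algebraMap ℚ (x : F) (g %ₘ P)
      rw [h5]
      have h6 : aeval (x : F) (g %ₘ P) = algebraMap (𝓞 F) F (aeval x (g %ₘ P)) := by
        rw [← aeval_algebraMap_apply]
      rw [h6, h1, map_zero]
    have h7 : (g %ₘ P).map (Int.castRingHom ℚ) ≠ 0 := by
      intro h8
      apply hne
      exact (Polynomial.map_injective _ (Int.cast_injective)) (by rw [h8, Polynomial.map_zero])
    have h9 := natDegree_le_natDegree (minpoly.degree_le_of_ne_zero ℚ (x : F) h7 h4)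
    rw [hdeg] at h9
    have h10 : ((g %ₘ P).map (Int.castRingHom ℚ)).natDegree ≤ (g %ₘ P).natDegree :=
      natDegree_map_le
    have h11 : (g %ₘ P).natDegree < P.natDegree := by
      apply natDegree_modByMonic_lt _ hmon
      intro h12
      have := congrArg natDegree h12
      rw [hP, natDegree_X_pow_sub_C, natDegree_one] at this
      omega
    have h13 : P.natDegree = m := by rw [hP, natDegree_X_pow_sub_C]
    omega
  refine ⟨g /ₘ P, ?_⟩
  have h2 := modByMonic_add_div g P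
  rw [hr, zero_add] at h2
  exact h2.symm

/-- (F3): `A / (π, q)` is reduced. -/
lemma locQ_rad (F : Type) [Field F] [NumberField F] (m b q n m' : ℕ) (hm : 1 ≤ m) (hq : q.Prime)
    (hmm : m = m' * q ^ n) (hqm' : ¬ q ∣ m') (hqb : ¬ q ∣ b) (x : 𝓞 F)
    (hx : x ^ m = (b : 𝓞 F)) (hfr : Module.finrank ℚ F = m)
    (htop : IntermediateField.adjoin ℚ {(x : F)} = ⊤) (z : 𝓞 F)
    (hz : z ∈ Algebra.adjoin ℤ {x}) (s : ℕ)
    (hs : ∃ a ∈ Algebra.adjoin ℤ {x}, z ^ s = (x ^ m' - (b : 𝓞 F)) * a) :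
    ∃ a ∈ Algebra.adjoin ℤ {x}, ∃ c ∈ Algebra.adjoin ℤ {x},
      z = (x ^ m' - (b : 𝓞 F)) * a + (q : 𝓞 F) * c := by
  have := Fact.mk hq
  obtain ⟨a, ha, hza⟩ := hs
  rw [Algebra.adjoin_singleton_eq_range_aeval] at hz ha
  obtain ⟨g, rfl⟩ := hz
  obtain ⟨h1, rfl⟩ := ha
  obtain ⟨h3, hh3⟩ := locQ_ker F m b hm x hx hfr htop (g ^ s - (X ^ m' - C (b : ℤ)) * h1) (by
    rw [map_sub, map_mul, map_pow, map_sub, map_pow, aeval_X, aeval_C]
    have : (algebraMap ℤ (𝓞 F)) (b : ℤ) = (b : 𝓞 F) := by simp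
    rw [this]
    exact sub_eq_zero.2 hza)
  let r : ℤ →+* ZMod q := Int.castRingHom (ZMod q)
  set P : (ZMod q)[X] := X ^ m' - C (b : ZMod q) with hP
  have hm' : m' ≠ 0 := by
    rintro rfl
    exact hqm' (dvd_zero q)
  have hPm : (X ^ m' - C (b : ℤ) : ℤ[X]).map r = P := by
    simp [hP, r]
  have hfrob : (X ^ m - C (b : ℤ) : ℤ[X]).map r = P ^ (q ^ n) := by
    have e1 : (X ^ m - C (b : ℤ) : ℤ[X]).map r = X ^ m - C (b : ZMod q) := by
      simp [r]
    rw [e1, hP, sub_pow_char_pow, ← pow_mul, ← hmm, ← C_pow, ZMod.pow_card_pow]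
  have hb0 : (b : ZMod q) ≠ 0 := by
    rw [Ne, ZMod.natCast_eq_zero_iff]
    exact hqb
  have hsep : P.Separable := separable_X_pow_sub_C' q m' _ hqm' hb0
  have hPrad : IsRadical P := hsep.squarefree.isRadical
  have hdvd : P ∣ (g.map r) ^ s := by
    have e2 : g ^ s = (X ^ m' - C (b : ℤ)) * h1 + (X ^ m - C (b : ℤ)) * h3 := by
      rw [← hh3]; ring
    rw [← Polynomial.map_pow, e2, Polynomial.map_add, Polynomial.map_mul, Polynomial.map_mul,
      hPm, hfrob]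
    apply dvd_add
    · exact dvd_mul_right _ _
    · apply Dvd.dvd.mul_right
      exact dvd_pow_self P (pow_ne_zero _ hq.ne_zero)
  obtain ⟨h', hh'⟩ := hPrad s _ hdvd
  obtain ⟨h, rfl⟩ := Polynomial.map_surjective r (ZMod.ringHom_surjective r) h'
  have hzero : (g - (X ^ m' - C (b : ℤ)) * h).map r = 0 := by
    rw [Polynomial.map_sub, Polynomial.map_mul, hPm, hh', sub_self]
  have hCdvd : C (q : ℤ) ∣ g - (X ^ m' - C (b : ℤ)) * h := by
    rw [C_dvd_iff_dvd_coeff]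
    intro i
    have e3 : ((g - (X ^ m' - C (b : ℤ)) * h).map r).coeff i = 0 := by
      rw [hzero, coeff_zero]
    rw [coeff_map] at e3
    exact (ZMod.intCast_zmod_eq_zero_iff_dvd _ _).1 e3
  obtain ⟨h2, hh2⟩ := hCdvd
  refine ⟨aeval x h, ?_, aeval x h2, ?_, ?_⟩
  · rw [Algebra.adjoin_singleton_eq_range_aeval]
    exact ⟨h, rfl⟩
  · rw [Algebra.adjoin_singleton_eq_range_aeval]
    exact ⟨h2, rfl⟩
  · have e4 : g = (X ^ m' - C (b : ℤ)) * h + C (q : ℤ) * h2 := by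
      rw [← hh2]; ring
    have e5 : aeval x g = aeval x ((X ^ m' - C (b : ℤ)) * h + C (q : ℤ) * h2) := by
      rw [← e4]
    have e6 : (algebraMap ℤ (𝓞 F)) (b : ℤ) = (b : 𝓞 F) := by simp
    have e7 : (algebraMap ℤ (𝓞 F)) (q : ℤ) = (q : 𝓞 F) := by simp
    rw [map_add, map_mul, map_mul, map_sub, map_pow, aeval_X, aeval_C, aeval_C, e6, e7] at e5
    exact e5

theorem locQ (F : Type) [Field F] [NumberField F] (m b q : ℕ) (hm : 1 ≤ m) (hq : q.Prime)
    (hqm : q ∣ m) (hqb : ¬ q ∣ b) (hW : ¬ q ^ 2 ∣ b ^ (q - 1) - 1) (x : 𝓞 F)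
    (hx : x ^ m = (b : 𝓞 F)) (hfr : Module.finrank ℚ F = m)
    (htop : IntermediateField.adjoin ℚ {(x : F)} = ⊤) (y : 𝓞 F)
    (hy : (q : 𝓞 F) * y ∈ Algebra.adjoin ℤ {x}) : y ∈ Algebra.adjoin ℤ {x} := by
  obtain ⟨n, m', hqm', hmm⟩ := Nat.exists_eq_pow_mul_and_not_dvd (n := m) (by omega) q hq.ne_one
  have hn : 1 ≤ n := by
    rcases Nat.eq_zero_or_pos n with h | h
    · subst h
      rw [pow_zero, one_mul] at hmm
      rw [hmm] at hqm
      exact absurd hqm hqm'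
    · exact h
  have hmm' : m = m' * q ^ n := by rw [hmm, mul_comm]
  obtain ⟨c0, hc0, hqc0⟩ := locQ_c0 b q n hq hqb hW hn
  have hxA : x ∈ Algebra.adjoin ℤ {x} := Algebra.self_mem_adjoin_singleton ℤ x
  set A := Algebra.adjoin ℤ {x} with hA
  have hbA : (b : 𝓞 F) ∈ A := A.natCast_mem b
  have hpA : x ^ m' - (b : 𝓞 F) ∈ A := A.sub_mem (A.pow_mem hxA _) hbA
  -- the relation
  obtain ⟨r, hr⟩ := Commute.exists_add_pow_prime_pow_eq hq
    (Commute.all (⟨x ^ m' - (b : 𝓞 F), hpA⟩ : A) ⟨(b : 𝓞 F), hbA⟩) n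
  have hr' : (x ^ m' - (b : 𝓞 F) + b) ^ q ^ n = (x ^ m' - (b : 𝓞 F)) ^ q ^ n
      + (b : 𝓞 F) ^ q ^ n + q * (x ^ m' - (b : 𝓞 F)) * b * (r : 𝓞 F) := by
    have := congrArg (Subtype.val) hr
    push_cast at this
    exact this
  rw [sub_add_cancel, ← pow_mul, ← hmm', hx] at hr'
  have hc0' : (b : 𝓞 F) ^ (q ^ n) - b = (q : 𝓞 F) * (c0 : 𝓞 F) := by
    have := congrArg (fun z : ℤ => (z : 𝓞 F)) hc0
    push_cast at this
    exact this
  have hp0 : x ^ m' - (b : 𝓞 F) ≠ 0 := by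
    intro h0
    have hb0 : (b : 𝓞 F) ≠ 0 := by
      have : b ≠ 0 := by
        rintro rfl
        exact hqb (dvd_zero q)
      exact_mod_cast this
    rw [h0] at hr'
    have h1 : (b : 𝓞 F) ^ (q ^ n) - b = 0 := by
      have h2 : (0 : 𝓞 F) ^ q ^ n = 0 := zero_pow (pow_ne_zero _ hq.ne_zero)
      rw [h2] at hr'
      linear_combination (-1 : 𝓞 F) * hr'
    rw [hc0'] at h1
    rcases mul_eq_zero.1 h1 with h3 | h3
    · have : q ≠ 0 := hq.ne_zero
      exact this (by exact_mod_cast h3)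
    · have h4 : c0 = 0 := by exact_mod_cast h3
      exact hqc0 (h4 ▸ dvd_zero _)
  refine locQ_core A (x ^ m' - (b : 𝓞 F)) ((b : 𝓞 F) * r) hpA (A.mul_mem hbA r.2) hp0 q (q ^ n) c0
    (Nat.one_le_pow _ _ hq.pos) ?_ ?_ ?_ y (RingOfIntegers.isIntegral y) hy
  · rw [Int.isCoprime_iff_gcd_eq_one]
    have := (Nat.Prime.coprime_iff_not_dvd hq (n := c0.natAbs)).2 (by
      intro h
      apply hqc0
      exact Int.natCast_dvd.2 h)
    simpa [Int.gcd] using this
  · linear_combination (-1 : 𝓞 F) * hr' - hc0'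
  · intro z hz s hs
    exact locQ_rad F m b q n m' hm hq hmm' hqm' hqb x hx hfr htop z hz s hs

end Pool.Agent.H4.RR
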