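import Pool.Agent.H4.RR.DenTower

/-!
# Towers (MP_187c26_nt, real radical towers)
-/

set_option autoImplicit false

open NumberField Polynomial IntermediateField

namespace Pool.Agent.H4.RR

/-- One step of the recursion for the constants. -/
noncomputable def cnext (c : ℝ) : ℝ :=
  min c (Real.log (5 / 4) / 4) - min c (Real.log (5 / 4) / 4) ^ 2 / Real.log 2

/-- The constant after `n` steps. -/
noncomputable def cseq (κ : ℝ) : ℕ → ℝ
  | 0 => κ
  | n + 1 => cnext (cseq κ n)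

lemma log_five_four_pos : 0 < Real.log (5 / 4) := Real.log_pos (by norm_num)

lemma log_five_four_lt : Real.log (5 / 4) < Real.log 2 :=
  Real.log_lt_log (by norm_num) (by norm_num)

lemma cnext_pos (c : ℝ) (hc : 0 < c) : 0 < cnext c := by
  unfold cnext
  set t := min c (Real.log (5 / 4) / 4)
  have h1 : 0 < t := lt_min hc (by have := log_five_four_pos; positivity)
  have h2 : t ≤ Real.log (5 / 4) / 4 := min_le_right _ _
  have h3 := log_five_four_pos
  have h4 := log_five_four_lt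
  have h5 : t < Real.log 2 := by linarith
  have h6 : t ^ 2 / Real.log 2 < t := by
    rw [div_lt_iff₀ (by linarith)]
    nlinarith
  linarith

lemma cseq_pos (κ : ℝ) (hκ : 0 < κ) (n : ℕ) : 0 < cseq κ n := by
  induction n with
  | zero => exact hκ
  | succ n ih => exact cnext_pos _ ih

variable {Ω : Type} [Field Ω] [CharZero Ω]

lemma bog_mono {E : IntermediateField ℚ Ω} {S : Subgroup Ωˣ} {κ κ' : ℝ} (h : Bog E S κ)
    (hle : κ' ≤ κ) : Bog E S κ' := fun a ha haS => hle.trans (h a ha haS)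

lemma isCoprime_of_primes (d : ℤ) (n : ℕ) (h : ∀ p : ℕ, p.Prime → (p : ℤ) ∣ d → ¬ p ∣ n) :
    IsCoprime d (n : ℤ) := by
  rw [Int.isCoprime_iff_gcd_eq_one]
  by_contra hne
  obtain ⟨p, hp, hpd⟩ := Nat.exists_prime_and_dvd hne
  have h1 : (p : ℤ) ∣ d := (Int.natCast_dvd_natCast.mpr hpd).trans (Int.gcd_dvd_left ..)
  have h2 : (p : ℤ) ∣ (n : ℤ) := (Int.natCast_dvd_natCast.mpr hpd).trans (Int.gcd_dvd_right ..)
  exact h p hp h1 (Int.natCast_dvd_natCast.mp h2)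

lemma not_dvd_of_isCoprime (d : ℤ) (n : ℕ) (h : IsCoprime d (n : ℤ)) (p : ℕ) (hp : p.Prime)
    (hpd : (p : ℤ) ∣ d) : ¬ p ∣ n := by
  intro hpn
  have h1 : (p : ℤ) ∣ (n : ℤ) := Int.natCast_dvd_natCast.mpr hpn
  have h2 := h.isUnit_of_dvd' hpd h1
  rw [Int.isUnit_iff_natAbs_eq, Int.natAbs_natCast] at h2
  exact hp.one_lt.ne' h2

theorem tower (E0 : IntermediateField ℚ Ω) [NumberField E0] (κ : ℝ) (hκ : 0 < κ)
    (hBog : Bog E0 (CommGroup.torsion Ωˣ) κ) {ι : Type} [DecidableEq ι]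
    (b m : ι → ℕ) (x : ι → Ωˣ) (s : Finset ι)
    (hb : ∀ i ∈ s, 2 ≤ b i) (hsq : ∀ i ∈ s, Squarefree (b i)) (hm : ∀ i ∈ s, 1 ≤ m i)
    (hx : ∀ i ∈ s, (x i : Ω) ^ m i = (b i : Ω))
    (hW : ∀ i ∈ s, ∀ q : ℕ, q.Prime → q ∣ m i → ¬ q ^ 2 ∣ b i ^ (q - 1) - 1)
    (hcop : ∀ i ∈ s, ∀ j ∈ s, i ≠ j → Nat.Coprime (m i * b i) (m j * b j))
    (hdisc : ∀ i ∈ s, IsCoprime (discr E0) ((m i * b i : ℕ) : ℤ)) :
    ∀ E' : IntermediateField ℚ Ω, E' = E0 ⊔ ⨆ i ∈ s, ℚ⟮(x i : Ω)⟯ →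
      ∃ _ : NumberField E',
        Bog E' (CommGroup.torsion Ωˣ ⊔ ⨆ i ∈ s, Subgroup.zpowers (x i)) (cseq κ s.card) ∧
        ∀ p : ℕ, p.Prime → (p : ℤ) ∣ discr E' → (p : ℤ) ∣ discr E0 ∨ ∃ i ∈ s, p ∣ m i * b i := by
  induction s using Finset.induction_on with
  | empty =>
    intro E' hE'
    have h1 : E' = E0 := by rw [hE']; simp
    subst h1
    refine ⟨inferInstance, ?_, ?_⟩
    · have h2 : (CommGroup.torsion Ωˣ ⊔ ⨆ i ∈ (∅ : Finset ι), Subgroup.zpowers (x i))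
          = CommGroup.torsion Ωˣ := by simp
      rw [h2]
      exact hBog
    · intro p _ hpd
      exact Or.inl hpd
  | insert i0 t hi0 ih =>
    intro E' hE'
    have hsub : ∀ i ∈ t, i ∈ insert i0 t := fun i hi => Finset.mem_insert_of_mem hi
    have hmem0 : i0 ∈ insert i0 t := Finset.mem_insert_self _ _
    obtain ⟨hNF, hBt, hdt⟩ := ih (fun i hi => hb i (hsub i hi)) (fun i hi => hsq i (hsub i hi))
      (fun i hi => hm i (hsub i hi)) (fun i hi => hx i (hsub i hi))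
      (fun i hi => hW i (hsub i hi))
      (fun i hi j hj => hcop i (hsub i hi) j (hsub j hj)) (fun i hi => hdisc i (hsub i hi))
      (E0 ⊔ ⨆ i ∈ t, ℚ⟮(x i : Ω)⟯) rfl
    set Et : IntermediateField ℚ Ω := E0 ⊔ ⨆ i ∈ t, ℚ⟮(x i : Ω)⟯ with hEt
    have hE'2 : E' = Et ⊔ ℚ⟮(x i0 : Ω)⟯ := by
      rw [hE', hEt, Finset.iSup_insert, sup_assoc, sup_comm (⨆ i ∈ t, ℚ⟮(x i : Ω)⟯)]
    have hxint : IsIntegral ℚ (x i0 : Ω) :=
      (isIntegral_of_pow_eq (x i0 : Ω) (m i0) (b i0) (hm i0 hmem0) (hx i0 hmem0)).tower_top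
    have hNF' : NumberField E' := by
      rw [hE'2]
      exact numberField_sup Et (x i0 : Ω) hxint
    refine ⟨hNF', ?_⟩
    have hxE : ∀ i ∈ t, (x i : Ω) ∈ Et := by
      intro i hi
      have h1 : ℚ⟮(x i : Ω)⟯ ≤ Et := by
        rw [hEt]
        exact le_sup_of_le_right (le_iSup₂_of_le i hi le_rfl)
      exact h1 (mem_adjoin_simple_self ℚ _)
    have hcopb : ∀ i ∈ t, ∀ j ∈ t, i ≠ j → Nat.Coprime (b i) (b j) := by
      intro i hi j hj hij
      have h1 := hcop i (hsub i hi) j (hsub j hj) hij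
      exact (Nat.Coprime.coprime_mul_left h1).coprime_mul_left_right
    have hD := den_tower Et t b m x (fun i hi => le_trans (by norm_num) (hb i (hsub i hi)))
      (fun i hi => hm i (hsub i hi)) (fun i hi => hx i (hsub i hi)) hxE hcopb
    have hcop0 : IsCoprime (discr Et) ((m i0 * b i0 : ℕ) : ℤ) := by
      apply isCoprime_of_primes
      intro p hp hpd hpn
      rcases hdt p hp hpd with h1 | ⟨i, hi, h1⟩
      · exact not_dvd_of_isCoprime _ _ (hdisc i0 hmem0) p hp h1 hpn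
      · have hne : i ≠ i0 := fun h => hi0 (h ▸ hi)
        have h2 := hcop i (hsub i hi) i0 hmem0 hne
        exact hp.one_lt.ne' (Nat.eq_one_of_dvd_coprimes h2 h1 hpn)
    obtain ⟨hB', hd'⟩ := step Et E' (CommGroup.torsion Ωˣ ⊔ ⨆ i ∈ t, Subgroup.zpowers (x i))
      (cseq κ t.card) 1 (cseq_pos κ hκ _) zero_le_one hBt hD (m i0) (b i0) (hm i0 hmem0)
      (hb i0 hmem0) (hsq i0 hmem0) (hW i0 hmem0) hcop0 (x i0) (hx i0 hmem0) hE'2
    constructor
    · have hS : (CommGroup.torsion Ωˣ ⊔ ⨆ i ∈ insert i0 t, Subgroup.zpowers (x i))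
          = (CommGroup.torsion Ωˣ ⊔ ⨆ i ∈ t, Subgroup.zpowers (x i)) ⊔ Subgroup.zpowers (x i0) := by
        rw [Finset.iSup_insert, sup_assoc, sup_comm (⨆ i ∈ t, Subgroup.zpowers (x i))]
      rw [hS, Finset.card_insert_of_notMem hi0]
      apply bog_mono hB'
      change cnext (cseq κ t.card) ≤ _
      unfold cnext
      have h22 : (2 : ℝ) + 2 * 1 = 4 := by norm_num
      rw [h22]
      have hlog : Real.log 2 ≤ Real.log (b i0) :=
        Real.log_le_log (by norm_num) (by exact_mod_cast hb i0 hmem0)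
      have hl2 : 0 < Real.log 2 := Real.log_pos (by norm_num)
      have h3 : min (cseq κ t.card) (Real.log (5 / 4) / 4) ^ 2 / Real.log (b i0)
          ≤ min (cseq κ t.card) (Real.log (5 / 4) / 4) ^ 2 / Real.log 2 := by
        apply div_le_div_of_nonneg_left (by positivity) hl2 hlog
      linarith
    · intro p hp hpd
      rcases hd' p hp hpd with h1 | h1
      · rcases hdt p hp h1 with h2 | ⟨i, hi, h2⟩
        · exact Or.inl h2
        · exact Or.inr ⟨i, hsub i hi, h2⟩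
      · exact Or.inr ⟨i0, hmem0, h1⟩

end Pool.Agent.H4.RR
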